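import Pool.Agent.T6.H83.RM.Con9

/-!
# Iterates and the bound in all degrees
-/

set_option autoImplicit false
set_option linter.unusedSectionVars false
set_option linter.unusedVariables false

namespace Pool.Agent.T6.H83.RM

open Finset MvPolynomial
open Pool.Agent.H892.PGR (nm nm_pos nm_smul Phi phi_smul)
open Pool.Agent.H892.PGK (PotGood PP fX fX_mk br_zero_iff)
open Pool.Agent.TH856.PG (Pr qav qav_eq NoZero phi_ne_zero)

section forms

variable {R : Type*} [CommRing R]

/-- the forms of the iterates -/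
noncomputable def It (F G : MvPolynomial (Fin 2) R) : ℕ → Fin 2 → MvPolynomial (Fin 2) R
  | 0 => ![X 0, X 1]
  | k + 1 => ![bind₁ (It F G k) F, bind₁ (It F G k) G]

lemma eval_bind (H : MvPolynomial (Fin 2) R) (g : Fin 2 → MvPolynomial (Fin 2) R)
    (v : Fin 2 → R) : eval v (bind₁ g H) = eval (Phi (g 0) (g 1) v) H := by
  have e : ∀ (x : Fin 2 → R) (H : MvPolynomial (Fin 2) R), aeval x H = eval x H :=
    fun x H => DFunLike.congr_fun (coe_aeval_eq_eval x) H
  have h1 := aeval_bind₁ v g H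
  have h2 : (fun i => (aeval v) (g i)) = Phi (g 0) (g 1) v := by
    ext i
    fin_cases i
    · exact e v (g 0)
    · exact e v (g 1)
  rw [h2, e, e] at h1
  exact h1

lemma Phi_bind (F G : MvPolynomial (Fin 2) R) (g : Fin 2 → MvPolynomial (Fin 2) R)
    (v : Fin 2 → R) : Phi (bind₁ g F) (bind₁ g G) v = Phi F G (Phi (g 0) (g 1) v) := by
  unfold Phi
  rw [eval_bind, eval_bind]
  rfl

lemma Phi_It (F G : MvPolynomial (Fin 2) R) (k : ℕ) (v : Fin 2 → R) :
    Phi (It F G k 0) (It F G k 1) v = (Phi F G)^[k] v := by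
  induction k with
  | zero =>
    ext i
    fin_cases i
    · simp [It, Phi]
    · simp [It, Phi]
  | succ k ih =>
    rw [Function.iterate_succ_apply', ← ih, ← Phi_bind]
    rfl

lemma It_hom {F G : MvPolynomial (Fin 2) R} {d : ℕ} (hF : F.IsHomogeneous d)
    (hG : G.IsHomogeneous d) (k : ℕ) (i : Fin 2) : (It F G k i).IsHomogeneous (d ^ k) := by
  induction k generalizing i with
  | zero =>
    rw [pow_zero]
    fin_cases i
    · exact isHomogeneous_X R (0 : Fin 2)
    · exact isHomogeneous_X R (1 : Fin 2)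
  | succ k ih =>
    rw [pow_succ]
    fin_cases i
    · exact hF.aeval (It F G k) ih
    · exact hG.aeval (It F G k) ih

lemma It_map {R' : Type*} [CommRing R'] (φ : R →+* R') (F G : MvPolynomial (Fin 2) R) (k : ℕ)
    (i : Fin 2) : (It F G k i).map φ = It (F.map φ) (G.map φ) k i := by
  induction k generalizing i with
  | zero =>
    fin_cases i
    · simp [It]
    · simp [It]
  | succ k ih =>
    have h : (fun i => (It F G k i).map φ) = It (F.map φ) (G.map φ) k := funext ih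
    fin_cases i
    · show (bind₁ (It F G k) F).map φ = bind₁ (It (F.map φ) (G.map φ) k) (F.map φ)
      rw [map_bind₁, h]
    · show (bind₁ (It F G k) G).map φ = bind₁ (It (F.map φ) (G.map φ) k) (G.map φ)
      rw [map_bind₁, h]

end forms

section field

variable {K : Type} [Field K]

lemma It_noZero {F G : MvPolynomial (Fin 2) K} (h0 : NoZero F G) (k : ℕ) :
    NoZero (It F G k 0) (It F G k 1) := by
  induction k with
  | zero =>
    intro x hx h
    apply hx
    ext i
    fin_cases i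
    · simpa [It] using h.1
    · simpa [It] using h.2
  | succ k ih =>
    intro x hx h
    apply h0 (fun i => aeval x (It F G k i))
    · intro h1
      exact ih x hx ⟨congrFun h1 0, congrFun h1 1⟩
    · have e : ∀ H : MvPolynomial (Fin 2) K, aeval x (bind₁ (It F G k) H) =
          aeval (fun i => aeval x (It F G k i)) H := fun H => aeval_bind₁ x (It F G k) H
      refine ⟨?_, ?_⟩
      · rw [← e]; exact h.1
      · rw [← e]; exact h.2

lemma fX_It {F G : MvPolynomial (Fin 2) K} {d : ℕ} (hF : F.IsHomogeneous d)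
    (hG : G.IsHomogeneous d) (h0 : NoZero F G) (k : ℕ) (P : PP K) :
    fX (It F G k 0) (It F G k 1) (phi_ne_zero (It_noZero h0 k)) P =
      (fX F G (phi_ne_zero h0))^[k] P := by
  obtain ⟨hk, h1⟩ := Pool.Agent.TH856.PG.fX_iter hF hG (phi_ne_zero h0) P.rep P.rep_nonzero k
  rw [P.mk_rep] at h1
  rw [h1]
  unfold fX
  simp only [Phi_It]

lemma It_integral {L : Type*} [Field L] {w : AbsoluteValue L ℝ}
    (hna : ∀ x y : L, w (x + y) ≤ max (w x) (w y)) {F G : MvPolynomial (Fin 2) L}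
    (hF : ∀ s, w (F.coeff s) ≤ 1) (hG : ∀ s, w (G.coeff s) ≤ 1) (k : ℕ) (i : Fin 2) :
    ∀ s, w ((It F G k i).coeff s) ≤ 1 := by
  obtain ⟨F', hF'⟩ := Pool.Agent.TH856.PG.exists_lift w hna hF
  obtain ⟨G', hG'⟩ := Pool.Agent.TH856.PG.exists_lift w hna hG
  intro s
  rw [← hF', ← hG', ← It_map, coeff_map]
  exact (Pool.Agent.TH856.PG.mem_O w hna).1 (Subtype.property _)

lemma potGood_It {a : AbsoluteValue K ℝ} {F G : MvPolynomial (Fin 2) K} {d : ℕ}
    (hp : PotGood a F G d) (k : ℕ) : PotGood a (It F G k 0) (It F G k 1) (d ^ k) := by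
  obtain ⟨L, i1, i2, w, A, c, F₁, G₁, hna, hw, hA, hc, hF₁, hG₁, hFi, hGi, hR, hconj⟩ := hp
  have hiter : ∀ k : ℕ, ∀ u : Fin 2 → L, nm w u = 1 →
      nm w (Phi (It F₁ G₁ k 0) (It F₁ G₁ k 1) u) = 1 := by
    intro k u hu
    rw [Phi_It]
    induction k with
    | zero => exact hu
    | succ k ih =>
      rw [Function.iterate_succ_apply']
      exact hR _ ih
  have hcon : ∀ k : ℕ, ∃ ck : L, ck ≠ 0 ∧ ∀ v : Fin 2 → L,
      A.mulVec ((Phi (F.map (algebraMap K L)) (G.map (algebraMap K L)))^[k] v) =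
        ck • (Phi F₁ G₁)^[k] (A.mulVec v) := by
    intro k
    induction k with
    | zero => exact ⟨1, one_ne_zero, fun v => by simp⟩
    | succ k ih =>
      obtain ⟨ck, hck, h⟩ := ih
      refine ⟨c * ck ^ d, mul_ne_zero hc (pow_ne_zero _ hck), fun v => ?_⟩
      rw [Function.iterate_succ_apply', Function.iterate_succ_apply', hconj, h,
        phi_smul hF₁ hG₁, smul_smul]
  obtain ⟨ck, hck, hck2⟩ := hcon k
  refine ⟨L, i1, i2, w, A, ck, It F₁ G₁ k 0, It F₁ G₁ k 1, hna, hw, hA, hck,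
    It_hom hF₁ hG₁ k 0, It_hom hF₁ hG₁ k 1, It_integral hna hFi hGi k 0,
    It_integral hna hFi hGi k 1, hiter k, ?_⟩
  intro v
  rw [It_map, It_map, Phi_It, Phi_It]
  exact hck2 v

end field

/-- a power of `d` in an interval -/
lemma exists_pow (d D : ℕ) (hd : 2 ≤ d) (hD : 2 ≤ D) : ∃ k : ℕ, D ≤ d ^ k ∧ d ^ k ≤ D * d := by
  have hex : ∃ k, D ≤ d ^ k := ⟨D, (Nat.lt_pow_self (by omega)).le⟩
  classical
  refine ⟨Nat.find hex, Nat.find_spec hex, ?_⟩
  have h1 : Nat.find hex ≠ 0 := by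
    intro h
    have := Nat.find_spec hex
    rw [h, pow_zero] at this
    omega
  obtain ⟨m, hm⟩ := Nat.exists_eq_succ_of_ne_zero h1
  have h2 := Nat.find_min hex (m := m) (by omega)
  push Not at h2
  rw [hm, Nat.succ_eq_add_one, pow_succ]
  exact Nat.mul_le_mul_right _ h2.le

theorem all_degrees : ∃ C : ℕ, ∀ (d : ℕ) (_ : 2 ≤ d) (F G : MvPolynomial (Fin 2) ℚ)
    (_ : F.IsHomogeneous d)
    (_ : G.IsHomogeneous d) (h0 : NoZero F G) (Bd : Finset Pr)
    (_ : ∀ p ∉ Bd, PotGood (qav p) F G d)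
    (A : Finset (PP ℚ)) (_ : ∀ P ∈ A, fX F G (phi_ne_zero h0) P ∈ A),
    A.card ≤ C * ((Bd.card + 1) ^ 5 * d) := by
  obtain ⟨C, hC⟩ := big_degree
  refine ⟨C * 4800000, ?_⟩
  intro d hd F G hF hG h0 Bd hp A hA
  obtain ⟨S, hS⟩ : ∃ S : ℕ, S = Bd.card + 1 := ⟨_, rfl⟩
  have hS3 : 1 ≤ S ^ 3 := Nat.one_le_pow _ _ (by omega)
  obtain ⟨k, hk1, hk2⟩ := exists_pow d (4800000 * S ^ 3) hd (by omega)
  have hinv : ∀ P ∈ A, ∀ n : ℕ, (fX F G (phi_ne_zero h0))^[n] P ∈ A := by
    intro P hP n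
    induction n with
    | zero => exact hP
    | succ n ih =>
      rw [Function.iterate_succ_apply']
      exact hA _ ih
  have h1 := hC (d ^ k) (It F G k 0) (It F G k 1) (It_hom hF hG k 0) (It_hom hF hG k 1)
    (It_noZero h0 k) Bd (fun p hpb => potGood_It (hp p hpb) k) (by rw [← hS]; exact hk1) A
    (fun P hP => by
      rw [fX_It hF hG h0 k]
      exact hinv P hP k)
  rw [← hS] at h1 ⊢
  calc A.card ≤ C * (S ^ 2 * d ^ k) := h1
    _ ≤ C * (S ^ 2 * (4800000 * S ^ 3 * d)) :=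
        Nat.mul_le_mul_left _ (Nat.mul_le_mul_left _ hk2)
    _ = C * 4800000 * (S ^ 5 * d) := by ring

end Pool.Agent.T6.H83.RM
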