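import Mathlib

/-!
# Sums over pairs, and the abstract situation

`E w x y` is the local product of the points `x` and `y` at the place `w` (minus the logarithm of
their distance), `T w x` measures how much the map shrinks vectors over `x`, and `h` is the height.
-/

set_option autoImplicit false
set_option linter.unusedSectionVars false
set_option linter.unusedVariables false

namespace Pool.Agent.T6.H83.RM

open Finset

variable {α ι : Type*} [DecidableEq α] [DecidableEq ι]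

/-- sum over the ordered pairs of different elements -/
noncomputable def en (E : α → α → ℝ) (B : Finset α) : ℝ := ∑ x ∈ B, ∑ y ∈ B.erase x, E x y

/-- sum over a rectangle -/
noncomputable def cr (E : α → α → ℝ) (Y Z : Finset α) : ℝ := ∑ x ∈ Y, ∑ y ∈ Z, E x y

lemma en_union (E : α → α → ℝ) (hs : ∀ x y, E x y = E y x) {Y Z : Finset α}
    (h : Disjoint Y Z) : en E (Y ∪ Z) = en E Y + en E Z + 2 * cr E Y Z := by
  unfold en cr
  rw [sum_union h]
  have h1 : ∀ x ∈ Y, ∑ y ∈ (Y ∪ Z).erase x, E x y = ∑ y ∈ Y.erase x, E x y + ∑ y ∈ Z, E x y := by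
    intro x hx
    have hxZ : x ∉ Z := fun hz => (disjoint_left.1 h hx hz).elim
    rw [erase_union_distrib, erase_eq_of_notMem hxZ, sum_union]
    exact disjoint_of_subset_left (erase_subset _ _) h
  have h2 : ∀ x ∈ Z, ∑ y ∈ (Y ∪ Z).erase x, E x y = ∑ y ∈ Y, E x y + ∑ y ∈ Z.erase x, E x y := by
    intro x hx
    have hxY : x ∉ Y := fun hy => (disjoint_left.1 h hy hx).elim
    rw [erase_union_distrib, erase_eq_of_notMem hxY, sum_union]
    exact disjoint_of_subset_right (erase_subset _ _) h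
  rw [sum_congr rfl h1, sum_congr rfl h2, sum_add_distrib, sum_add_distrib]
  have h3 : ∑ x ∈ Z, ∑ y ∈ Y, E x y = ∑ x ∈ Y, ∑ y ∈ Z, E x y := by
    rw [sum_comm]
    exact sum_congr rfl fun x _ => sum_congr rfl fun y _ => hs _ _
  rw [h3]
  ring

lemma en_nonneg (E : α → α → ℝ) {B : Finset α} (h : ∀ x ∈ B, ∀ y ∈ B, x ≠ y → 0 ≤ E x y) :
    0 ≤ en E B := by
  refine sum_nonneg fun x hx => sum_nonneg fun y hy => ?_
  rw [mem_erase] at hy
  exact h x hx y hy.2 (Ne.symm hy.1)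

lemma cr_nonneg (E : α → α → ℝ) {Y Z : Finset α} (h : ∀ x ∈ Y, ∀ y ∈ Z, 0 ≤ E x y) :
    0 ≤ cr E Y Z := sum_nonneg fun x hx => sum_nonneg fun y hy => h x hx y hy

lemma cr_mono (E : α → α → ℝ) {Y Z Y' Z' : Finset α} (hY : Y ⊆ Y') (hZ : Z ⊆ Z')
    (h : ∀ x ∈ Y', ∀ y ∈ Z', 0 ≤ E x y) : cr E Y Z ≤ cr E Y' Z' := by
  unfold cr
  calc ∑ x ∈ Y, ∑ y ∈ Z, E x y ≤ ∑ x ∈ Y, ∑ y ∈ Z', E x y := by
        refine sum_le_sum fun x hx => sum_le_sum_of_subset_of_nonneg hZ fun y hy _ => ?_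
        exact h x (hY hx) y hy
    _ ≤ _ := sum_le_sum_of_subset_of_nonneg hY fun x hx _ => sum_nonneg fun y hy => h x hx y hy

lemma cr_le (E : α → α → ℝ) {Y Z : Finset α} {c : ℝ} (h : ∀ x ∈ Y, ∀ y ∈ Z, E x y ≤ c) :
    cr E Y Z ≤ Y.card * Z.card * c := by
  unfold cr
  calc ∑ x ∈ Y, ∑ y ∈ Z, E x y ≤ ∑ x ∈ Y, ∑ y ∈ Z, c :=
        sum_le_sum fun x hx => sum_le_sum fun y hy => h x hx y hy
    _ = _ := by simp; ring

lemma cr_union_left (E : α → α → ℝ) {Y Y' Z : Finset α} (h : Disjoint Y Y') :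
    cr E (Y ∪ Y') Z = cr E Y Z + cr E Y' Z := by
  unfold cr; rw [sum_union h]

lemma cr_union_right (E : α → α → ℝ) {Y Z Z' : Finset α} (h : Disjoint Z Z') :
    cr E Y (Z ∪ Z') = cr E Y Z + cr E Y Z' := by
  unfold cr
  rw [← sum_add_distrib]
  exact sum_congr rfl fun x _ => sum_union h

/-- the sum over the pairs of `h x + h y` -/
lemma en_add (h : α → ℝ) (B : Finset α) :
    en (fun x y => h x + h y) B = 2 * ((B.card : ℝ) - 1) * ∑ x ∈ B, h x := by
  unfold en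
  have h1 : ∀ x ∈ B, ∑ y ∈ B.erase x, (h x + h y) = ((B.card : ℝ) - 2) * h x + ∑ y ∈ B, h y := by
    intro x hx
    rw [sum_add_distrib, sum_const, card_erase_of_mem hx, nsmul_eq_mul,
      Nat.cast_sub (card_pos.2 ⟨x, hx⟩), ← add_sum_erase B h hx]
    push_cast
    ring
  rw [sum_congr rfl h1, sum_add_distrib, ← mul_sum, sum_const, nsmul_eq_mul]
  ring

lemma en_congr {E E' : α → α → ℝ} {B : Finset α} (h : ∀ x ∈ B, ∀ y ∈ B, x ≠ y → E x y = E' x y) :
    en E B = en E' B := by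
  refine sum_congr rfl fun x hx => sum_congr rfl fun y hy => ?_
  rw [mem_erase] at hy
  exact h x hx y hy.2 (Ne.symm hy.1)

lemma sum_en {W : Finset ι} (E : ι → α → α → ℝ) (B : Finset α) :
    ∑ w ∈ W, en (E w) B = en (fun x y => ∑ w ∈ W, E w x y) B := by
  unfold en
  rw [sum_comm]
  refine sum_congr rfl fun x _ => ?_
  rw [sum_comm]

lemma sum_cr {W : Finset ι} (E : ι → α → α → ℝ) (Y Z : Finset α) :
    ∑ w ∈ W, cr (E w) Y Z = cr (fun x y => ∑ w ∈ W, E w x y) Y Z := by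
  unfold cr
  rw [sum_comm]
  refine sum_congr rfl fun x _ => ?_
  rw [sum_comm]

/-- The abstract situation: places `W` with the bad ones `bad`, among them the archimedean place
`inf`; a finite set `A` of points with the map `f`; local products `E`, the local data `T` of the
map, and the height `h`. -/
structure Sys (A : Finset α) (f : α → α) (d J : ℕ) (W bad : Finset ι) (inf : ι)
    (E : ι → α → α → ℝ) (T : ι → α → ℝ) (h : α → ℝ) : Prop where
  hbad : bad ⊆ W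
  hinf : inf ∈ bad
  hf : ∀ x ∈ A, f x ∈ A
  fib : ∀ y ∈ A, (A.filter (fun x => f x = y)).card ≤ d
  nonneg : ∀ w ∈ W, ∀ x ∈ A, ∀ y ∈ A, x ≠ y → 0 ≤ E w x y
  symm : ∀ w x y, E w x y = E w y x
  ultra : ∀ w ∈ W, ∀ x ∈ A, ∀ y ∈ A, ∀ z ∈ A, x ≠ y → y ≠ z → x ≠ z →
    min (E w x y) (E w y z) ≤ E w x z + 1
  sumE : ∀ x ∈ A, ∀ y ∈ A, x ≠ y → ∑ w ∈ W, E w x y = h x + h y
  sumT : ∀ x ∈ A, ∑ w ∈ W, T w x = d * h x - h (f x)
  goodT : ∀ w ∈ W, w ∉ bad → ∀ x ∈ A, ∀ y ∈ A, T w x = T w y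
  det : ∀ j : ℕ, (j = 1 ∨ j = J) → ∃ lam : ι → ℝ, ∑ w ∈ W, lam w = 0 ∧
    ∀ B ⊆ A, B.card = (j + 1) * d →
      (∀ w ∈ bad, w ≠ inf → j * ∑ x ∈ B, T w x + lam w ≤ en (E w) B / 2) ∧
      (j * ∑ x ∈ B, T inf x + lam inf ≤ en (E inf) B / 2 + Real.log (B.card.factorial)) ∧
      (∀ w ∈ W, w ∉ bad → j * ∑ x ∈ B, T w x + lam w ≤ 0)

/-- the defect -/
noncomputable def Df (E : ι → α → α → ℝ) (T : ι → α → ℝ) (j : ℕ) (lam : ι → ℝ) (w : ι)
    (B : Finset α) : ℝ := en (E w) B / 2 - j * ∑ x ∈ B, T w x - lam w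

section

variable {A : Finset α} {f : α → α} {d J : ℕ} {W bad : Finset ι} {inf : ι}
  {E : ι → α → α → ℝ} {T : ι → α → ℝ} {h : α → ℝ}

/-- the sum of the defects over all places -/
lemma Sys.sum_defect (s : Sys A f d J W bad inf E T h) {j : ℕ} {lam : ι → ℝ}
    (hl : ∑ w ∈ W, lam w = 0) {B : Finset α} (hB : B ⊆ A) (hc : B.card = (j + 1) * d) :
    ∑ w ∈ W, Df E T j lam w B =
      ((d : ℝ) - 1) * ∑ x ∈ B, h x + j * ∑ x ∈ B, h (f x) := by
  unfold Df
  rw [sum_sub_distrib, sum_sub_distrib, ← sum_div, sum_en, hl, ← mul_sum, sum_comm]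
  have h1 : en (fun x y => ∑ w ∈ W, E w x y) B = en (fun x y => h x + h y) B :=
    en_congr fun x hx y hy hxy => s.sumE x (hB hx) y (hB hy) hxy
  have h2 : ∑ x ∈ B, ∑ w ∈ W, T w x = ∑ x ∈ B, (d * h x - h (f x)) :=
    sum_congr rfl fun x hx => s.sumT x (hB hx)
  rw [h1, h2, en_add, sum_sub_distrib, ← mul_sum, hc]
  push_cast
  ring

lemma Sys.pair_nonneg (s : Sys A f d J W bad inf E T h) {x y : α} (hx : x ∈ A) (hy : y ∈ A)
    (hxy : x ≠ y) : 0 ≤ h x + h y := by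
  rw [← s.sumE x hx y hy hxy]
  exact sum_nonneg fun w hw => s.nonneg w hw x hx y hy hxy

lemma Sys.pair_le (s : Sys A f d J W bad inf E T h) {x y : α} (hx : x ∈ A) (hy : y ∈ A)
    (hxy : x ≠ y) {w : ι} (hw : w ∈ W) : E w x y ≤ h x + h y := by
  rw [← s.sumE x hx y hy hxy]
  exact single_le_sum (f := fun w => E w x y) (fun w hw => s.nonneg w hw x hx y hy hxy) hw

/-- at most `d` times as many points are mapped to a set -/
lemma Sys.card_preimage (s : Sys A f d J W bad inf E T h) (P : α → Prop) [DecidablePred P] :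
    (A.filter (fun x => P (f x))).card ≤ d * (A.filter P).card := by
  have h1 : A.filter (fun x => P (f x)) ⊆
      (A.filter P).biUnion (fun y => A.filter (fun x => f x = y)) := by
    intro x hx
    rw [mem_filter] at hx
    rw [mem_biUnion]
    exact ⟨f x, mem_filter.2 ⟨s.hf x hx.1, hx.2⟩, mem_filter.2 ⟨hx.1, rfl⟩⟩
  refine (card_le_card h1).trans (card_biUnion_le.trans ?_)
  calc ∑ y ∈ A.filter P, (A.filter (fun x => f x = y)).card ≤ ∑ y ∈ A.filter P, d :=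
        sum_le_sum fun y hy => s.fib y (mem_filter.1 hy).1
    _ = d * (A.filter P).card := by rw [sum_const, smul_eq_mul, mul_comm]

end

end Pool.Agent.T6.H83.RM
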