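import Pool.Agent.T6.H83.RM.Abs1

/-!
# Few points of large height
-/

set_option autoImplicit false
set_option linter.unusedSectionVars false
set_option linter.unusedVariables false

namespace Pool.Agent.T6.H83.RM

open Finset

variable {α ι : Type*} [DecidableEq α] [DecidableEq ι]
variable {A : Finset α} {f : α → α} {d J : ℕ} {W bad : Finset ι} {inf : ι}
  {E : ι → α → α → ℝ} {T : ι → α → ℝ} {h : α → ℝ}

lemma Sys.low (s : Sys A f d J W bad inf E T h) {m : ℝ} {L : Finset α} (hL : L ⊆ A)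
    (hLc : 2 ≤ L.card) (hL1 : ∀ x ∈ L, h x ≤ m) {x : α} (hx : x ∈ A) : -m ≤ h x := by
  obtain ⟨y, hy, hyx⟩ := Finset.exists_mem_ne (by omega : 1 < L.card) x
  have h1 := s.pair_nonneg hx (hL hy) (Ne.symm hyx)
  have h2 := hL1 y hy
  linarith

/-- the facts about the defects of one set for the data `j`, `lam` -/
structure Dets (A : Finset α) (d j : ℕ) (W bad : Finset ι) (inf : ι)
    (E : ι → α → α → ℝ) (T : ι → α → ℝ) (lam : ι → ℝ) : Prop where
  sumlam : ∑ w ∈ W, lam w = 0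
  nonarch : ∀ B ⊆ A, B.card = (j + 1) * d → ∀ w ∈ bad, w ≠ inf → 0 ≤ Df E T j lam w B
  arch : ∀ B ⊆ A, B.card = (j + 1) * d →
    -Real.log (((j + 1) * d).factorial) ≤ Df E T j lam inf B
  good : ∀ B ⊆ A, B.card = (j + 1) * d → ∀ w ∈ W, w ∉ bad → en (E w) B / 2 ≤ Df E T j lam w B

lemma Sys.dets (s : Sys A f d J W bad inf E T h) {j : ℕ} (hj : j = 1 ∨ j = J) :
    ∃ lam : ι → ℝ, Dets A d j W bad inf E T lam := by
  obtain ⟨lam, h1, h2⟩ := s.det j hj
  refine ⟨lam, h1, ?_, ?_, ?_⟩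
  · intro B hB hc w hw hwi
    have := (h2 B hB hc).1 w hw hwi
    unfold Df
    linarith
  · intro B hB hc
    have := (h2 B hB hc).2.1
    rw [hc] at this
    unfold Df
    linarith
  · intro B hB hc w hw hwb
    have := (h2 B hB hc).2.2 w hw hwb
    unfold Df
    linarith

lemma Sys.en_nonneg' (s : Sys A f d J W bad inf E T h) {B : Finset α} (hB : B ⊆ A) {w : ι}
    (hw : w ∈ W) : 0 ≤ en (E w) B :=
  en_nonneg _ fun x hx y hy hxy => s.nonneg w hw x (hB hx) y (hB hy) hxy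

lemma log_factorial_le (n : ℕ) : Real.log (n.factorial) ≤ n * Real.log n := by
  rcases Nat.eq_zero_or_pos n with rfl | hn
  · simp
  have h1 : ((n.factorial : ℕ) : ℝ) ≤ (n : ℝ) ^ n := by exact_mod_cast Nat.factorial_le_pow n
  calc Real.log (n.factorial) ≤ Real.log ((n : ℝ) ^ n) :=
        Real.log_le_log (by exact_mod_cast Nat.factorial_pos n) h1
    _ = n * Real.log n := Real.log_pow _ _

lemma log_factorial_nonneg (n : ℕ) : 0 ≤ Real.log (n.factorial) :=
  Real.log_nonneg (by exact_mod_cast Nat.succ_le_of_lt (Nat.factorial_pos n))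

/-- the sum of the defects at the bad places -/
lemma Sys.sum_bad_le (s : Sys A f d J W bad inf E T h) {j : ℕ} {lam : ι → ℝ}
    (D : Dets A d j W bad inf E T lam) {B : Finset α} (hB : B ⊆ A) (hc : B.card = (j + 1) * d) :
    ∑ w ∈ bad, Df E T j lam w B ≤ ((d : ℝ) - 1) * ∑ x ∈ B, h x + j * ∑ x ∈ B, h (f x) := by
  rw [← s.sum_defect D.sumlam hB hc]
  refine sum_le_sum_of_subset_of_nonneg s.hbad fun w hw hwb => ?_
  have h1 := D.good B hB hc w hw hwb
  have h2 := s.en_nonneg' hB hw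
  linarith

lemma Sys.sum_bad_ge (s : Sys A f d J W bad inf E T h) {j : ℕ} {lam : ι → ℝ}
    (D : Dets A d j W bad inf E T lam) {B : Finset α} (hB : B ⊆ A) (hc : B.card = (j + 1) * d) :
    -Real.log (((j + 1) * d).factorial) ≤ ∑ w ∈ bad, Df E T j lam w B := by
  rw [← add_sum_erase bad _ s.hinf]
  have h1 := D.arch B hB hc
  have h2 : 0 ≤ ∑ w ∈ bad.erase inf, Df E T j lam w B :=
    sum_nonneg fun w hw => by
      rw [mem_erase] at hw
      exact D.nonarch B hB hc w hw.2 hw.1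
  linarith

/-- the local product of a high point with the points of a low set -/
lemma Sys.sum_E_le (s : Sys A f d J W bad inf E T h) {m : ℝ} (hm : 0 ≤ m) {L : Finset α}
    (hL : L ⊆ A) (hL1 : ∀ x ∈ L, h x ≤ m) {x : α} (hx : x ∈ A) (hxL : x ∉ L)
    (hhx : 0 ≤ h x) {w : ι} (hw : w ∈ W) :
    ∑ y ∈ L, E w y x ≤ L.card * (2 * m + 1) + (h x + m) := by
  classical
  have hne : ∀ y ∈ L, y ≠ x := fun y hy h0 => hxL (h0 ▸ hy)
  by_cases h0 : ∃ y ∈ L, 2 * m + 1 < E w y x
  · obtain ⟨y, hy, h1⟩ := h0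
    have h2 : ∀ z ∈ L.erase y, E w z x ≤ 2 * m + 1 := by
      intro z hz
      rw [mem_erase] at hz
      by_contra h3
      push Not at h3
      have h4 := s.ultra w hw y (hL hy) x hx z (hL hz.2) (hne y hy) (Ne.symm (hne z hz.2))
        (Ne.symm hz.1)
      have h5 := s.pair_le (hL hy) (hL hz.2) (Ne.symm hz.1) hw
      have h6 := hL1 y hy
      have h7 := hL1 z hz.2
      rw [s.symm w x z] at h4
      have h8 : 2 * m + 1 < min (E w y x) (E w z x) := lt_min h1 h3
      linarith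
    rw [← add_sum_erase L _ hy]
    have h3 : ∑ z ∈ L.erase y, E w z x ≤ (L.erase y).card • (2 * m + 1) :=
      sum_le_card_nsmul _ _ _ h2
    have h4 := s.pair_le (hL hy) hx (hne y hy) hw
    have h5 := hL1 y hy
    rw [nsmul_eq_mul, card_erase_of_mem hy, Nat.cast_sub (card_pos.2 ⟨y, hy⟩)] at h3
    push_cast at h3
    nlinarith
  · push Not at h0
    have h3 : ∑ z ∈ L, E w z x ≤ L.card • (2 * m + 1) := sum_le_card_nsmul _ _ _ h0
    rw [nsmul_eq_mul] at h3
    linarith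

lemma Sys.high_sum (s : Sys A f d J W bad inf E T h) {m : ℝ} (hm : 4 ≤ m) {L : Finset α}
    (hL : L ⊆ A) (hLc : L.card = 2 * d) (hL1 : ∀ x ∈ L, h x ≤ m)
    (hL2 : ∀ x ∈ L, h (f x) ≤ d * m) (hd : 200 * bad.card ≤ d) {H : Finset α} (hH : H ⊆ A)
    (hHc : 16 * H.card ≤ d) {R : ℝ} (hR : 200 * bad.card * m ≤ R) (hH1 : ∀ x ∈ H, R ≤ h x) :
    0.89 * d * ∑ x ∈ H, h x - ∑ x ∈ H, h (f x) ≤ 5 * (d : ℝ) ^ 2 * m := by
  classical
  have hb1 : 1 ≤ bad.card := card_pos.2 ⟨inf, s.hinf⟩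
  have hd200 : 200 ≤ d := by omega
  have hS1 : (1 : ℝ) ≤ bad.card := by exact_mod_cast hb1
  have hdR : 200 * (bad.card : ℝ) ≤ d := by exact_mod_cast hd
  set S : ℝ := (bad.card : ℝ) with hS
  set k : ℕ := H.card with hk
  have hRm : 200 * m ≤ R := by nlinarith
  have hdisj : Disjoint H L := by
    rw [disjoint_left]
    intro x hx hxL
    have h1 := hH1 x hx
    have h2 := hL1 x hxL
    nlinarith
  obtain ⟨K, hKL, hKc⟩ := exists_subset_card_eq (by omega : k ≤ L.card)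
  have hL'L : L \ K ⊆ L := sdiff_subset
  have hdisj' : Disjoint H (L \ K) := disjoint_of_subset_right hL'L hdisj
  have hL'c : (L \ K).card = 2 * d - k := by rw [card_sdiff_of_subset hKL, hLc, hKc]
  have hYc : (H ∪ (L \ K)).card = (1 + 1) * d := by
    rw [card_union_of_disjoint hdisj', hL'c, ← hk]
    omega
  have hYA : H ∪ (L \ K) ⊆ A := union_subset hH (hL'L.trans hL)
  have hLc' : L.card = (1 + 1) * d := by omega
  obtain ⟨lam, D⟩ := s.dets (Or.inl rfl : (1 : ℕ) = 1 ∨ (1 : ℕ) = J)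
  have hLK : L = (L \ K) ∪ K := (sdiff_union_of_subset hKL).symm
  have hLKd : Disjoint (L \ K) K := sdiff_disjoint
  -- the local inequality
  have hQ : ∀ w ∈ bad, ∑ x ∈ H, T w x - ∑ x ∈ K, T w x ≤
      Df E T 1 lam w L - Df E T 1 lam w (H ∪ (L \ K)) + en (E w) H / 2 + cr (E w) H (L \ K) := by
    intro w hw
    have hwW := s.hbad hw
    have e1 : en (E w) L = en (E w) (L \ K) + en (E w) K + 2 * cr (E w) (L \ K) K := by
      conv_lhs => rw [hLK]
      exact en_union _ (s.symm w) hLKd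
    have e2 : en (E w) (H ∪ (L \ K)) = en (E w) H + en (E w) (L \ K) + 2 * cr (E w) H (L \ K) :=
      en_union _ (s.symm w) hdisj'
    have e3 : ∑ x ∈ L, T w x = ∑ x ∈ L \ K, T w x + ∑ x ∈ K, T w x := by
      conv_lhs => rw [hLK]
      exact sum_union hLKd
    have e4 : ∑ x ∈ H ∪ (L \ K), T w x = ∑ x ∈ H, T w x + ∑ x ∈ L \ K, T w x :=
      sum_union hdisj'
    have e5 : 0 ≤ en (E w) K := s.en_nonneg' (hKL.trans hL) hwW
    have e6 : 0 ≤ cr (E w) (L \ K) K := cr_nonneg _ fun x hx y hy => by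
      rw [mem_sdiff] at hx
      exact s.nonneg w hwW x (hL hx.1) y (hL (hKL hy)) fun h0 => hx.2 (h0 ▸ hy)
    unfold Df
    rw [e1, e2, e3, e4]
    push_cast
    linarith
  have hQs := sum_le_sum hQ
  rw [sum_add_distrib, sum_add_distrib, sum_sub_distrib, sum_sub_distrib] at hQs
  -- the left side
  have hgood : ∑ w ∈ bad, ∑ x ∈ H, T w x - ∑ w ∈ bad, ∑ x ∈ K, T w x =
      (d * ∑ x ∈ H, h x - ∑ x ∈ H, h (f x)) - (d * ∑ x ∈ K, h x - ∑ x ∈ K, h (f x)) := by
    have h1 : ∀ B ⊆ A, ∑ w ∈ W, ∑ x ∈ B, T w x = d * ∑ x ∈ B, h x - ∑ x ∈ B, h (f x) := by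
      intro B hB
      rw [sum_comm, mul_sum, ← sum_sub_distrib]
      exact sum_congr rfl fun x hx => s.sumT x (hB hx)
    rw [← h1 H hH, ← h1 K (hKL.trans hL), ← sum_sub_distrib, ← sum_sub_distrib]
    refine sum_subset s.hbad fun w hw hwb => ?_
    rcases H.eq_empty_or_nonempty with h0 | ⟨a, ha⟩
    · have : K = ∅ := by rw [← card_eq_zero, hKc, hk, h0]; rfl
      rw [h0, this]; simp
    · have h2 : ∀ x ∈ H, T w x = T w a := fun x hx => s.goodT w hw hwb x (hH hx) a (hH ha)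
      have h3 : ∀ x ∈ K, T w x = T w a :=
        fun x hx => s.goodT w hw hwb x (hL (hKL hx)) a (hH ha)
      rw [sum_congr rfl h2, sum_congr rfl h3, sum_const, sum_const, hKc, ← hk, sub_self]
  rw [hgood] at hQs
  -- the terms on the right
  have hDL := s.sum_bad_le D hL hLc'
  have hDY := s.sum_bad_ge D hYA hYc
  have hlow : ∀ x ∈ A, -m ≤ h x := fun x hx => s.low hL (by omega) hL1 hx
  have hHpos : ∀ x ∈ H, 0 ≤ h x := fun x hx => by
    have := hH1 x hx
    nlinarith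
  have hsL : ∑ x ∈ L, h x ≤ 2 * d * m := by
    have := sum_le_card_nsmul L h m hL1
    rw [hLc, nsmul_eq_mul] at this
    push_cast at this
    linarith
  have hsLf : ∑ x ∈ L, h (f x) ≤ 2 * d * (d * m) := by
    have := sum_le_card_nsmul L (fun x => h (f x)) (d * m) hL2
    rw [hLc, nsmul_eq_mul] at this
    push_cast at this
    linarith
  have hen : ∑ w ∈ bad, en (E w) H / 2 ≤ ((k : ℝ) - 1) * ∑ x ∈ H, h x := by
    have h1 : ∑ w ∈ bad, en (E w) H / 2 ≤ ∑ w ∈ W, en (E w) H / 2 :=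
      sum_le_sum_of_subset_of_nonneg s.hbad fun w hw _ =>
        div_nonneg (s.en_nonneg' hH hw) (by norm_num)
    have h2 : en (fun x y => ∑ w ∈ W, E w x y) H = en (fun x y => h x + h y) H :=
      en_congr fun x hx y hy hxy => s.sumE x (hH hx) y (hH hy) hxy
    have h3 : ∑ w ∈ W, en (E w) H / 2 = ((k : ℝ) - 1) * ∑ x ∈ H, h x := by
      rw [← sum_div, sum_en, h2, en_add]
      ring
    exact h1.trans h3.le
  have hcr : ∑ w ∈ bad, cr (E w) H (L \ K) ≤
      S * (2 * d * k * (2 * m + 1) + ∑ x ∈ H, h x + k * m) := by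
    have h1 : ∀ w ∈ bad, cr (E w) H (L \ K) ≤
        2 * d * k * (2 * m + 1) + ∑ x ∈ H, h x + k * m := by
      intro w hw
      unfold cr
      have h2 : ∀ x ∈ H, ∑ y ∈ L \ K, E w x y ≤ 2 * d * (2 * m + 1) + (h x + m) := by
        intro x hx
        have h3 := s.sum_E_le (by linarith : 0 ≤ m) (hL'L.trans hL)
          (fun y hy => hL1 y (hL'L hy)) (hH hx) (disjoint_left.1 hdisj' hx) (hHpos x hx)
          (s.hbad hw)
        have h4 : ∑ y ∈ L \ K, E w x y = ∑ y ∈ L \ K, E w y x :=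
          sum_congr rfl fun y _ => s.symm w x y
        rw [h4]
        refine h3.trans ?_
        have h5 : ((L \ K).card : ℝ) ≤ 2 * d := by
          rw [hL'c]
          have : ((2 * d - k : ℕ) : ℝ) ≤ ((2 * d : ℕ) : ℝ) := by exact_mod_cast Nat.sub_le _ _
          push_cast at this
          exact this
        nlinarith
      refine (sum_le_sum h2).trans (le_of_eq ?_)
      rw [sum_add_distrib, sum_add_distrib, sum_const, sum_const, nsmul_eq_mul, nsmul_eq_mul,
        ← hk]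
      ring
    have := sum_le_card_nsmul _ _ _ h1
    rw [nsmul_eq_mul, ← hS] at this
    exact this
  have hsK : ∑ x ∈ K, h x ≤ k * m := by
    have := sum_le_card_nsmul K h m (fun x hx => hL1 x (hKL hx))
    rwa [hKc, nsmul_eq_mul] at this
  have hsKf : -(k * m) ≤ ∑ x ∈ K, h (f x) := by
    have := card_nsmul_le_sum K (fun x => h (f x)) (-m)
      (fun x hx => hlow _ (s.hf x (hL (hKL hx))))
    rw [hKc, nsmul_eq_mul] at this
    linarith
  have herr : Real.log ((((1 : ℕ) + 1) * d).factorial) ≤ (d : ℝ) ^ 2 * m := by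
    have h1 := log_factorial_le ((1 + 1) * d)
    have h2 : Real.log (((1 + 1) * d : ℕ) : ℝ) ≤ (((1 + 1) * d : ℕ) : ℝ) := by
      have h0 : (0 : ℝ) ≤ (((1 + 1) * d : ℕ) : ℝ) := Nat.cast_nonneg _
      exact Real.log_le_self h0
    push_cast at h1 h2 ⊢
    have hd0 : (0 : ℝ) ≤ d := Nat.cast_nonneg _
    nlinarith
  -- numerics
  have hkR : (16 : ℝ) * k ≤ d := by exact_mod_cast hHc
  have hsH : (k : ℝ) * R ≤ ∑ x ∈ H, h x := by
    have := card_nsmul_le_sum H h R hH1
    rwa [← hk, nsmul_eq_mul] at this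
  set X : ℝ := ∑ x ∈ H, h x with hX
  set X' : ℝ := ∑ x ∈ H, h (f x) with hX'
  have hk0 : (0 : ℝ) ≤ k := Nat.cast_nonneg _
  have hX0 : 0 ≤ X := sum_nonneg hHpos
  have hd0 : (200 : ℝ) ≤ d := by exact_mod_cast hd200
  have hkX : 200 * (S * m * k) ≤ X := by
    have : (k : ℝ) * (200 * S * m) ≤ k * R := mul_le_mul_of_nonneg_left hR hk0
    linarith
  have hm0 : (0 : ℝ) ≤ m := by linarith
  have hdX : 200 * X ≤ d * X := mul_le_mul_of_nonneg_right hd0 hX0
  have hkm : 200 * ((k : ℝ) * m) ≤ X := by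
    have h1 : (k : ℝ) * m ≤ S * m * k := by
      have h2 : 0 ≤ (k : ℝ) * m := mul_nonneg hk0 hm0
      have h3 : 1 * ((k : ℝ) * m) ≤ S * (k * m) := mul_le_mul_of_nonneg_right hS1 h2
      linarith
    linarith
  have b1 : S * (2 * d * k * (2 * m + 1)) ≤ 9 / 400 * (d * X) := by
    have h1 : 2 * m + 1 ≤ 9 / 4 * m := by linarith
    have h2 : S * (2 * d * k * (2 * m + 1)) ≤ S * (2 * d * k * (9 / 4 * m)) := by
      apply mul_le_mul_of_nonneg_left _ (by linarith)
      exact mul_le_mul_of_nonneg_left h1 (mul_nonneg (by linarith) hk0)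
    have h3 : S * (2 * d * k * (9 / 4 * m)) = 9 / 400 * (d * (200 * (S * m * k))) := by ring
    rw [h3] at h2
    have h4 : (d : ℝ) * (200 * (S * m * k)) ≤ d * X := mul_le_mul_of_nonneg_left hkX (by linarith)
    linarith
  have b2 : S * X ≤ 1 / 200 * (d * X) := by
    have h1 : 200 * S * X ≤ d * X := mul_le_mul_of_nonneg_right hdR hX0
    linarith
  have b3 : S * (k * m) ≤ 1 / 1000 * (d * X) := by
    have h1 : S * (k * m) = S * m * k := by ring
    rw [h1]
    linarith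
  have b4 : (k : ℝ) * X ≤ 1 / 16 * (d * X) := by
    have h1 : 16 * (k : ℝ) * X ≤ d * X := mul_le_mul_of_nonneg_right hkR hX0
    linarith
  have b5 : d * (k * m) ≤ 1 / 200 * (d * X) := by
    have h2 : (k : ℝ) * m ≤ 1 / 200 * X := by linarith
    have := mul_le_mul_of_nonneg_left h2 (by linarith : (0 : ℝ) ≤ d)
    linarith
  have b6 : (k : ℝ) * m ≤ 1 / 1000 * (d * X) := by linarith
  have c1 : ((d : ℝ) - 1) * ∑ x ∈ L, h x ≤ (d - 1) * (2 * d * m) :=
    mul_le_mul_of_nonneg_left hsL (by linarith)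
  have c2 : (d : ℝ) * ∑ x ∈ K, h x ≤ d * (k * m) :=
    mul_le_mul_of_nonneg_left hsK (by linarith)
  have c3 : (0 : ℝ) ≤ d * m := mul_nonneg (by linarith) hm0
  push_cast at hQs hDL
  have expand : S * (2 * d * k * (2 * m + 1) + X + k * m) =
      S * (2 * d * k * (2 * m + 1)) + S * X + S * (k * m) := by ring
  rw [expand] at hcr
  have c4 : ((d : ℝ) - 1) * (2 * d * m) = 2 * d ^ 2 * m - 2 * (d * m) := by ring
  have c5 : (2 : ℝ) * d * (d * m) = 2 * d ^ 2 * m := by ring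
  rw [c4] at c1
  rw [c5] at hsLf
  push_cast at herr hDY
  have c6 : ((k : ℝ) - 1) * X = k * X - X := by ring
  rw [c6] at hen
  have c7 : (0 : ℝ) ≤ d * X := mul_nonneg (by linarith) hX0
  have c8 : 0.89 * (d : ℝ) * X = 89 / 100 * (d * X) := by ring
  rw [c8]
  linarith

end Pool.Agent.T6.H83.RM
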