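import Pool.Agent.T6.H83.RM.Abs2

/-!
# The number of points of large height
-/

set_option autoImplicit false
set_option linter.unusedSectionVars false
set_option linter.unusedVariables false

namespace Pool.Agent.T6.H83.RM

open Finset

variable {α ι : Type*} [DecidableEq α] [DecidableEq ι]
variable {A : Finset α} {f : α → α} {d J : ℕ} {W bad : Finset ι} {inf : ι}
  {E : ι → α → α → ℝ} {T : ι → α → ℝ} {h : α → ℝ}

lemma Sys.high_max (s : Sys A f d J W bad inf E T h) {m : ℝ} (hm : 4 ≤ m) {L : Finset α}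
    (hL : L ⊆ A) (hLc : L.card = 2 * d) (hL1 : ∀ x ∈ L, h x ≤ m)
    (hL2 : ∀ x ∈ L, h (f x) ≤ d * m) (hd : 200 * bad.card ≤ d)
    {R : ℝ} (hR : 200 * bad.card * m ≤ R) {x : α} (hx : x ∈ A) (hRx : R ≤ h x) :
    ∀ y ∈ A, h y ≤ 6 * d * m := by
  have hb1 : 1 ≤ bad.card := card_pos.2 ⟨inf, s.hinf⟩
  have hS1 : (1 : ℝ) ≤ bad.card := by exact_mod_cast hb1
  have hd200 : 200 ≤ d := by omega
  have hd0 : (200 : ℝ) ≤ d := by exact_mod_cast hd200
  obtain ⟨z, hz, hz1⟩ := exists_max_image A h ⟨x, hx⟩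
  have h1 := s.high_sum hm hL hLc hL1 hL2 hd (H := {z}) (by simpa using hz)
    (by rw [card_singleton]; omega) hR (by
      intro y hy
      rw [mem_singleton] at hy
      rw [hy]
      exact hRx.trans (hz1 x hx))
  rw [sum_singleton, sum_singleton] at h1
  have h2 := hz1 (f z) (s.hf z hz)
  have hzpos : 0 ≤ h z := by
    have := hz1 x hx
    have h3 : (0 : ℝ) ≤ 200 * bad.card * m := by positivity
    linarith
  have h4 : h z ≤ 6 * d * m := by
    by_contra h5
    push Not at h5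
    have h6 : (200 : ℝ) * h z ≤ d * h z := mul_le_mul_of_nonneg_right hd0 hzpos
    have h7 : (d : ℝ) * (6 * d * m) ≤ d * h z := mul_le_mul_of_nonneg_left h5.le (by linarith)
    have h8 : (0 : ℝ) < (d : ℝ) ^ 2 * m := by positivity
    have h9 : (d : ℝ) * (6 * d * m) = 6 * ((d : ℝ) ^ 2 * m) := by ring
    have h10 : 0.89 * (d : ℝ) * h z = 89 / 100 * (d * h z) := by ring
    rw [h10] at h1
    rw [h9] at h7
    linarith
  exact fun y hy => (hz1 y hy).trans h4

lemma Sys.high_count (s : Sys A f d J W bad inf E T h) {m : ℝ} (hm : 4 ≤ m) {L : Finset α}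
    (hL : L ⊆ A) (hLc : L.card = 2 * d) (hL1 : ∀ x ∈ L, h x ≤ m)
    (hL2 : ∀ x ∈ L, h (f x) ≤ d * m) (hd : 200 * bad.card ≤ d)
    {R : ℝ} (hR : 200 * bad.card * m ≤ R) :
    ((A.filter (fun x => R ≤ h x)).card : ℝ) * R ≤ 7 * d * m := by
  classical
  have hb1 : 1 ≤ bad.card := card_pos.2 ⟨inf, s.hinf⟩
  have hS1 : (1 : ℝ) ≤ bad.card := by exact_mod_cast hb1
  have hd200 : 200 ≤ d := by omega
  have hd0 : (200 : ℝ) ≤ d := by exact_mod_cast hd200
  have hRm : 200 * m ≤ R := by nlinarith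
  have hR0 : 0 ≤ R := by linarith
  set G := A.filter (fun x => R ≤ h x) with hG
  have hGm : ∀ x ∈ G, x ∈ A ∧ R ≤ h x := fun x hx => mem_filter.1 hx
  rcases G.eq_empty_or_nonempty with h0 | ⟨x, hx⟩
  · rw [h0, card_empty]
    have : (0 : ℝ) ≤ 7 * d * m := by positivity
    simpa using this
  have hmax := s.high_max hm hL hLc hL1 hL2 hd hR (hGm x hx).1 (hGm x hx).2
  have key : ∀ H ⊆ G, 16 * H.card ≤ d → (H.card : ℝ) * R ≤ 7 * d * m := by
    intro H hH hHc
    have h1 := s.high_sum hm hL hLc hL1 hL2 hd (H := H) (fun y hy => (hGm y (hH hy)).1) hHc hR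
      (fun y hy => (hGm y (hH hy)).2)
    have h2 : ∑ y ∈ H, h (f y) ≤ H.card * (6 * d * m) := by
      have := sum_le_card_nsmul H (fun y => h (f y)) (6 * d * m)
        (fun y hy => hmax _ (s.hf y (hGm y (hH hy)).1))
      rwa [nsmul_eq_mul] at this
    have h3 : (H.card : ℝ) * R ≤ ∑ y ∈ H, h y := by
      have := card_nsmul_le_sum H h R (fun y hy => (hGm y (hH hy)).2)
      rwa [nsmul_eq_mul] at this
    have h4 : (16 : ℝ) * H.card ≤ d := by exact_mod_cast hHc
    have h5 : (H.card : ℝ) * (6 * d * m) ≤ 6 / 16 * ((d : ℝ) ^ 2 * m) := by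
      have h6 : (0 : ℝ) ≤ 6 * d * m := by positivity
      have h7 : (16 : ℝ) * H.card * (6 * d * m) ≤ d * (6 * d * m) :=
        mul_le_mul_of_nonneg_right h4 h6
      have h8 : (d : ℝ) * (6 * d * m) = 6 * ((d : ℝ) ^ 2 * m) := by ring
      linarith
    have h6 : (d : ℝ) * (H.card * R) ≤ d * ∑ y ∈ H, h y :=
      mul_le_mul_of_nonneg_left h3 (by linarith)
    have h7 : 0.89 * (d : ℝ) * ∑ y ∈ H, h y = 89 / 100 * (d * ∑ y ∈ H, h y) := by ring
    rw [h7] at h1
    by_contra h8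
    push Not at h8
    have h9 : (d : ℝ) * (7 * d * m) ≤ d * (H.card * R) :=
      mul_le_mul_of_nonneg_left h8.le (by linarith)
    have h10 : (d : ℝ) * (7 * d * m) = 7 * ((d : ℝ) ^ 2 * m) := by ring
    have h11 : (0 : ℝ) < (d : ℝ) ^ 2 * m := by positivity
    rw [h10] at h9
    linarith
  by_cases hc : 16 * G.card ≤ d
  · exact key G Subset.rfl hc
  · exfalso
    push Not at hc
    obtain ⟨H, hH, hHc⟩ := exists_subset_card_eq (by omega : d / 16 ≤ G.card)
    have h1 := key H hH (by rw [hHc]; omega)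
    have h2 : (d : ℝ) / 20 ≤ H.card := by
      have h3 : d ≤ 20 * H.card := by rw [hHc]; omega
      have : (d : ℝ) ≤ 20 * H.card := by exact_mod_cast h3
      linarith
    have h3 : (d : ℝ) / 20 * (200 * m) ≤ H.card * R := by
      apply mul_le_mul h2 hRm (by positivity) (by positivity)
    have h4 : (0 : ℝ) < d * m := by positivity
    nlinarith

end Pool.Agent.T6.H83.RM
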