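import Pool.Agent.T6.H83.RM.Abs3

/-!
# The sum of the heights over a set of points near each other
-/

set_option autoImplicit false
set_option linter.unusedSectionVars false
set_option linter.unusedVariables false

namespace Pool.Agent.T6.H83.RM

open Finset

variable {α ι : Type*} [DecidableEq α] [DecidableEq ι]
variable {A : Finset α} {f : α → α} {d J : ℕ} {W bad : Finset ι} {inf : ι}
  {E : ι → α → α → ℝ} {T : ι → α → ℝ} {h : α → ℝ}

/-- two disjoint sets can be enlarged to disjoint sets of the given size -/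
lemma extend2 {P B₁ B₂ : Finset α} {ν : ℕ} (h1 : B₁ ⊆ P) (h2 : B₂ ⊆ P) (hd : Disjoint B₁ B₂)
    (c1 : B₁.card ≤ ν) (c2 : B₂.card ≤ ν) (hP : 2 * ν ≤ P.card) :
    ∃ Y₁ Y₂ : Finset α, B₁ ⊆ Y₁ ∧ B₂ ⊆ Y₂ ∧ Y₁ ⊆ P ∧ Y₂ ⊆ P ∧ Disjoint Y₁ Y₂ ∧
      Y₁.card = ν ∧ Y₂.card = ν := by
  have h3 : B₁ ⊆ P \ B₂ := fun x hx => mem_sdiff.2 ⟨h1 hx, disjoint_left.1 hd hx⟩
  have h4 : ν ≤ (P \ B₂).card := by
    rw [card_sdiff_of_subset h2]
    omega
  obtain ⟨Y₁, hY1, hY2, hY3⟩ := exists_subsuperset_card_eq h3 c1 h4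
  have h5 : B₂ ⊆ P \ Y₁ := fun x hx => mem_sdiff.2 ⟨h2 hx, fun h0 =>
    (mem_sdiff.1 (hY2 h0)).2 hx⟩
  have hYP : Y₁ ⊆ P := hY2.trans sdiff_subset
  have h6 : ν ≤ (P \ Y₁).card := by
    rw [card_sdiff_of_subset hYP]
    omega
  obtain ⟨Y₂, hZ1, hZ2, hZ3⟩ := exists_subsuperset_card_eq h5 c2 h6
  refine ⟨Y₁, Y₂, hY1, hZ1, hYP, hZ2.trans sdiff_subset, ?_, hY3, hZ3⟩
  rw [disjoint_right]
  exact fun x hx => (mem_sdiff.1 (hZ2 hx)).2

/-- the identity for the defects -/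
lemma Df_identity (E : ι → α → α → ℝ) (T : ι → α → ℝ) (j : ℕ) (lam : ι → ℝ) (w : ι)
    (hs : ∀ x y, E w x y = E w y x) {Y₁ Y₂ Z₁ Z₂ : Finset α} (h1 : Disjoint Y₁ Y₂)
    (h2 : Disjoint Z₁ Z₂) (h3 : Disjoint Y₁ Z₁) (h4 : Disjoint Y₁ Z₂) (h5 : Disjoint Y₂ Z₁)
    (h6 : Disjoint Y₂ Z₂) :
    cr (E w) Y₁ Y₂ + cr (E w) Z₁ Z₂ =
      Df E T j lam w (Y₁ ∪ Y₂) + Df E T j lam w (Z₁ ∪ Z₂) -
        (Df E T j lam w (Y₁ ∪ Z₁) + Df E T j lam w (Y₁ ∪ Z₂) + Df E T j lam w (Y₂ ∪ Z₁) +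
          Df E T j lam w (Y₂ ∪ Z₂)) / 2 +
        (cr (E w) Y₁ Z₁ + cr (E w) Y₁ Z₂ + cr (E w) Y₂ Z₁ + cr (E w) Y₂ Z₂) / 2 := by
  unfold Df
  rw [en_union _ hs h1, en_union _ hs h2, en_union _ hs h3, en_union _ hs h4, en_union _ hs h5,
    en_union _ hs h6, sum_union h1, sum_union h2, sum_union h3, sum_union h4, sum_union h5,
    sum_union h6]
  ring

/-- the data of one set is at most the total -/
lemma Sys.one_le (s : Sys A f d J W bad inf E T h) {j : ℕ} {lam : ι → ℝ}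
    (D : Dets A d j W bad inf E T lam) {B : Finset α} (hB : B ⊆ A) (hc : B.card = (j + 1) * d)
    {Q : ℝ} (hQ : ((d : ℝ) - 1) * ∑ x ∈ B, h x + j * ∑ x ∈ B, h (f x) ≤ Q) {w : ι}
    (hw : w ∈ bad) : Df E T j lam w B ≤ Q + Real.log (((j + 1) * d).factorial) := by
  have h1 := s.sum_bad_le D hB hc
  have h2 : ∑ v ∈ bad, Df E T j lam v B =
      Df E T j lam w B + ∑ v ∈ bad.erase w, Df E T j lam v B := (add_sum_erase bad _ hw).symm
  have h3 : -Real.log (((j + 1) * d).factorial) ≤ ∑ v ∈ bad.erase w, Df E T j lam v B := by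
    have h0 := log_factorial_nonneg ((j + 1) * d)
    by_cases hwi : w = inf
    · refine le_trans (by linarith) (sum_nonneg fun v hv => ?_)
      rw [mem_erase] at hv
      exact D.nonarch B hB hc v hv.2 (hwi ▸ hv.1)
    · have h4 : inf ∈ bad.erase w := mem_erase.2 ⟨Ne.symm hwi, s.hinf⟩
      rw [← add_sum_erase _ _ h4]
      have h5 : 0 ≤ ∑ v ∈ (bad.erase w).erase inf, Df E T j lam v B :=
        sum_nonneg fun v hv => by
          rw [mem_erase, mem_erase] at hv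
          exact D.nonarch B hB hc v hv.2.2 hv.1
      have h6 := D.arch B hB hc
      linarith
  linarith

/-- the bound at a bad prime with a splitting -/
lemma Sys.cross_nonarch (s : Sys A f d J W bad inf E T h) {j : ℕ} {lam : ι → ℝ}
    (D : Dets A d j W bad inf E T lam) {ν : ℕ} (hν : 2 * ν = (j + 1) * d) {Q : ℝ}
    {P P' : Finset α} (hP : P ⊆ A) (hP' : P' ⊆ A) (hPd : Disjoint P P') (hPc : 2 * ν ≤ P.card)
    (hPc' : 2 * ν ≤ P'.card)
    (hQ : ∀ B ⊆ P ∪ P', B.card = (j + 1) * d →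
      ((d : ℝ) - 1) * ∑ x ∈ B, h x + j * ∑ x ∈ B, h (f x) ≤ Q)
    {w : ι} (hw : w ∈ bad) (hwi : w ≠ inf) (h0 : ∀ x ∈ P, ∀ y ∈ P', E w x y = 0)
    {B₁ B₂ : Finset α} (hB1 : B₁ ⊆ P ∪ P') (hB2 : B₂ ⊆ P ∪ P') (hBd : Disjoint B₁ B₂)
    (hc1 : B₁.card = ν) (hc2 : B₂.card = ν) :
    cr (E w) B₁ B₂ ≤ 2 * (Q + Real.log (((j + 1) * d).factorial)) := by
  have hwW := s.hbad hw
  have hi1 : ∀ B : Finset α, B ∩ P ⊆ P := fun B => inter_subset_right
  have hi2 : ∀ B : Finset α, B ∩ P' ⊆ P' := fun B => inter_subset_right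
  have hdec : ∀ B ⊆ P ∪ P', B = (B ∩ P) ∪ (B ∩ P') := by
    intro B hB
    rw [← inter_union_distrib_left, inter_eq_left.2 hB]
  obtain ⟨Y₁, Y₂, y1, y2, y3, y4, y5, y6, y7⟩ := extend2 (hi1 B₁) (hi1 B₂)
    (disjoint_of_subset_left inter_subset_left (disjoint_of_subset_right inter_subset_left hBd))
    ((card_le_card inter_subset_left).trans hc1.le)
    ((card_le_card inter_subset_left).trans hc2.le) hPc
  obtain ⟨Z₁, Z₂, z1, z2, z3, z4, z5, z6, z7⟩ := extend2 (hi2 B₁) (hi2 B₂)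
    (disjoint_of_subset_left inter_subset_left (disjoint_of_subset_right inter_subset_left hBd))
    ((card_le_card inter_subset_left).trans hc1.le)
    ((card_le_card inter_subset_left).trans hc2.le) hPc'
  have d1 : Disjoint Y₁ Z₁ := disjoint_of_subset_left y3 (disjoint_of_subset_right z3 hPd)
  have d2 : Disjoint Y₁ Z₂ := disjoint_of_subset_left y3 (disjoint_of_subset_right z4 hPd)
  have d3 : Disjoint Y₂ Z₁ := disjoint_of_subset_left y4 (disjoint_of_subset_right z3 hPd)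
  have d4 : Disjoint Y₂ Z₂ := disjoint_of_subset_left y4 (disjoint_of_subset_right z4 hPd)
  have hid := Df_identity E T j lam w (s.symm w) y5 z5 d1 d2 d3 d4
  have hz : ∀ Y Z : Finset α, Y ⊆ P → Z ⊆ P' → cr (E w) Y Z = 0 := by
    intro Y Z hY hZ
    exact sum_eq_zero fun x hx => sum_eq_zero fun y hy => h0 x (hY hx) y (hZ hy)
  have hcard : ∀ Y Z : Finset α, Disjoint Y Z → Y.card = ν → Z.card = ν →
      (Y ∪ Z).card = (j + 1) * d := by
    intro Y Z hd hY hZ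
    rw [card_union_of_disjoint hd, hY, hZ, ← hν]
    ring
  rw [hz Y₁ Z₁ y3 z3, hz Y₁ Z₂ y3 z4, hz Y₂ Z₁ y4 z3, hz Y₂ Z₂ y4 z4] at hid
  have hPP : P ∪ P' ⊆ A := union_subset hP hP'
  have n1 := D.nonarch (Y₁ ∪ Z₁) (union_subset (y3.trans hP) (z3.trans hP'))
    (hcard _ _ d1 y6 z6) w hw hwi
  have n2 := D.nonarch (Y₁ ∪ Z₂) (union_subset (y3.trans hP) (z4.trans hP'))
    (hcard _ _ d2 y6 z7) w hw hwi
  have n3 := D.nonarch (Y₂ ∪ Z₁) (union_subset (y4.trans hP) (z3.trans hP'))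
    (hcard _ _ d3 y7 z6) w hw hwi
  have n4 := D.nonarch (Y₂ ∪ Z₂) (union_subset (y4.trans hP) (z4.trans hP'))
    (hcard _ _ d4 y7 z7) w hw hwi
  have u1 := s.one_le D (union_subset (y3.trans hP) (y4.trans hP)) (hcard _ _ y5 y6 y7)
    (hQ (Y₁ ∪ Y₂) (union_subset (y3.trans subset_union_left) (y4.trans subset_union_left))
      (hcard _ _ y5 y6 y7)) hw
  have u2 := s.one_le D (union_subset (z3.trans hP') (z4.trans hP')) (hcard _ _ z5 z6 z7)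
    (hQ (Z₁ ∪ Z₂) (union_subset (z3.trans subset_union_right) (z4.trans subset_union_right))
      (hcard _ _ z5 z6 z7)) hw
  -- the cross sum of the given sets
  have hsp : cr (E w) B₁ B₂ = cr (E w) (B₁ ∩ P) (B₂ ∩ P) + cr (E w) (B₁ ∩ P') (B₂ ∩ P') := by
    have e1 : Disjoint (B₁ ∩ P) (B₁ ∩ P') :=
      disjoint_of_subset_left inter_subset_right (disjoint_of_subset_right inter_subset_right hPd)
    have e2 : Disjoint (B₂ ∩ P) (B₂ ∩ P') :=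
      disjoint_of_subset_left inter_subset_right (disjoint_of_subset_right inter_subset_right hPd)
    conv_lhs => rw [hdec B₁ hB1, hdec B₂ hB2]
    rw [cr_union_left _ e1, cr_union_right _ e2, cr_union_right _ e2,
      hz _ _ (hi1 B₁) (hi2 B₂)]
    have h7 : cr (E w) (B₁ ∩ P') (B₂ ∩ P) = 0 := by
      refine sum_eq_zero fun x hx => sum_eq_zero fun y hy => ?_
      rw [s.symm w x y]
      exact h0 y (hi1 B₂ hy) x (hi2 B₁ hx)
    rw [h7]
    ring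
  have m1 : cr (E w) (B₁ ∩ P) (B₂ ∩ P) ≤ cr (E w) Y₁ Y₂ :=
    cr_mono _ y1 y2 fun x hx y hy => s.nonneg w hwW x (hP (y3 hx)) y (hP (y4 hy))
      fun h8 => disjoint_left.1 y5 hx (h8 ▸ hy)
  have m2 : cr (E w) (B₁ ∩ P') (B₂ ∩ P') ≤ cr (E w) Z₁ Z₂ :=
    cr_mono _ z1 z2 fun x hx y hy => s.nonneg w hwW x (hP' (z3 hx)) y (hP' (z4 hy))
      fun h8 => disjoint_left.1 z5 hx (h8 ▸ hy)
  rw [hsp]
  linarith

/-- the bound at the archimedean place -/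
lemma Sys.cross_arch (s : Sys A f d J W bad inf E T h) {j : ℕ} {lam : ι → ℝ}
    (D : Dets A d j W bad inf E T lam) {ν : ℕ} (hν : 2 * ν = (j + 1) * d) {Q : ℝ}
    {P P' : Finset α} (hP : P ⊆ A) (hP' : P' ⊆ A) (hPd : Disjoint P P')
    (hPc' : 2 * ν ≤ P'.card)
    (hQ : ∀ B ⊆ P ∪ P', B.card = (j + 1) * d →
      ((d : ℝ) - 1) * ∑ x ∈ B, h x + j * ∑ x ∈ B, h (f x) ≤ Q)
    {c : ℝ} (h0 : ∀ x ∈ P, ∀ y ∈ P', E inf x y ≤ c)
    {B₁ B₂ : Finset α} (hB1 : B₁ ⊆ P) (hB2 : B₂ ⊆ P) (hBd : Disjoint B₁ B₂)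
    (hc1 : B₁.card = ν) (hc2 : B₂.card = ν) :
    cr (E inf) B₁ B₂ ≤ 2 * Q + 4 * Real.log (((j + 1) * d).factorial) +
      2 * ((ν : ℝ) * ν * c) := by
  have hwW := s.hbad s.hinf
  obtain ⟨Z₁, Z₂, z1, z2, z3, z4, z5, z6, z7⟩ := extend2 (P := P') (B₁ := ∅) (B₂ := ∅) (ν := ν)
    (empty_subset _) (empty_subset _) (disjoint_empty_left _) (by simp) (by simp) hPc'
  have d1 : Disjoint B₁ Z₁ := disjoint_of_subset_left hB1 (disjoint_of_subset_right z3 hPd)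
  have d2 : Disjoint B₁ Z₂ := disjoint_of_subset_left hB1 (disjoint_of_subset_right z4 hPd)
  have d3 : Disjoint B₂ Z₁ := disjoint_of_subset_left hB2 (disjoint_of_subset_right z3 hPd)
  have d4 : Disjoint B₂ Z₂ := disjoint_of_subset_left hB2 (disjoint_of_subset_right z4 hPd)
  have hid := Df_identity E T j lam inf (s.symm inf) hBd z5 d1 d2 d3 d4
  have hcard : ∀ Y Z : Finset α, Disjoint Y Z → Y.card = ν → Z.card = ν →
      (Y ∪ Z).card = (j + 1) * d := by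
    intro Y Z hd hY hZ
    rw [card_union_of_disjoint hd, hY, hZ, ← hν]
    ring
  have n1 := D.arch (B₁ ∪ Z₁) (union_subset (hB1.trans hP) (z3.trans hP'))
    (hcard _ _ d1 hc1 z6)
  have n2 := D.arch (B₁ ∪ Z₂) (union_subset (hB1.trans hP) (z4.trans hP'))
    (hcard _ _ d2 hc1 z7)
  have n3 := D.arch (B₂ ∪ Z₁) (union_subset (hB2.trans hP) (z3.trans hP'))
    (hcard _ _ d3 hc2 z6)
  have n4 := D.arch (B₂ ∪ Z₂) (union_subset (hB2.trans hP) (z4.trans hP'))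
    (hcard _ _ d4 hc2 z7)
  have u1 := s.one_le D (union_subset (hB1.trans hP) (hB2.trans hP)) (hcard _ _ hBd hc1 hc2)
    (hQ (B₁ ∪ B₂) (union_subset (hB1.trans subset_union_left) (hB2.trans subset_union_left))
      (hcard _ _ hBd hc1 hc2)) s.hinf
  have u2 := s.one_le D (union_subset (z3.trans hP') (z4.trans hP')) (hcard _ _ z5 z6 z7)
    (hQ (Z₁ ∪ Z₂) (union_subset (z3.trans subset_union_right) (z4.trans subset_union_right))
      (hcard _ _ z5 z6 z7)) s.hinf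
  have t : ∀ Y Z : Finset α, Y ⊆ P → Z ⊆ P' → Y.card = ν → Z.card = ν →
      cr (E inf) Y Z ≤ ν * ν * c := by
    intro Y Z hY hZ h1 h2
    have := cr_le (E inf) (Y := Y) (Z := Z) (c := c) fun x hx y hy => h0 x (hY hx) y (hZ hy)
    rwa [h1, h2] at this
  have t1 := t B₁ Z₁ hB1 z3 hc1 z6
  have t2 := t B₁ Z₂ hB1 z4 hc1 z7
  have t3 := t B₂ Z₁ hB2 z3 hc2 z6
  have t4 := t B₂ Z₂ hB2 z4 hc2 z7
  have hZ0 : 0 ≤ cr (E inf) Z₁ Z₂ := cr_nonneg _ fun x hx y hy =>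
    s.nonneg inf hwW x (hP' (z3 hx)) y (hP' (z4 hy)) fun h8 => disjoint_left.1 z5 hx (h8 ▸ hy)
  linarith

/-- the sum of all places -/
lemma Sys.sum_heights (s : Sys A f d J W bad inf E T h) {j : ℕ} {lam : ι → ℝ}
    (D : Dets A d j W bad inf E T lam) {ν : ℕ} (hν : 2 * ν = (j + 1) * d) {Q : ℝ}
    {N F : Finset α} (hN : N ⊆ A) (hF : F ⊆ A) (hNF : Disjoint N F) (hFc : 2 * ν ≤ F.card)
    (hQ : ∀ B ⊆ N ∪ F, B.card = (j + 1) * d →
      ((d : ℝ) - 1) * ∑ x ∈ B, h x + j * ∑ x ∈ B, h (f x) ≤ Q)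
    (hsplit : ∀ w ∈ bad, w ≠ inf → ∃ P P' : Finset α, P ∪ P' = N ∧ Disjoint P P' ∧
      2 * ν ≤ P.card ∧ 2 * ν ≤ P'.card ∧ ∀ x ∈ P, ∀ y ∈ P', E w x y = 0)
    {c : ℝ} (h0 : ∀ x ∈ N, ∀ y ∈ F, E inf x y ≤ c)
    {B₁ B₂ : Finset α} (hB1 : B₁ ⊆ N) (hB2 : B₂ ⊆ N) (hBd : Disjoint B₁ B₂)
    (hc1 : B₁.card = ν) (hc2 : B₂.card = ν) :
    ν * ∑ x ∈ B₁ ∪ B₂, h x ≤ (2 * bad.card + 1) * Q +
      (2 * bad.card + 3) * Real.log (((j + 1) * d).factorial) + 2 * ((ν : ℝ) * ν * c) := by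
  classical
  set err := Real.log (((j + 1) * d).factorial) with herr
  have hBB : B₁ ∪ B₂ ⊆ N := union_subset hB1 hB2
  have hBA : B₁ ∪ B₂ ⊆ A := hBB.trans hN
  have hBc : (B₁ ∪ B₂).card = (j + 1) * d := by
    rw [card_union_of_disjoint hBd, hc1, hc2, ← hν]; ring
  have htot : ∑ w ∈ W, cr (E w) B₁ B₂ = ν * ∑ x ∈ B₁ ∪ B₂, h x := by
    rw [sum_cr]
    have h1 : cr (fun x y => ∑ w ∈ W, E w x y) B₁ B₂ = cr (fun x y => h x + h y) B₁ B₂ := by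
      refine sum_congr rfl fun x hx => sum_congr rfl fun y hy => ?_
      exact s.sumE x (hN (hB1 hx)) y (hN (hB2 hy)) fun h8 => disjoint_left.1 hBd hx (h8 ▸ hy)
    rw [h1, sum_union hBd]
    unfold cr
    have h2 : ∀ x ∈ B₁, ∑ y ∈ B₂, (h x + h y) = ν * h x + ∑ y ∈ B₂, h y := by
      intro x _
      rw [sum_add_distrib, sum_const, hc2, nsmul_eq_mul]
    rw [sum_congr rfl h2, sum_add_distrib, ← mul_sum, sum_const, hc1, nsmul_eq_mul]
    ring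
  rw [← htot, ← sum_sdiff s.hbad]
  -- the good places
  have hg : ∑ w ∈ W \ bad, cr (E w) B₁ B₂ ≤ Q + err := by
    have h1 : ∀ w ∈ W \ bad, cr (E w) B₁ B₂ ≤ Df E T j lam w (B₁ ∪ B₂) := by
      intro w hw
      rw [mem_sdiff] at hw
      have h2 := D.good _ hBA hBc w hw.1 hw.2
      rw [en_union _ (s.symm w) hBd] at h2
      have h3 := s.en_nonneg' (hB1.trans hN) hw.1
      have h4 := s.en_nonneg' (hB2.trans hN) hw.1
      linarith
    have h2 := sum_le_sum h1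
    have h3 := s.sum_defect D.sumlam hBA hBc
    rw [← sum_sdiff s.hbad] at h3
    have h4 := s.sum_bad_ge D hBA hBc
    have h5 := hQ _ (hBB.trans subset_union_left) hBc
    linarith
  rw [← add_sum_erase bad _ s.hinf]
  have hi := s.cross_arch D hν hN hF hNF hFc hQ h0 hB1 hB2 hBd hc1 hc2
  have hb : ∀ w ∈ bad.erase inf, cr (E w) B₁ B₂ ≤ 2 * (Q + err) := by
    intro w hw
    rw [mem_erase] at hw
    obtain ⟨P, P', h1, h2, h3, h4, h5⟩ := hsplit w hw.2 hw.1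
    have h6 : P ⊆ A := (h1 ▸ subset_union_left : P ⊆ N).trans hN
    have h7 : P' ⊆ A := (h1 ▸ subset_union_right : P' ⊆ N).trans hN
    exact s.cross_nonarch D hν h6 h7 h2 h3 h4
      (fun B hB hc => hQ B ((h1 ▸ hB : B ⊆ N).trans subset_union_left) hc) hw.2 hw.1 h5
      (h1 ▸ hB1) (h1 ▸ hB2) hBd hc1 hc2
  have hbs := sum_le_card_nsmul _ _ _ hb
  rw [nsmul_eq_mul, card_erase_of_mem s.hinf, Nat.cast_sub (card_pos.2 ⟨inf, s.hinf⟩)] at hbs
  push_cast at hbs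
  have : ((bad.card : ℝ) - 1) * (2 * (Q + err)) = 2 * bad.card * Q + 2 * bad.card * err -
    2 * Q - 2 * err := by ring
  rw [this] at hbs
  rw [← herr] at hi
  linarith

end Pool.Agent.T6.H83.RM
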