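import Pool.Agent.T6.H83.RM.Abs4

/-!
# The halving step and the bound for the number of points
-/

set_option autoImplicit false
set_option linter.unusedSectionVars false
set_option linter.unusedVariables false

namespace Pool.Agent.T6.H83.RM

open Finset

variable {α ι : Type*} [DecidableEq α] [DecidableEq ι]
variable {A : Finset α} {f : α → α} {d J : ℕ} {W bad : Finset ι} {inf : ι}
  {E : ι → α → α → ℝ} {T : ι → α → ℝ} {h : α → ℝ}

lemma log_le_two_sqrt {x : ℝ} (hx : 0 < x) : Real.log x ≤ 2 * Real.sqrt x := by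
  have h1 : 0 < Real.sqrt x := Real.sqrt_pos.2 hx
  have h2 := Real.log_le_sub_one_of_pos h1
  rw [Real.log_sqrt hx.le] at h2
  linarith

/-- the number of points where the height of the image is large -/
lemma Sys.image_count (s : Sys A f d J W bad inf E T h) {m : ℝ} (hm : 4 ≤ m) {L : Finset α}
    (hL : L ⊆ A) (hLc : L.card = 2 * d) (hL1 : ∀ x ∈ L, h x ≤ m)
    (hL2 : ∀ x ∈ L, h (f x) ≤ d * m) (hd : 200 * bad.card ≤ d)
    {R : ℝ} (hR : 200 * bad.card * m ≤ R) {c : ℝ} (hc : 7 * d * m ≤ c * R) :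
    ((A.filter (fun x => R ≤ h (f x))).card : ℝ) ≤ d * c := by
  have h1 := s.high_count hm hL hLc hL1 hL2 hd hR
  have h2 := s.card_preimage (fun x => R ≤ h x)
  have hb1 : 1 ≤ bad.card := card_pos.2 ⟨inf, s.hinf⟩
  have hS1 : (1 : ℝ) ≤ bad.card := by exact_mod_cast hb1
  have hR0 : 0 < R := by
    have : (0 : ℝ) < 200 * bad.card * m := by positivity
    linarith
  have h3 : ((A.filter (fun x => R ≤ h x)).card : ℝ) ≤ c := by
    by_contra h4
    push Not at h4
    have := mul_lt_mul_of_pos_right h4 hR0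
    linarith
  have h4 : ((A.filter (fun x => R ≤ h (f x))).card : ℝ) ≤
      d * ((A.filter (fun x => R ≤ h x)).card : ℝ) := by exact_mod_cast h2
  exact h4.trans (mul_le_mul_of_nonneg_left h3 (Nat.cast_nonneg _))

/-- the halving step -/
lemma Sys.step (s : Sys A f d J W bad inf E T h) (hJ : J + 1 = 12000 * bad.card ^ 2)
    (hd : 4800000 * bad.card ^ 3 ≤ d) {N F : Finset α} (hN : N ⊆ A) (hF : F ⊆ A)
    (hNF : Disjoint N F)
    (hsplit : ∀ w ∈ bad, w ≠ inf → ∃ P P' : Finset α, P ∪ P' = N ∧ Disjoint P P' ∧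
      N.card ≤ 4 * P.card ∧ N.card ≤ 4 * P'.card ∧ ∀ x ∈ P, ∀ y ∈ P', E w x y = 0)
    (h0 : ∀ x ∈ N, ∀ y ∈ F, E inf x y ≤ 3) {n₁ : ℕ} (hn1 : 2 * d ≤ n₁)
    (hNc : 16 * ((J + 1) * d) + n₁ ≤ N.card) (hFc : 2 * ((J + 1) * d) ≤ F.card)
    {m : ℝ} (hm : 12 ≤ m)
    (hPm : n₁ ≤ (A.filter (fun x => h x ≤ m ∧ h (f x) ≤ d * m / J)).card) :
    n₁ ≤ (A.filter (fun x => h x ≤ m / 2 ∧ h (f x) ≤ d * (m / 2) / J)).card := by
  classical
  have hb1 : 1 ≤ bad.card := card_pos.2 ⟨inf, s.hinf⟩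
  obtain ⟨S, hS⟩ : ∃ S : ℕ, S = bad.card := ⟨_, rfl⟩
  rw [← hS] at hJ hd hb1
  have hS2 : 1 ≤ S ^ 2 := Nat.one_le_pow _ _ hb1
  have hS3 : 1 ≤ S ^ 3 := Nat.one_le_pow _ _ hb1
  have hS23 : S * S ^ 2 = S ^ 3 := by ring
  have hSS : S ≤ S ^ 3 := by nlinarith
  have hJ1 : 11999 ≤ J := by omega
  have hd200 : 200 * S ≤ d := by omega
  have hdJ : 400 * S * J ≤ d := by nlinarith
  have hdJ' : J ≤ d := by nlinarith
  have hSR : (1 : ℝ) ≤ S := by exact_mod_cast hb1
  have hJR : (11999 : ℝ) ≤ J := by exact_mod_cast hJ1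
  have hdJR : 400 * (S : ℝ) * J ≤ d := by exact_mod_cast hdJ
  have hdJR' : (J : ℝ) ≤ d := by exact_mod_cast hdJ'
  have hdR : (11999 : ℝ) ≤ d := by linarith
  have hbS : (bad.card : ℝ) = S := by rw [hS]
  have hJpos : (0 : ℝ) < J := by linarith
  have hm0 : (0 : ℝ) < m := by linarith
  -- the low set
  obtain ⟨L, hL, hLc⟩ := exists_subset_card_eq (hn1.trans hPm)
  have hLm : ∀ x ∈ L, x ∈ A ∧ h x ≤ m ∧ h (f x) ≤ d * m / J := fun x hx => by
    have := hL hx
    rwa [mem_filter] at this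
  have hLA : L ⊆ A := fun x hx => (hLm x hx).1
  have hL1 : ∀ x ∈ L, h x ≤ m := fun x hx => (hLm x hx).2.1
  have hL2 : ∀ x ∈ L, h (f x) ≤ d * m := fun x hx => by
    refine (hLm x hx).2.2.trans ?_
    rw [div_le_iff₀ hJpos]
    have : (0 : ℝ) ≤ d * m := by positivity
    nlinarith
  have hd200' : 200 * bad.card ≤ d := by rw [← hS]; exact hd200
  -- the set of moderate points
  set M : ℝ := 200 * S * m with hM
  have hM0 : 0 < M := by positivity
  set A' : Finset α := A.filter (fun x => h x ≤ M ∧ h (f x) ≤ d * M / J) with hA'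
  have hA'A : A' ⊆ A := filter_subset _ _
  have cnt1 : ((A.filter (fun x => M ≤ h x)).card : ℝ) ≤ d := by
    have h1 := s.high_count (by linarith : 4 ≤ m) hLA hLc hL1 hL2 hd200' (R := M)
      (by rw [hbS])
    by_contra h2
    push Not at h2
    have h3 := mul_lt_mul_of_pos_right h2 hM0
    have h4 : (d : ℝ) * M = 200 * S * (d * m) := by rw [hM]; ring
    have h5 : (0 : ℝ) < d * m := by positivity
    have h6 : 200 * (d * m) ≤ 200 * S * (d * m) := by
      apply mul_le_mul_of_nonneg_right _ h5.le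
      linarith
    linarith
  have cnt2 : ((A.filter (fun x => d * M / J ≤ h (f x))).card : ℝ) ≤ d * (J / 20) := by
    refine s.image_count (by linarith : 4 ≤ m) hLA hLc hL1 hL2 hd200' ?_ ?_
    · rw [hbS, le_div_iff₀ hJpos]
      have : M * J ≤ M * d := mul_le_mul_of_nonneg_left hdJR' hM0.le
      linarith
    · have h1 : (J : ℝ) / 20 * (d * M / J) = d * M / 20 := by field_simp
      rw [h1, hM]
      have h5 : (0 : ℝ) < d * m := by positivity
      have h6 : 200 * (d * m) ≤ 200 * S * (d * m) := by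
        apply mul_le_mul_of_nonneg_right _ h5.le
        linarith
      linarith
  have cnt3 : ((A.filter (fun x => d * (m / 2) / J ≤ h (f x))).card : ℝ) ≤ d * (14 * J) := by
    refine s.image_count (by linarith : 4 ≤ m) hLA hLc hL1 hL2 hd200' ?_ ?_
    · rw [hbS, le_div_iff₀ hJpos]
      have : 400 * (S : ℝ) * J * m ≤ d * m := mul_le_mul_of_nonneg_right hdJR hm0.le
      linarith
    · have h1 : (14 : ℝ) * J * (d * (m / 2) / J) = 7 * d * m := by field_simp; ring
      rw [h1]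
  have hAA : (A \ A').card ≤ (J + 1) * d := by
    have h1 : A \ A' ⊆ A.filter (fun x => M ≤ h x) ∪ A.filter (fun x => d * M / J ≤ h (f x)) := by
      intro x hx
      rw [mem_sdiff, hA', mem_filter] at hx
      rw [mem_union, mem_filter, mem_filter]
      by_cases h2 : h x ≤ M
      · right
        refine ⟨hx.1, ?_⟩
        by_contra h3
        push Not at h3
        exact hx.2 ⟨hx.1, h2, h3.le⟩
      · left
        push Not at h2
        exact ⟨hx.1, h2.le⟩
    have h2 := (card_le_card h1).trans (card_union_le _ _)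
    have h3 : ((A \ A').card : ℝ) ≤ d + d * (J / 20) := by
      have : ((A \ A').card : ℝ) ≤ ((A.filter (fun x => M ≤ h x)).card : ℝ) +
          ((A.filter (fun x => d * M / J ≤ h (f x))).card : ℝ) := by exact_mod_cast h2
      linarith
    have h4 : (d : ℝ) + d * (J / 20) ≤ (J + 1) * d := by nlinarith
    exact_mod_cast h3.trans h4
  obtain ⟨n, hn⟩ : ∃ n : ℕ, n = (J + 1) * d := ⟨_, rfl⟩
  have hinter : ∀ B ⊆ A, B.card ≤ (B ∩ A').card + n := by
    intro B hB
    have h1 : B ⊆ (B ∩ A') ∪ (A \ A') := by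
      intro x hx
      by_cases h2 : x ∈ A'
      · exact mem_union_left _ (mem_inter.2 ⟨hx, h2⟩)
      · exact mem_union_right _ (mem_sdiff.2 ⟨hB hx, h2⟩)
    have h2 := (card_le_card h1).trans (card_union_le _ _)
    omega
  -- the halves
  obtain ⟨ν, hν⟩ : ∃ ν : ℕ, ν = 6000 * S ^ 2 * d := ⟨_, rfl⟩
  have hνn : 2 * ν = (J + 1) * d := by rw [hν, hJ]; ring
  obtain ⟨lam, D⟩ := s.dets (Or.inr rfl : J = 1 ∨ J = J)
  set Q : ℝ := 2 * d * (2 * ν) * M with hQdef
  have hQ : ∀ B ⊆ (N ∩ A') ∪ (F ∩ A'), B.card = (J + 1) * d →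
      ((d : ℝ) - 1) * ∑ x ∈ B, h x + J * ∑ x ∈ B, h (f x) ≤ Q := by
    intro B hB hBc
    have hBA : ∀ x ∈ B, h x ≤ M ∧ h (f x) ≤ d * M / J := by
      intro x hx
      have h1 := hB hx
      have h2 : x ∈ A' := by
        rcases mem_union.1 h1 with h1 | h1 <;> exact (mem_inter.1 h1).2
      rw [hA', mem_filter] at h2
      exact h2.2
    have h1 : ∑ x ∈ B, h x ≤ (2 * ν) * M := by
      have := sum_le_card_nsmul B h M (fun x hx => (hBA x hx).1)
      rw [hBc, ← hνn, nsmul_eq_mul] at this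
      push_cast at this
      exact this
    have h2 : ∑ x ∈ B, h (f x) ≤ (2 * ν) * (d * M / J) := by
      have := sum_le_card_nsmul B (fun x => h (f x)) (d * M / J) (fun x hx => (hBA x hx).2)
      rw [hBc, ← hνn, nsmul_eq_mul] at this
      push_cast at this
      exact this
    have h3 : ((d : ℝ) - 1) * ∑ x ∈ B, h x ≤ (d - 1) * (2 * ν * M) :=
      mul_le_mul_of_nonneg_left h1 (by linarith)
    have h4 : (J : ℝ) * ∑ x ∈ B, h (f x) ≤ J * (2 * ν * (d * M / J)) :=
      mul_le_mul_of_nonneg_left h2 hJpos.le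
    have h5 : (J : ℝ) * (2 * ν * (d * M / J)) = 2 * ν * (d * M) := by field_simp
    have h6 : (0 : ℝ) ≤ 2 * ν * M := by positivity
    rw [hQdef]
    nlinarith
  have hsplit' : ∀ w ∈ bad, w ≠ inf → ∃ P P' : Finset α, P ∪ P' = N ∩ A' ∧ Disjoint P P' ∧
      2 * ν ≤ P.card ∧ 2 * ν ≤ P'.card ∧ ∀ x ∈ P, ∀ y ∈ P', E w x y = 0 := by
    intro w hw hwi
    obtain ⟨P, P', h1, h2, h3, h4, h5⟩ := hsplit w hw hwi
    have hPN : P ⊆ N := h1 ▸ subset_union_left
    have hPN' : P' ⊆ N := h1 ▸ subset_union_right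
    refine ⟨P ∩ A', P' ∩ A', ?_, ?_, ?_, ?_, ?_⟩
    · rw [← union_inter_distrib_right, h1]
    · exact disjoint_of_subset_left inter_subset_left (disjoint_of_subset_right inter_subset_left h2)
    · have := hinter P (hPN.trans hN)
      omega
    · have := hinter P' (hPN'.trans hN)
      omega
    · intro x hx y hy
      exact h5 x (mem_inter.1 hx).1 y (mem_inter.1 hy).1
  -- few points of `N ∩ A'` have height above `m / 2`
  have hfew : ((N ∩ A').filter (fun x => m / 2 < h x)).card < 2 * ν := by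
    by_contra hcon
    push Not at hcon
    obtain ⟨B, hB, hBc⟩ := exists_subset_card_eq hcon
    obtain ⟨B₁, hB1, hB1c⟩ := exists_subset_card_eq (by omega : ν ≤ B.card)
    have hB2c : (B \ B₁).card = ν := by
      rw [card_sdiff_of_subset hB1]
      omega
    have hBN : B ⊆ N ∩ A' := hB.trans (filter_subset _ _)
    have h1 := s.sum_heights D hνn (inter_subset_left.trans hN : N ∩ A' ⊆ A)
      (inter_subset_left.trans hF : F ∩ A' ⊆ A)
      (disjoint_of_subset_left inter_subset_left (disjoint_of_subset_right inter_subset_left hNF))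
      (by have := hinter F hF; omega) hQ hsplit' (c := 3)
      (fun x hx y hy => h0 x (mem_inter.1 hx).1 y (mem_inter.1 hy).1)
      (hB1.trans hBN) (sdiff_subset.trans hBN) disjoint_sdiff hB1c hB2c
    rw [union_sdiff_of_subset hB1] at h1
    have h2 : (2 * ν : ℝ) * (m / 2) ≤ ∑ x ∈ B, h x := by
      have := card_nsmul_le_sum B h (m / 2) (fun x hx => (mem_filter.1 (hB hx)).2.le)
      rw [hBc, nsmul_eq_mul] at this
      push_cast at this
      exact this
    rw [hbS] at h1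
    have hν0 : (0 : ℝ) ≤ ν := Nat.cast_nonneg _
    have h3 : (ν : ℝ) * ((2 * ν : ℝ) * (m / 2)) ≤ ν * ∑ x ∈ B, h x :=
      mul_le_mul_of_nonneg_left h2 hν0
    have hνR : (ν : ℝ) = 6000 * S ^ 2 * d := by rw [hν]; push_cast; ring
    -- the factorial
    have hn2 : ((J + 1) * d : ℕ) = 2 * ν := hνn.symm
    rw [hn2] at h1
    have herr := log_factorial_le (2 * ν)
    have hνpos : 0 < ν := by
      rw [hν]
      have : 0 < d := by omega
      positivity
    have hx0 : (0 : ℝ) < ((2 * ν : ℕ) : ℝ) := by exact_mod_cast (by omega : 0 < 2 * ν)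
    have hlog := log_le_two_sqrt hx0
    set r : ℝ := Real.sqrt ((2 * ν : ℕ) : ℝ) with hr
    have hrr : r * r = 2 * ν := by
      rw [hr, Real.mul_self_sqrt hx0.le]; push_cast; ring
    have hr0 : 0 ≤ r := Real.sqrt_nonneg _
    have hrS : 240000 * (S : ℝ) ≤ r := by
      rw [hr]
      apply Real.le_sqrt_of_sq_le
      push_cast
      rw [hνR]
      have hdS : 4800000 * (S : ℝ) ^ 3 ≤ d := by exact_mod_cast hd
      have hS3R : (1 : ℝ) ≤ (S : ℝ) ^ 3 := one_le_pow₀ hSR
      have hS2R : (0 : ℝ) ≤ (S : ℝ) ^ 2 := by positivity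
      nlinarith
    have herr2 : Real.log ((2 * ν).factorial) ≤ 4 * ν * r := by
      push_cast at herr hlog
      have : (2 * ν : ℝ) * Real.log (2 * ν) ≤ (2 * ν) * (2 * r) :=
        mul_le_mul_of_nonneg_left hlog (by positivity)
      linarith
    have herr0 := log_factorial_nonneg (2 * ν)
    have t1 : (2 * (S : ℝ) + 3) * Real.log ((2 * ν).factorial) ≤ (ν : ℝ) ^ 2 / 6000 := by
      have h4 : (2 * (S : ℝ) + 3) ≤ 5 * S := by linarith
      have h5 : (2 * (S : ℝ) + 3) * Real.log ((2 * ν).factorial) ≤ 5 * S * (4 * ν * r) := by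
        apply mul_le_mul h4 herr2 herr0 (by positivity)
      have h6 : 240000 * ((S : ℝ) * (4 * ν * r)) ≤ r * (4 * ν * r) := by
        have : 240000 * (S : ℝ) * (4 * ν * r) ≤ r * (4 * ν * r) :=
          mul_le_mul_of_nonneg_right hrS (by positivity)
        linarith
      have h7 : r * (4 * ν * r) = 8 * (ν : ℝ) ^ 2 := by
        have : r * (4 * ν * r) = 4 * ν * (r * r) := by ring
        rw [this, hrr]; ring
      rw [h7] at h6
      linarith
    have t2 : (2 * (S : ℝ) + 1) * Q ≤ 2 / 5 * ((ν : ℝ) ^ 2 * m) := by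
      have h4 : (2 * (S : ℝ) + 1) ≤ 3 * S := by linarith
      have hQ0 : 0 ≤ Q := by positivity
      have h5 : (2 * (S : ℝ) + 1) * Q ≤ 3 * S * Q := mul_le_mul_of_nonneg_right h4 hQ0
      have h6 : 3 * (S : ℝ) * Q = 2 / 5 * (6000 * S ^ 2 * d * ν * m) := by
        rw [hQdef, hM]; ring
      rw [h6, ← hνR] at h5
      have h7 : (ν : ℝ) * ν * m = ν ^ 2 * m := by ring
      rw [h7] at h5
      exact h5
    have hν2 : (0 : ℝ) < (ν : ℝ) ^ 2 := by positivity
    have t3 : 12 * (ν : ℝ) ^ 2 ≤ ν ^ 2 * m := by nlinarith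
    have t4 : (ν : ℝ) * (2 * ν * (m / 2)) = ν ^ 2 * m := by ring
    rw [t4] at h3
    have t5 : 2 * ((ν : ℝ) * ν * 3) = 6 * ν ^ 2 := by ring
    rw [t5] at h1
    linarith
  -- conclusion
  have hcov : N ⊆ A.filter (fun x => h x ≤ m / 2 ∧ h (f x) ≤ d * (m / 2) / J) ∪
      ((N ∩ A').filter (fun x => m / 2 < h x) ∪ ((A \ A') ∪
        A.filter (fun x => d * (m / 2) / J ≤ h (f x)))) := by
    intro x hx
    have hxA := hN hx
    by_cases h1 : d * (m / 2) / J ≤ h (f x)
    · exact mem_union_right _ (mem_union_right _ (mem_union_right _ (mem_filter.2 ⟨hxA, h1⟩)))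
    · push Not at h1
      by_cases h2 : x ∈ A'
      · by_cases h3 : h x ≤ m / 2
        · exact mem_union_left _ (mem_filter.2 ⟨hxA, h3, h1.le⟩)
        · push Not at h3
          exact mem_union_right _ (mem_union_left _ (mem_filter.2 ⟨mem_inter.2 ⟨hx, h2⟩, h3⟩))
      · exact mem_union_right _ (mem_union_right _ (mem_union_left _ (mem_sdiff.2 ⟨hxA, h2⟩)))
  have hcard := (card_le_card hcov).trans ((card_union_le _ _).trans
    (Nat.add_le_add_left ((card_union_le _ _).trans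
      (Nat.add_le_add_left (card_union_le _ _) _)) _))
  have hc3 : (A.filter (fun x => d * (m / 2) / J ≤ h (f x))).card ≤ 14 * n := by
    have h1 : (d : ℝ) * (14 * J) ≤ ((14 * n : ℕ) : ℝ) := by
      rw [hn]; push_cast; nlinarith
    exact_mod_cast cnt3.trans h1
  omega

/-- **the abstract bound** -/
theorem Sys.bound (s : Sys A f d J W bad inf E T h) (hJ : J + 1 = 12000 * bad.card ^ 2)
    (hd : 4800000 * bad.card ^ 3 ≤ d) {N F : Finset α} (hN : N ⊆ A) (hF : F ⊆ A)
    (hNF : Disjoint N F)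
    (hsplit : ∀ w ∈ bad, w ≠ inf → ∃ P P' : Finset α, P ∪ P' = N ∧ Disjoint P P' ∧
      N.card ≤ 4 * P.card ∧ N.card ≤ 4 * P'.card ∧ ∀ x ∈ P, ∀ y ∈ P', E w x y = 0)
    (h0 : ∀ x ∈ N, ∀ y ∈ F, E inf x y ≤ 3) {K : ℕ}
    (hcap : ∀ B ⊆ A, K < B.card → ∃ x ∈ B, ∃ y ∈ B, x ≠ y ∧ 24 < E inf x y) :
    N.card < 17 * ((J + 1) * d) + K + 1 ∨ F.card < 2 * ((J + 1) * d) := by
  classical
  by_contra hcon
  push Not at hcon
  obtain ⟨hNc, hFc⟩ := hcon
  have hb1 : 1 ≤ bad.card := card_pos.2 ⟨inf, s.hinf⟩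
  have hS2 : 1 ≤ bad.card ^ 2 := Nat.one_le_pow _ _ hb1
  have hJ1 : 11999 ≤ J := by omega
  have h2d : 2 * d ≤ (J + 1) * d := Nat.mul_le_mul_right _ (by omega)
  set n₁ : ℕ := (J + 1) * d + K + 1 with hn₁
  have hstep : ∀ m : ℝ, 12 ≤ m →
      n₁ ≤ (A.filter (fun x => h x ≤ m ∧ h (f x) ≤ d * m / J)).card →
      n₁ ≤ (A.filter (fun x => h x ≤ m / 2 ∧ h (f x) ≤ d * (m / 2) / J)).card :=
    fun m hm hPm => s.step hJ hd hN hF hNF hsplit h0 (by omega) (by omega) hFc hm hPm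
  have hind : ∀ k : ℕ,
      n₁ ≤ (A.filter (fun x => h x ≤ 12 * 2 ^ k ∧ h (f x) ≤ d * (12 * 2 ^ k) / J)).card →
      n₁ ≤ (A.filter (fun x => h x ≤ 12 ∧ h (f x) ≤ d * 12 / J)).card := by
    intro k
    induction k with
    | zero => intro hk; simpa using hk
    | succ k ih =>
      intro hk
      apply ih
      have h1 := hstep (12 * 2 ^ (k + 1)) (by
        have : (1 : ℝ) ≤ 2 ^ (k + 1) := one_le_pow₀ (by norm_num)
        linarith) hk
      have h2 : (12 * 2 ^ (k + 1) / 2 : ℝ) = 12 * 2 ^ k := by rw [pow_succ]; ring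
      rwa [h2] at h1
  -- for large `k` the condition holds for all points
  have hdpos : 0 < d := by
    have : 1 ≤ bad.card ^ 3 := Nat.one_le_pow _ _ hb1
    omega
  have hJpos : (0 : ℝ) < J := by exact_mod_cast (by omega : 0 < J)
  have hdpos' : (0 : ℝ) < d := by exact_mod_cast hdpos
  obtain ⟨b, hb⟩ : ∃ b : ℝ, ∀ x ∈ A, h x ≤ b ∧ h (f x) * J / d ≤ b := by
    obtain ⟨b1, hb1⟩ := (A.image h).bddAbove
    obtain ⟨b2, hb2⟩ := (A.image (fun x => h (f x) * J / d)).bddAbove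
    refine ⟨max b1 b2, fun x hx => ⟨le_max_of_le_left ?_, le_max_of_le_right ?_⟩⟩
    · exact hb1 (mem_coe.2 (mem_image_of_mem h hx))
    · exact hb2 (mem_coe.2 (mem_image_of_mem (fun x => h (f x) * J / d) hx))
  obtain ⟨k, hk⟩ := pow_unbounded_of_one_lt b (by norm_num : (1 : ℝ) < 2)
  have hkb : b ≤ 12 * 2 ^ k := by
    have : (0 : ℝ) ≤ 2 ^ k := by positivity
    linarith
  have hall : A.filter (fun x => h x ≤ 12 * 2 ^ k ∧ h (f x) ≤ d * (12 * 2 ^ k) / J) = A := by
    apply filter_true_of_mem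
    intro x hx
    refine ⟨(hb x hx).1.trans hkb, ?_⟩
    have h1 := (hb x hx).2.trans hkb
    rw [div_le_iff₀ hdpos'] at h1
    rw [le_div_iff₀ hJpos]
    linarith
  have hfin := hind k (by
    rw [hall]
    have := card_le_card hN
    omega)
  set B := A.filter (fun x => h x ≤ 12 ∧ h (f x) ≤ d * 12 / J) with hB
  obtain ⟨x, hx, y, hy, hxy, h1⟩ := hcap B (filter_subset _ _) (by omega)
  rw [hB, mem_filter] at hx hy
  have h2 := s.pair_le hx.1 hy.1 hxy (s.hbad s.hinf)
  linarith [hx.2.1, hy.2.1]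

end Pool.Agent.T6.H83.RM
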