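import Pool.Agent.T6.H83.RM.Abs4

/-!
# Averages over the subsets of given size
-/

set_option autoImplicit false
set_option linter.unusedSectionVars false
set_option linter.unusedVariables false

namespace Pool.Agent.T6.H83.RM

open Finset

variable {α : Type*} [DecidableEq α]

lemma powersetCard_filter_notMem (P : Finset α) (n : ℕ) (x : α) :
    (P.powersetCard n).filter (fun B => x ∉ B) = (P.erase x).powersetCard n := by
  ext B
  rw [mem_filter, mem_powersetCard, mem_powersetCard, subset_erase]
  tauto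

lemma card_mem_one (P : Finset α) (n : ℕ) {x : α} (hx : x ∈ P) :
    ((P.powersetCard n).filter (fun B => x ∈ B)).card + (P.card - 1).choose n =
      P.card.choose n := by
  have h1 := card_filter_add_card_filter_not (s := P.powersetCard n) (fun B => x ∈ B)
  rw [powersetCard_filter_notMem, card_powersetCard, card_powersetCard, card_erase_of_mem hx] at h1
  exact h1

lemma card_mem_two (P : Finset α) (n : ℕ) {x y : α} (hx : x ∈ P) (hy : y ∈ P) (hxy : x ≠ y) :
    ((P.powersetCard n).filter (fun B => x ∈ B ∧ y ∈ B)).card + 2 * (P.card - 1).choose n =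
      P.card.choose n + (P.card - 2).choose n := by
  have h1 := card_mem_one P n hx
  have h2 := card_mem_one (P.erase y) n (mem_erase.2 ⟨hxy, hx⟩)
  rw [card_erase_of_mem hy] at h2
  have h3 := card_filter_add_card_filter_not
    (s := (P.powersetCard n).filter (fun B => x ∈ B)) (fun B => y ∈ B)
  rw [filter_filter, filter_filter] at h3
  have h4 : (P.powersetCard n).filter (fun B => x ∈ B ∧ y ∉ B) =
      ((P.erase y).powersetCard n).filter (fun B => x ∈ B) := by
    rw [← powersetCard_filter_notMem, filter_filter]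
    refine filter_congr fun B _ => ?_
    tauto
  rw [h4] at h3
  have h5 : P.card - 1 - 1 = P.card - 2 := by omega
  rw [h5] at h2
  omega

/-- averages of sums -/
lemma av_sum (P : Finset α) {n : ℕ} (g : α → ℝ) :
    (P.card : ℝ) * ∑ B ∈ P.powersetCard n, ∑ x ∈ B, g x =
      n * P.card.choose n * ∑ x ∈ P, g x := by
  -- the number of sets containing a point
  set N₁ : ℝ := (P.card.choose n : ℝ) - ((P.card - 1).choose n : ℝ) with hN
  have hcount : ∀ g : α → ℝ, ∑ B ∈ P.powersetCard n, ∑ x ∈ B, g x = N₁ * ∑ x ∈ P, g x := by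
    intro g
    have h1 : ∀ B ∈ P.powersetCard n, ∑ x ∈ B, g x = ∑ x ∈ P, if x ∈ B then g x else 0 := by
      intro B hB
      rw [mem_powersetCard] at hB
      rw [sum_ite_mem, inter_eq_right.2 hB.1]
    rw [sum_congr rfl h1, sum_comm, mul_sum]
    refine sum_congr rfl fun x hx => ?_
    rw [← sum_filter, sum_const, nsmul_eq_mul]
    congr 1
    have h2 := card_mem_one P n hx
    have h3 : ((((P.powersetCard n).filter (fun B => x ∈ B)).card + (P.card - 1).choose n : ℕ) : ℝ)
      = ((P.card.choose n : ℕ) : ℝ) := by rw [h2]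
    push_cast at h3
    rw [hN]
    linarith
  have h1 := hcount (fun _ => 1)
  have h2 : ∑ B ∈ P.powersetCard n, ∑ x ∈ B, (1 : ℝ) = n * P.card.choose n := by
    have : ∀ B ∈ P.powersetCard n, ∑ x ∈ B, (1 : ℝ) = n := by
      intro B hB
      rw [mem_powersetCard] at hB
      rw [sum_const, hB.2]
      simp
    rw [sum_congr rfl this, sum_const, card_powersetCard, nsmul_eq_mul]
    ring
  rw [h2, sum_const, nsmul_eq_mul, mul_one] at h1
  rw [hcount g, h1]
  ring

/-- averages of energies -/
lemma av_en (P : Finset α) {n : ℕ} (E : α → α → ℝ) :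
    ((P.card : ℝ) * (P.card - 1)) * ∑ B ∈ P.powersetCard n, en E B =
      (n * (n - 1)) * P.card.choose n * en E P := by
  set N₂ : ℝ := (P.card.choose n : ℝ) + ((P.card - 2).choose n : ℝ) -
    2 * ((P.card - 1).choose n : ℝ) with hN
  have hcount : ∀ E : α → α → ℝ, ∑ B ∈ P.powersetCard n, en E B = N₂ * en E P := by
    intro E
    have h1 : ∀ B ∈ P.powersetCard n, en E B =
        ∑ x ∈ P, ∑ y ∈ P.erase x, if x ∈ B ∧ y ∈ B then E x y else 0 := by
      intro B hB
      rw [mem_powersetCard] at hB
      unfold en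
      have e1 : ∑ x ∈ B, ∑ y ∈ B.erase x, E x y =
          ∑ x ∈ P, if x ∈ B then ∑ y ∈ B.erase x, E x y else 0 := by
        rw [sum_ite_mem, inter_eq_right.2 hB.1]
      rw [e1]
      refine sum_congr rfl fun x hx => ?_
      by_cases hxB : x ∈ B
      · rw [if_pos hxB]
        have e2 : ∑ y ∈ B.erase x, E x y =
            ∑ y ∈ P.erase x, if y ∈ B.erase x then E x y else 0 := by
          rw [sum_ite_mem, inter_eq_right.2 (erase_subset_erase x hB.1)]
        rw [e2]
        refine sum_congr rfl fun y hy => ?_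
        rw [mem_erase] at hy
        by_cases hyB : y ∈ B
        · rw [if_pos (mem_erase.2 ⟨hy.1, hyB⟩), if_pos ⟨hxB, hyB⟩]
        · rw [if_neg (fun h => hyB (mem_erase.1 h).2), if_neg (fun h => hyB h.2)]
      · rw [if_neg hxB]
        symm
        refine sum_eq_zero fun y _ => ?_
        rw [if_neg (fun h => hxB h.1)]
    rw [sum_congr rfl h1, sum_comm]
    unfold en
    rw [mul_sum]
    refine sum_congr rfl fun x hx => ?_
    rw [sum_comm, mul_sum]
    refine sum_congr rfl fun y hy => ?_
    rw [mem_erase] at hy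
    rw [← sum_filter, sum_const, nsmul_eq_mul]
    congr 1
    have h2 := card_mem_two P n hx hy.2 (Ne.symm hy.1)
    have h3 : ((((P.powersetCard n).filter (fun B => x ∈ B ∧ y ∈ B)).card +
        2 * (P.card - 1).choose n : ℕ) : ℝ) =
        ((P.card.choose n + (P.card - 2).choose n : ℕ) : ℝ) := by rw [h2]
    push_cast at h3
    rw [hN]
    linarith
  have hone : ∀ B : Finset α, en (fun _ _ => (1 : ℝ)) B = B.card * (B.card - 1) := by
    intro B
    unfold en
    have : ∀ x ∈ B, ∑ y ∈ B.erase x, (1 : ℝ) = (B.card : ℝ) - 1 := by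
      intro x hx
      rw [sum_const, card_erase_of_mem hx, nsmul_eq_mul, Nat.cast_sub (card_pos.2 ⟨x, hx⟩)]
      simp
    rw [sum_congr rfl this, sum_const, nsmul_eq_mul]
  have h1 := hcount (fun _ _ => 1)
  have h2 : ∑ B ∈ P.powersetCard n, en (fun _ _ => (1 : ℝ)) B =
      (n * (n - 1)) * P.card.choose n := by
    have : ∀ B ∈ P.powersetCard n, en (fun _ _ => (1 : ℝ)) B = (n : ℝ) * (n - 1) := by
      intro B hB
      rw [mem_powersetCard] at hB
      rw [hone, hB.2]
    rw [sum_congr rfl this, sum_const, card_powersetCard, nsmul_eq_mul]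
    ring
  rw [h2, hone] at h1
  rw [hcount E, h1]
  ring

/-- normalised energy -/
noncomputable def nen (E : α → α → ℝ) (P : Finset α) : ℝ :=
  en E P / ((P.card : ℝ) * (P.card - 1))

/-- the mean value of a function -/
noncomputable def mean (g : α → ℝ) (P : Finset α) : ℝ := (∑ x ∈ P, g x) / P.card

lemma av_sum' (P : Finset α) {n : ℕ} (hP : 2 ≤ P.card) (g : α → ℝ) :
    ∑ B ∈ P.powersetCard n, ∑ x ∈ B, g x = P.card.choose n * (n * mean g P) := by
  have hp : (P.card : ℝ) ≠ 0 := by
    have : (2 : ℝ) ≤ P.card := by exact_mod_cast hP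
    linarith
  have h := av_sum P (n := n) g
  unfold mean
  field_simp
  linarith

lemma av_en' (P : Finset α) {n : ℕ} (hP : 2 ≤ P.card) (E : α → α → ℝ) :
    ∑ B ∈ P.powersetCard n, en E B = P.card.choose n * ((n * (n - 1)) * nen E P) := by
  have hp2 : (2 : ℝ) ≤ P.card := by exact_mod_cast hP
  have hp : (P.card : ℝ) ≠ 0 := by linarith
  have hp1 : (P.card : ℝ) - 1 ≠ 0 := by linarith
  have h := av_en P (n := n) E
  unfold nen
  have h2 : ((P.card : ℝ) * (P.card - 1)) ≠ 0 := mul_ne_zero hp hp1
  rw [← mul_right_inj' h2, h]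
  field_simp

end Pool.Agent.T6.H83.RM
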