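import Pool.Agent.T6.H83.RM.Abs6

/-!
# The averaged inequalities
-/

set_option autoImplicit false
set_option linter.unusedSectionVars false
set_option linter.unusedVariables false

namespace Pool.Agent.T6.H83.RM

open Finset

variable {α ι : Type*} [DecidableEq α] [DecidableEq ι]
variable {A : Finset α} {f : α → α} {d J : ℕ} {W bad : Finset ι} {inf : ι}
  {E : ι → α → α → ℝ} {T : ι → α → ℝ} {h : α → ℝ}

/-- the upper bound for the mean defect over the subsets of `P` -/
noncomputable def Up (f : α → α) (h : α → ℝ) (d J n : ℕ) (P : Finset α) : ℝ :=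
  ((d : ℝ) - 1) * (n * mean h P) + J * (n * mean (fun x => h (f x)) P)

lemma choose_pos' {p n : ℕ} (h : n ≤ p) : (0 : ℝ) < (p.choose n : ℝ) := by
  exact_mod_cast Nat.choose_pos h

/-- the mean defect over the subsets of `P` at one place -/
lemma Sys.av_upper (s : Sys A f d J W bad inf E T h) {lam : ι → ℝ}
    (D : Dets A d J W bad inf E T lam) {n : ℕ} (hn : n = (J + 1) * d) {P : Finset α}
    (hP : P ⊆ A) (hPc : n ≤ P.card) (hP2 : 2 ≤ P.card) {w : ι} (hw : w ∈ bad) :
    (n : ℝ) * (n - 1) / 2 * nen (E w) P - J * (n * mean (T w) P) - lam w ≤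
      Up f h d J n P + Real.log (n.factorial) := by
  have hc : (0 : ℝ) < (P.card.choose n : ℝ) := choose_pos' hPc
  have h1 : ∀ B ∈ P.powersetCard n, en (E w) B / 2 - J * ∑ x ∈ B, T w x - lam w ≤
      ((d : ℝ) - 1) * ∑ x ∈ B, h x + J * ∑ x ∈ B, h (f x) + Real.log (n.factorial) := by
    intro B hB
    rw [mem_powersetCard] at hB
    have h2 := s.one_le D (hB.1.trans hP) (hB.2.trans hn) le_rfl hw
    unfold Df at h2
    rw [← hn] at h2
    exact h2
  have h2 := sum_le_sum h1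
  rw [sum_sub_distrib, sum_sub_distrib, sum_add_distrib, sum_add_distrib, ← sum_div, ← mul_sum,
    ← mul_sum, ← mul_sum, sum_const, sum_const, card_powersetCard, nsmul_eq_mul, nsmul_eq_mul,
    av_en' P hP2, av_sum' P hP2, av_sum' P hP2, av_sum' P hP2 (fun x => h (f x))] at h2
  unfold Up
  have h3 : (P.card.choose n : ℝ) * ((n : ℝ) * (n - 1) / 2 * nen (E w) P -
      J * (n * mean (T w) P) - lam w) ≤ P.card.choose n *
      (((d : ℝ) - 1) * (n * mean h P) + J * (n * mean (fun x => h (f x)) P) +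
        Real.log (n.factorial)) := by
    linarith
  exact le_of_mul_le_mul_left h3 hc

/-- the mean defect over the sets divided equally between two parts -/
lemma Sys.av_mixed (s : Sys A f d J W bad inf E T h) {lam : ι → ℝ}
    (D : Dets A d J W bad inf E T lam) {ν : ℕ} (hν : 2 * ν = (J + 1) * d) {P P' : Finset α}
    (hP : P ⊆ A) (hP' : P' ⊆ A) (hPd : Disjoint P P') (hPc : ν ≤ P.card) (hPc' : ν ≤ P'.card)
    (hP2 : 2 ≤ P.card) (hP2' : 2 ≤ P'.card)
    {w : ι} (hw : w ∈ bad) (hwi : w ≠ inf) (h0 : ∀ x ∈ P, ∀ y ∈ P', E w x y = 0) :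
    0 ≤ (ν : ℝ) * (ν - 1) / 2 * (nen (E w) P + nen (E w) P') -
      J * (ν * mean (T w) P + ν * mean (T w) P') - lam w := by
  have hc : (0 : ℝ) < (P.card.choose ν : ℝ) := choose_pos' hPc
  have hc' : (0 : ℝ) < (P'.card.choose ν : ℝ) := choose_pos' hPc'
  have h1 : ∀ B ∈ P.powersetCard ν, ∀ B' ∈ P'.powersetCard ν,
      0 ≤ (en (E w) B / 2 - J * ∑ x ∈ B, T w x) + (en (E w) B' / 2 - J * ∑ x ∈ B', T w x) -
        lam w := by
    intro B hB B' hB'
    rw [mem_powersetCard] at hB hB'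
    have hd : Disjoint B B' := disjoint_of_subset_left hB.1 (disjoint_of_subset_right hB'.1 hPd)
    have hcard : (B ∪ B').card = (J + 1) * d := by
      rw [card_union_of_disjoint hd, hB.2, hB'.2, ← hν]; ring
    have h2 := D.nonarch (B ∪ B') (union_subset (hB.1.trans hP) (hB'.1.trans hP')) hcard w hw hwi
    unfold Df at h2
    rw [en_union _ (s.symm w) hd, sum_union hd] at h2
    have h3 : cr (E w) B B' = 0 :=
      sum_eq_zero fun x hx => sum_eq_zero fun y hy => h0 x (hB.1 hx) y (hB'.1 hy)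
    rw [h3] at h2
    linarith
  have h2 : 0 ≤ ∑ B ∈ P.powersetCard ν, ∑ B' ∈ P'.powersetCard ν,
      ((en (E w) B / 2 - J * ∑ x ∈ B, T w x) + (en (E w) B' / 2 - J * ∑ x ∈ B', T w x) -
        lam w) := sum_nonneg fun B hB => sum_nonneg fun B' hB' => h1 B hB B' hB'
  simp only [sum_sub_distrib, sum_add_distrib, sum_const, card_powersetCard, nsmul_eq_mul] at h2
  simp only [← mul_sum, ← sum_div] at h2
  rw [av_en' P hP2, av_en' P' hP2', av_sum' P hP2, av_sum' P' hP2'] at h2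
  have h3 : 0 ≤ (P.card.choose ν : ℝ) * P'.card.choose ν *
      ((ν : ℝ) * (ν - 1) / 2 * (nen (E w) P + nen (E w) P') -
      J * (ν * mean (T w) P + ν * mean (T w) P') - lam w) := by
    refine h2.trans (le_of_eq ?_)
    ring
  exact nonneg_of_mul_nonneg_right h3 (mul_pos hc hc')

/-- the averaged inequality at a bad prime -/
lemma Sys.av_nonarch (s : Sys A f d J W bad inf E T h) {lam : ι → ℝ}
    (D : Dets A d J W bad inf E T lam) {ν : ℕ} (hν : 2 * ν = (J + 1) * d) (hν1 : 1 ≤ ν)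
    {P P' : Finset α}
    (hP : P ⊆ A) (hP' : P' ⊆ A) (hPd : Disjoint P P') (hPc : 2 * ν ≤ P.card)
    (hPc' : 2 * ν ≤ P'.card)
    {w : ι} (hw : w ∈ bad) (hwi : w ≠ inf) (h0 : ∀ x ∈ P, ∀ y ∈ P', E w x y = 0) :
    (ν : ℝ) ^ 2 * (nen (E w) P + nen (E w) P') ≤
      Up f h d J (2 * ν) P + Up f h d J (2 * ν) P' + 2 * Real.log ((2 * ν).factorial) := by
  have h1 := s.av_upper D hν hP hPc (by omega) hw
  have h2 := s.av_upper D hν hP' hPc' (by omega) hw
  have h3 := s.av_mixed D hν hP hP' hPd (by omega) (by omega) (by omega) (by omega) hw hwi h0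
  push_cast at h1 h2
  nlinarith

/-- the averaged inequality at the good places -/
lemma Sys.av_good (s : Sys A f d J W bad inf E T h) {lam : ι → ℝ}
    (D : Dets A d J W bad inf E T lam) {n : ℕ} (hn : n = (J + 1) * d)
    (hPc : n ≤ A.card) (hP2 : 2 ≤ A.card) :
    (n : ℝ) * (n - 1) / 2 * ∑ w ∈ W \ bad, nen (E w) A ≤
      Up f h d J n A + Real.log (n.factorial) := by
  have hc : (0 : ℝ) < (A.card.choose n : ℝ) := choose_pos' hPc
  have h1 : ∀ B ∈ A.powersetCard n, ∑ w ∈ W \ bad, en (E w) B / 2 ≤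
      ((d : ℝ) - 1) * ∑ x ∈ B, h x + J * ∑ x ∈ B, h (f x) + Real.log (n.factorial) := by
    intro B hB
    rw [mem_powersetCard] at hB
    have hBc := hB.2.trans hn
    have h2 := s.sum_defect D.sumlam hB.1 hBc
    rw [← sum_sdiff s.hbad] at h2
    have h3 := s.sum_bad_ge D hB.1 hBc
    have h4 : ∑ w ∈ W \ bad, en (E w) B / 2 ≤ ∑ w ∈ W \ bad, Df E T J lam w B :=
      sum_le_sum fun w hw => by
        rw [mem_sdiff] at hw
        exact D.good B hB.1 hBc w hw.1 hw.2
    rw [← hn] at h3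
    linarith
  have h2 := sum_le_sum h1
  rw [sum_comm, sum_add_distrib, sum_add_distrib, ← mul_sum, ← mul_sum, sum_const,
    card_powersetCard, nsmul_eq_mul, av_sum' A hP2, av_sum' A hP2 (fun x => h (f x))] at h2
  have h3 : ∑ w ∈ W \ bad, ∑ B ∈ A.powersetCard n, en (E w) B / 2 =
      A.card.choose n * ((n : ℝ) * (n - 1) / 2 * ∑ w ∈ W \ bad, nen (E w) A) := by
    rw [mul_sum, mul_sum]
    refine sum_congr rfl fun w _ => ?_
    rw [← sum_div, av_en' A hP2]
    ring
  rw [h3] at h2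
  unfold Up
  have h4 : (A.card.choose n : ℝ) * ((n : ℝ) * (n - 1) / 2 * ∑ w ∈ W \ bad, nen (E w) A) ≤
      A.card.choose n *
      (((d : ℝ) - 1) * (n * mean h A) + J * (n * mean (fun x => h (f x)) A) +
        Real.log (n.factorial)) := by
    linarith
  exact le_of_mul_le_mul_left h4 hc

/-- the sum of the large heights -/
lemma Sys.high_total (s : Sys A f d J W bad inf E T h) {m : ℝ} (hm : 4 ≤ m) {L : Finset α}
    (hL : L ⊆ A) (hLc : L.card = 2 * d) (hL1 : ∀ x ∈ L, h x ≤ m)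
    (hL2 : ∀ x ∈ L, h (f x) ≤ d * m) (hd : 200 * bad.card ≤ d)
    {R : ℝ} (hR : 200 * bad.card * m ≤ R) :
    ∑ x ∈ A.filter (fun x => R ≤ h x), h x ≤ 7 * d * m := by
  classical
  have hb1 : 1 ≤ bad.card := card_pos.2 ⟨inf, s.hinf⟩
  have hS1 : (1 : ℝ) ≤ bad.card := by exact_mod_cast hb1
  have hd200 : 200 ≤ d := by omega
  have hd0 : (200 : ℝ) ≤ d := by exact_mod_cast hd200
  have hRm : 200 * m ≤ R := by nlinarith
  have hR0 : 0 < R := by linarith
  set G := A.filter (fun x => R ≤ h x) with hG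
  have hGm : ∀ x ∈ G, x ∈ A ∧ R ≤ h x := fun x hx => mem_filter.1 hx
  rcases G.eq_empty_or_nonempty with h0 | ⟨x, hx⟩
  · rw [h0, sum_empty]
    positivity
  have hmax := s.high_max hm hL hLc hL1 hL2 hd hR (hGm x hx).1 (hGm x hx).2
  have hcount := s.high_count hm hL hLc hL1 hL2 hd hR
  rw [← hG] at hcount
  -- the number of high points is at most `d / 16`
  have hGc : 16 * G.card ≤ d := by
    have h1 : (G.card : ℝ) * (200 * m) ≤ G.card * R :=
      mul_le_mul_of_nonneg_left hRm (Nat.cast_nonneg _)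
    have h2 : (G.card : ℝ) * (200 * m) ≤ 7 * d * m := h1.trans hcount
    have h3 : (G.card : ℝ) * 200 * m ≤ 7 * d * m := by linarith
    have h4 := le_of_mul_le_mul_right h3 (by linarith : 0 < m)
    have h5 : (16 : ℝ) * G.card ≤ d := by linarith
    exact_mod_cast h5
  have h1 := s.high_sum hm hL hLc hL1 hL2 hd (H := G) (fun y hy => (hGm y hy).1) hGc hR
    (fun y hy => (hGm y hy).2)
  have h2 : ∑ y ∈ G, h (f y) ≤ G.card * (6 * d * m) := by
    have := sum_le_card_nsmul G (fun y => h (f y)) (6 * d * m)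
      (fun y hy => hmax _ (s.hf y (hGm y hy).1))
    rwa [nsmul_eq_mul] at this
  have h4 : (16 : ℝ) * G.card ≤ d := by exact_mod_cast hGc
  have h5 : (G.card : ℝ) * (6 * d * m) ≤ 6 / 16 * ((d : ℝ) ^ 2 * m) := by
    have h6 : (0 : ℝ) ≤ 6 * d * m := by positivity
    have h7 : (16 : ℝ) * G.card * (6 * d * m) ≤ d * (6 * d * m) :=
      mul_le_mul_of_nonneg_right h4 h6
    have h8 : (d : ℝ) * (6 * d * m) = 6 * ((d : ℝ) ^ 2 * m) := by ring
    linarith
  have h7 : 0.89 * (d : ℝ) * ∑ y ∈ G, h y = 89 / 100 * (d * ∑ y ∈ G, h y) := by ring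
  rw [h7] at h1
  by_contra h8
  push Not at h8
  have h9 : (d : ℝ) * (7 * d * m) ≤ d * ∑ y ∈ G, h y :=
    mul_le_mul_of_nonneg_left h8.le (by linarith)
  have h10 : (d : ℝ) * (7 * d * m) = 7 * ((d : ℝ) ^ 2 * m) := by ring
  have h11 : (0 : ℝ) < (d : ℝ) ^ 2 * m := by positivity
  rw [h10] at h9
  linarith

end Pool.Agent.T6.H83.RM
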