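import Pool.Agent.T6.H83.RM.Abs7
import Pool.Agent.T6.H83.RM.Abs5

/-!
# The bound by means of averages
-/

set_option autoImplicit false
set_option linter.unusedSectionVars false
set_option linter.unusedVariables false

namespace Pool.Agent.T6.H83.RM

open Finset

variable {α ι : Type*} [DecidableEq α] [DecidableEq ι]
variable {A : Finset α} {f : α → α} {d J : ℕ} {W bad : Finset ι} {inf : ι}
  {E : ι → α → α → ℝ} {T : ι → α → ℝ} {h : α → ℝ}

/-- the sum of the positive parts -/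
lemma Sys.pos_part (s : Sys A f d J W bad inf E T h) (hA : 2 ≤ A.card) :
    ((A.card : ℝ) - 2) * ∑ x ∈ A, max (h x) 0 ≤ (A.card - 1) * ∑ x ∈ A, h x := by
  have hA' : (2 : ℝ) ≤ A.card := by exact_mod_cast hA
  by_cases h0 : ∀ x ∈ A, 0 ≤ h x
  · rw [sum_congr rfl fun x hx => max_eq_left (h0 x hx)]
    have : 0 ≤ ∑ x ∈ A, h x := sum_nonneg h0
    nlinarith
  · push Not at h0
    obtain ⟨x₀, hx₀, h1⟩ := h0
    have h2 : ∀ y ∈ A.erase x₀, -h x₀ ≤ h y := by
      intro y hy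
      rw [mem_erase] at hy
      have := s.pair_nonneg hx₀ hy.2 (Ne.symm hy.1)
      linarith
    have h3 : ∑ y ∈ A.erase x₀, max (h y) 0 = ∑ y ∈ A.erase x₀, h y :=
      sum_congr rfl fun y hy => max_eq_left (by have := h2 y hy; linarith)
    have h4 := card_nsmul_le_sum _ _ _ h2
    rw [nsmul_eq_mul, card_erase_of_mem hx₀, Nat.cast_sub (by omega : 1 ≤ A.card)] at h4
    push_cast at h4
    rw [← add_sum_erase A _ hx₀, ← add_sum_erase A h hx₀, h3, max_eq_right h1.le]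
    linarith

/-- the energy at the archimedean place -/
lemma Sys.en_inf_le (s : Sys A f d J W bad inf E T h)
    (hfar : ∀ x ∈ A, 3 * (A.filter (fun y => 3 / 2 < E inf x y)).card ≤ 2 * A.card + 1) :
    en (E inf) A ≤ 2 / 3 * (2 * A.card + 1) * ∑ x ∈ A, max (h x) 0 +
      3 / 2 * (A.card : ℝ) ^ 2 := by
  classical
  set g : α → ℝ := fun x => max (h x) 0 with hg
  have hg0 : ∀ x, 0 ≤ g x := fun x => le_max_right _ _
  have hgh : ∀ x, h x ≤ g x := fun x => le_max_left _ _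
  have h1 : en (E inf) A ≤ ∑ x ∈ A, ∑ y ∈ A,
      ((if 3 / 2 < E inf x y then g x + g y else 0) + 3 / 2) := by
    unfold en
    refine sum_le_sum fun x hx => ?_
    have h2 : ∑ y ∈ A.erase x, E inf x y ≤ ∑ y ∈ A.erase x,
        ((if 3 / 2 < E inf x y then g x + g y else 0) + 3 / 2) := by
      refine sum_le_sum fun y hy => ?_
      rw [mem_erase] at hy
      by_cases hn : 3 / 2 < E inf x y
      · rw [if_pos hn]
        have := s.pair_le hx hy.2 (Ne.symm hy.1) (s.hbad s.hinf)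
        have := hgh x
        have := hgh y
        linarith
      · rw [if_neg hn]
        push Not at hn
        linarith
    refine h2.trans (sum_le_sum_of_subset_of_nonneg (erase_subset _ _) fun y _ _ => ?_)
    have := hg0 x
    have := hg0 y
    split_ifs <;> linarith
  have h2 : ∑ x ∈ A, ∑ y ∈ A, (if 3 / 2 < E inf x y then g x + g y else 0) =
      2 * ∑ x ∈ A, ∑ y ∈ A, (if 3 / 2 < E inf x y then g x else 0) := by
    have e1 : ∑ x ∈ A, ∑ y ∈ A, (if 3 / 2 < E inf x y then g x + g y else 0) =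
        ∑ x ∈ A, ∑ y ∈ A, (if 3 / 2 < E inf x y then g x else 0) +
        ∑ x ∈ A, ∑ y ∈ A, (if 3 / 2 < E inf x y then g y else 0) := by
      rw [← sum_add_distrib]
      refine sum_congr rfl fun x _ => ?_
      rw [← sum_add_distrib]
      refine sum_congr rfl fun y _ => ?_
      split_ifs <;> ring
    have e2 : ∑ x ∈ A, ∑ y ∈ A, (if 3 / 2 < E inf x y then g y else 0) =
        ∑ x ∈ A, ∑ y ∈ A, (if 3 / 2 < E inf x y then g x else 0) := by
      rw [sum_comm]
      refine sum_congr rfl fun x _ => sum_congr rfl fun y _ => ?_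
      rw [s.symm inf y x]
    rw [e1, e2]
    ring
  have h3 : ∀ x ∈ A, ∑ y ∈ A, (if 3 / 2 < E inf x y then g x else 0) ≤
      (2 * A.card + 1) / 3 * g x := by
    intro x hx
    rw [← sum_filter, sum_const, nsmul_eq_mul]
    apply mul_le_mul_of_nonneg_right _ (hg0 x)
    have h4 : ((3 * (A.filter (fun y => 3 / 2 < E inf x y)).card : ℕ) : ℝ) ≤
        ((2 * A.card + 1 : ℕ) : ℝ) := by exact_mod_cast hfar x hx
    push_cast at h4
    linarith
  have h4 := sum_le_sum h3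
  rw [← mul_sum] at h4
  have h5 : ∑ x ∈ A, ∑ y ∈ A, ((if 3 / 2 < E inf x y then g x + g y else 0) + 3 / 2) =
      ∑ x ∈ A, ∑ y ∈ A, (if 3 / 2 < E inf x y then g x + g y else 0) +
        3 / 2 * (A.card : ℝ) ^ 2 := by
    have : ∀ x ∈ A, ∑ y ∈ A, ((if 3 / 2 < E inf x y then g x + g y else 0) + 3 / 2) =
        ∑ y ∈ A, (if 3 / 2 < E inf x y then g x + g y else 0) + 3 / 2 * A.card := by
      intro x _
      rw [sum_add_distrib, sum_const, nsmul_eq_mul]
      ring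
    rw [sum_congr rfl this, sum_add_distrib, sum_const, nsmul_eq_mul]
    ring
  rw [h5, h2] at h1
  linarith

lemma mean_le {g k : α → ℝ} {P A : Finset α} (hP : P ⊆ A) (hPc : A.card ≤ 4 * P.card)
    (hA : 0 < A.card) (h0 : ∀ x ∈ A, 0 ≤ g x) (hk : ∀ x ∈ A, k x ≤ g x) :
    mean k P ≤ 4 / A.card * ∑ x ∈ P, g x := by
  have hAR : (0 : ℝ) < A.card := by exact_mod_cast hA
  have hPR : (A.card : ℝ) ≤ 4 * P.card := by exact_mod_cast hPc
  have hP0 : (0 : ℝ) < P.card := by linarith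
  unfold mean
  have h1 : ∑ x ∈ P, k x ≤ ∑ x ∈ P, g x := sum_le_sum fun x hx => hk x (hP hx)
  have h2 : 0 ≤ ∑ x ∈ P, g x := sum_nonneg fun x hx => h0 x (hP hx)
  rw [div_le_iff₀ hP0]
  calc ∑ x ∈ P, k x ≤ 1 * ∑ x ∈ P, g x := by rw [one_mul]; exact h1
    _ ≤ (4 / A.card * P.card) * ∑ x ∈ P, g x := by
        apply mul_le_mul_of_nonneg_right _ h2
        rw [div_mul_eq_mul_div, le_div_iff₀ hAR]
        linarith
    _ = _ := by ring

/-- the energy at a bad prime -/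
lemma Sys.en_nonarch_le (s : Sys A f d J W bad inf E T h) {lam : ι → ℝ}
    (D : Dets A d J W bad inf E T lam) (hd1 : 1 ≤ d) {ν : ℕ} (hν : 2 * ν = (J + 1) * d)
    (hν1 : 1 ≤ ν) (hAc : 4 * (2 * ν) ≤ A.card)
    {w : ι} (hw : w ∈ bad) (hwi : w ≠ inf) {P P' : Finset α} (hPP : P ∪ P' = A)
    (hPd : Disjoint P P') (hPc : A.card ≤ 4 * P.card) (hPc' : A.card ≤ 4 * P'.card)
    (h0 : ∀ x ∈ P, ∀ y ∈ P', E w x y = 0) :
    (ν : ℝ) ^ 2 * en (E w) A ≤ (A.card : ℝ) ^ 2 *
      (2 * ν * (4 / A.card) * (d * ∑ x ∈ A, max (h x) 0 + J * ∑ x ∈ A, max (h (f x)) 0) +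
        2 * Real.log ((2 * ν).factorial)) := by
  classical
  have hP : P ⊆ A := hPP ▸ subset_union_left
  have hP' : P' ⊆ A := hPP ▸ subset_union_right
  have hA0 : 0 < A.card := by omega
  have hAR : (0 : ℝ) < A.card := by exact_mod_cast hA0
  have hav := s.av_nonarch D hν hν1 hP hP' hPd (by omega) (by omega) hw hwi h0
  -- the energy of `A`
  have hen : en (E w) A = en (E w) P + en (E w) P' := by
    have h1 := en_union (E w) (s.symm w) hPd
    rw [hPP] at h1
    have h2 : cr (E w) P P' = 0 :=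
      sum_eq_zero fun x hx => sum_eq_zero fun y hy => h0 x hx y hy
    rw [h1, h2]
    ring
  have hnen : ∀ Q ⊆ A, 2 ≤ Q.card → en (E w) Q ≤ (A.card : ℝ) ^ 2 * nen (E w) Q := by
    intro Q hQ hQ2
    have h1 : (2 : ℝ) ≤ Q.card := by exact_mod_cast hQ2
    have h2 : (Q.card : ℝ) ≤ A.card := by exact_mod_cast card_le_card hQ
    have h3 : 0 < (Q.card : ℝ) * (Q.card - 1) := by
      apply mul_pos <;> linarith
    have h4 := s.en_nonneg' hQ (s.hbad hw)
    unfold nen
    rw [← mul_div_assoc, le_div_iff₀ h3]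
    have h5 : (Q.card : ℝ) * (Q.card - 1) ≤ (A.card : ℝ) ^ 2 := by nlinarith
    nlinarith
  have h1 := hnen P hP (by omega)
  have h2 := hnen P' hP' (by omega)
  -- the means
  set g : α → ℝ := fun x => max (h x) 0 with hg
  have hg0 : ∀ x ∈ A, 0 ≤ g x := fun x _ => le_max_right _ _
  have hgh : ∀ x ∈ A, h x ≤ g x := fun x _ => le_max_left _ _
  have m1 := mean_le (k := h) hP hPc hA0 hg0 hgh
  have m2 := mean_le (k := h) hP' hPc' hA0 hg0 hgh
  have m3 := mean_le (g := fun x => g (f x)) (k := fun x => h (f x)) hP hPc hA0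
    (fun x _ => le_max_right _ _) (fun x _ => le_max_left _ _)
  have m4 := mean_le (g := fun x => g (f x)) (k := fun x => h (f x)) hP' hPc' hA0
    (fun x _ => le_max_right _ _) (fun x _ => le_max_left _ _)
  have hs1 : ∑ x ∈ P, g x + ∑ x ∈ P', g x = ∑ x ∈ A, g x := by
    rw [← sum_union hPd, hPP]
  have hs2 : ∑ x ∈ P, g (f x) + ∑ x ∈ P', g (f x) = ∑ x ∈ A, g (f x) := by
    rw [← sum_union hPd, hPP]
  have hsg0 : 0 ≤ ∑ x ∈ A, g x := sum_nonneg hg0
  have hd1R : (1 : ℝ) ≤ d := by exact_mod_cast hd1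
  have hν0 : (0 : ℝ) ≤ ν := Nat.cast_nonneg _
  have hUp : Up f h d J (2 * ν) P + Up f h d J (2 * ν) P' ≤
      2 * ν * (4 / A.card) * (d * ∑ x ∈ A, g x + J * ∑ x ∈ A, g (f x)) := by
    unfold Up
    push_cast
    have e1 : ((d : ℝ) - 1) * (2 * ν * mean h P) + ((d : ℝ) - 1) * (2 * ν * mean h P') ≤
        (d - 1) * (2 * ν * (4 / A.card * ∑ x ∈ A, g x)) := by
      rw [← hs1, ← mul_add, ← mul_add]
      apply mul_le_mul_of_nonneg_left _ (by linarith)
      apply mul_le_mul_of_nonneg_left _ (by linarith)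
      linarith
    have e2 : (J : ℝ) * (2 * ν * mean (fun x => h (f x)) P) +
        J * (2 * ν * mean (fun x => h (f x)) P') ≤
        J * (2 * ν * (4 / A.card * ∑ x ∈ A, g (f x))) := by
      rw [← hs2, ← mul_add, ← mul_add]
      apply mul_le_mul_of_nonneg_left _ (Nat.cast_nonneg _)
      apply mul_le_mul_of_nonneg_left _ (by linarith)
      linarith
    have e3 : 0 ≤ 2 * ν * (4 / (A.card : ℝ)) * ∑ x ∈ A, g x := by positivity
    nlinarith
  rw [hen]
  have hA2 : (0 : ℝ) ≤ (A.card : ℝ) ^ 2 := by positivity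
  calc (ν : ℝ) ^ 2 * (en (E w) P + en (E w) P')
      ≤ (ν : ℝ) ^ 2 * ((A.card : ℝ) ^ 2 * (nen (E w) P + nen (E w) P')) := by
        apply mul_le_mul_of_nonneg_left _ (by positivity)
        linarith
    _ = (A.card : ℝ) ^ 2 * ((ν : ℝ) ^ 2 * (nen (E w) P + nen (E w) P')) := by ring
    _ ≤ _ := by
        apply mul_le_mul_of_nonneg_left _ hA2
        linarith

/-- the energy at the good places -/
lemma Sys.en_good_le (s : Sys A f d J W bad inf E T h) {lam : ι → ℝ}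
    (D : Dets A d J W bad inf E T lam) (hd1 : 1 ≤ d) {ν : ℕ} (hν : 2 * ν = (J + 1) * d)
    (hν1 : 1 ≤ ν) (hAc : 4 * (2 * ν) ≤ A.card) :
    (ν : ℝ) ^ 2 * ∑ w ∈ W \ bad, en (E w) A ≤ (A.card : ℝ) ^ 2 *
      (2 * ν * (1 / A.card) * (d * ∑ x ∈ A, max (h x) 0 + J * ∑ x ∈ A, max (h (f x)) 0) +
        Real.log ((2 * ν).factorial)) := by
  classical
  have hA0 : 0 < A.card := by omega
  have hAR : (0 : ℝ) < A.card := by exact_mod_cast hA0
  have hA2 : (2 : ℝ) ≤ A.card := by exact_mod_cast (by omega : 2 ≤ A.card)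
  have hav := s.av_good D hν (by omega) (by omega)
  have hν1R : (1 : ℝ) ≤ ν := by exact_mod_cast hν1
  have hsum : ∑ w ∈ W \ bad, en (E w) A ≤
      (A.card : ℝ) ^ 2 * ∑ w ∈ W \ bad, nen (E w) A := by
    rw [mul_sum]
    refine sum_le_sum fun w hw => ?_
    rw [mem_sdiff] at hw
    have h3 : 0 < (A.card : ℝ) * (A.card - 1) := by
      apply mul_pos <;> linarith
    have h4 := s.en_nonneg' Subset.rfl hw.1
    unfold nen
    rw [← mul_div_assoc, le_div_iff₀ h3]
    have h5 : (A.card : ℝ) * (A.card - 1) ≤ (A.card : ℝ) ^ 2 := by nlinarith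
    nlinarith
  have hnn : 0 ≤ ∑ w ∈ W \ bad, nen (E w) A := by
    refine sum_nonneg fun w hw => ?_
    rw [mem_sdiff] at hw
    unfold nen
    have h3 : 0 < (A.card : ℝ) * (A.card - 1) := by
      apply mul_pos <;> linarith
    exact div_nonneg (s.en_nonneg' Subset.rfl hw.1) h3.le
  set g : α → ℝ := fun x => max (h x) 0 with hg
  have hs1 : ∑ x ∈ A, h x ≤ ∑ x ∈ A, g x := sum_le_sum fun x _ => le_max_left _ _
  have hs2 : ∑ x ∈ A, h (f x) ≤ ∑ x ∈ A, g (f x) := sum_le_sum fun x _ => le_max_left _ _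
  have hg0 : 0 ≤ ∑ x ∈ A, g x := sum_nonneg fun x _ => le_max_right _ _
  have hd1R : (1 : ℝ) ≤ d := by exact_mod_cast hd1
  have hUp : Up f h d J (2 * ν) A ≤
      2 * ν * (1 / A.card) * (d * ∑ x ∈ A, g x + J * ∑ x ∈ A, g (f x)) := by
    unfold Up mean
    push_cast
    have e1 : ((d : ℝ) - 1) * (2 * ν * ((∑ x ∈ A, h x) / A.card)) ≤
        (d - 1) * (2 * ν * ((∑ x ∈ A, g x) / A.card)) := by
      apply mul_le_mul_of_nonneg_left _ (by linarith)
      apply mul_le_mul_of_nonneg_left _ (by linarith)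
      exact div_le_div_of_nonneg_right hs1 hAR.le
    have e2 : (J : ℝ) * (2 * ν * ((∑ x ∈ A, h (f x)) / A.card)) ≤
        J * (2 * ν * ((∑ x ∈ A, g (f x)) / A.card)) := by
      apply mul_le_mul_of_nonneg_left _ (Nat.cast_nonneg _)
      apply mul_le_mul_of_nonneg_left _ (by linarith)
      exact div_le_div_of_nonneg_right hs2 hAR.le
    have e3 : 0 ≤ 2 * ν * ((∑ x ∈ A, g x) / (A.card : ℝ)) := by positivity
    have e4 : 2 * ν * (1 / (A.card : ℝ)) * (d * ∑ x ∈ A, g x + J * ∑ x ∈ A, g (f x)) =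
        d * (2 * ν * ((∑ x ∈ A, g x) / A.card)) + J * (2 * ν * ((∑ x ∈ A, g (f x)) / A.card)) := by
      ring
    rw [e4]
    linarith
  push_cast at hav
  have h6 : (ν : ℝ) ^ 2 ≤ 2 * ν * (2 * ν - 1) / 2 := by nlinarith
  calc (ν : ℝ) ^ 2 * ∑ w ∈ W \ bad, en (E w) A
      ≤ (ν : ℝ) ^ 2 * ((A.card : ℝ) ^ 2 * ∑ w ∈ W \ bad, nen (E w) A) :=
        mul_le_mul_of_nonneg_left hsum (by positivity)
    _ = (A.card : ℝ) ^ 2 * ((ν : ℝ) ^ 2 * ∑ w ∈ W \ bad, nen (E w) A) := by ring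
    _ ≤ (A.card : ℝ) ^ 2 * (2 * ν * (2 * ν - 1) / 2 * ∑ w ∈ W \ bad, nen (E w) A) := by
        apply mul_le_mul_of_nonneg_left _ (by positivity)
        exact mul_le_mul_of_nonneg_right h6 hnn
    _ ≤ _ := by
        apply mul_le_mul_of_nonneg_left _ (by positivity)
        linarith

end Pool.Agent.T6.H83.RM
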