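import Pool.Agent.T6.H83.RM.Abs8

/-!
# The bound for the number of points by means of averages
-/

set_option autoImplicit false
set_option linter.unusedSectionVars false
set_option linter.unusedVariables false

namespace Pool.Agent.T6.H83.RM

open Finset

variable {α ι : Type*} [DecidableEq α] [DecidableEq ι]
variable {A : Finset α} {f : α → α} {d J : ℕ} {W bad : Finset ι} {inf : ι}
  {E : ι → α → α → ℝ} {T : ι → α → ℝ} {h : α → ℝ}

/-- a set of points of low height whose images have low height -/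
lemma Sys.exists_low (s : Sys A f d J W bad inf E T h) (hd1 : 1 ≤ d) (hAc : 4 * d ≤ A.card)
    {m : ℝ} (hm0 : 0 < m) (hm : 4 * ∑ x ∈ A, max (h x) 0 ≤ A.card * m) :
    ∃ L ⊆ A, L.card = 2 * d ∧ (∀ x ∈ L, h x ≤ m) ∧ ∀ x ∈ L, h (f x) ≤ d * m := by
  classical
  set g : α → ℝ := fun x => max (h x) 0 with hg
  have hg0 : ∀ x, 0 ≤ g x := fun x => le_max_right _ _
  have hgh : ∀ x, h x ≤ g x := fun x => le_max_left _ _
  have hd1R : (1 : ℝ) ≤ d := by exact_mod_cast hd1
  -- Markov
  have markov : ∀ t : ℝ, 0 < t → ((A.filter (fun x => t < h x)).card : ℝ) * t ≤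
      ∑ x ∈ A, g x := by
    intro t ht
    have h1 : ((A.filter (fun x => t < h x)).card : ℝ) * t ≤
        ∑ x ∈ A.filter (fun x => t < h x), g x := by
      have := card_nsmul_le_sum (A.filter (fun x => t < h x)) g t
        (fun x hx => (mem_filter.1 hx).2.le.trans (hgh x))
      rwa [nsmul_eq_mul] at this
    exact h1.trans (sum_le_sum_of_subset_of_nonneg (filter_subset _ _) fun x _ _ => hg0 x)
  have c1 : 4 * ((A.filter (fun x => m < h x)).card : ℝ) ≤ A.card := by
    have h1 := markov m hm0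
    have h2 : 4 * ((A.filter (fun x => m < h x)).card : ℝ) * m ≤ A.card * m := by linarith
    exact le_of_mul_le_mul_right h2 hm0
  have c2 : 4 * ((A.filter (fun x => d * m < h (f x))).card : ℝ) ≤ A.card := by
    have hdm : 0 < d * m := by positivity
    have h1 := markov (d * m) hdm
    have h2 := s.card_preimage (fun x => d * m < h x)
    have h3 : ((A.filter (fun x => d * m < h (f x))).card : ℝ) ≤
        d * ((A.filter (fun x => d * m < h x)).card : ℝ) := by exact_mod_cast h2
    have h4 : 4 * ((A.filter (fun x => d * m < h (f x))).card : ℝ) * m ≤ A.card * m := by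
      nlinarith
    exact le_of_mul_le_mul_right h4 hm0
  have c1' : 4 * (A.filter (fun x => m < h x)).card ≤ A.card := by exact_mod_cast c1
  have c2' : 4 * (A.filter (fun x => d * m < h (f x))).card ≤ A.card := by exact_mod_cast c2
  have hcov : A ⊆ A.filter (fun x => h x ≤ m ∧ h (f x) ≤ d * m) ∪
      (A.filter (fun x => m < h x) ∪ A.filter (fun x => d * m < h (f x))) := by
    intro x hx
    by_cases h1 : h x ≤ m
    · by_cases h2 : h (f x) ≤ d * m
      · exact mem_union_left _ (mem_filter.2 ⟨hx, h1, h2⟩)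
      · exact mem_union_right _ (mem_union_right _ (mem_filter.2 ⟨hx, not_le.1 h2⟩))
    · exact mem_union_right _ (mem_union_left _ (mem_filter.2 ⟨hx, not_le.1 h1⟩))
  have hcard := (card_le_card hcov).trans ((card_union_le _ _).trans
    (Nat.add_le_add_left (card_union_le _ _) _))
  obtain ⟨L, hL, hLc⟩ := exists_subset_card_eq
    (by omega : 2 * d ≤ (A.filter (fun x => h x ≤ m ∧ h (f x) ≤ d * m)).card)
  exact ⟨L, hL.trans (filter_subset _ _), hLc, fun x hx => (mem_filter.1 (hL hx)).2.1,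
    fun x hx => (mem_filter.1 (hL hx)).2.2⟩

/-- the sum of the heights of the images -/
lemma Sys.image_sum (s : Sys A f d J W bad inf E T h) {m : ℝ} (hm : 4 ≤ m) {L : Finset α}
    (hL : L ⊆ A) (hLc : L.card = 2 * d) (hL1 : ∀ x ∈ L, h x ≤ m)
    (hL2 : ∀ x ∈ L, h (f x) ≤ d * m) (hd : 200 * bad.card ≤ d) :
    ∑ x ∈ A, max (h (f x)) 0 ≤ A.card * (200 * bad.card * m) + d * (7 * d * m) := by
  classical
  have hb1 : 1 ≤ bad.card := card_pos.2 ⟨inf, s.hinf⟩
  have hS1 : (1 : ℝ) ≤ bad.card := by exact_mod_cast hb1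
  set R : ℝ := 200 * bad.card * m with hR
  have hR0 : 0 < R := by positivity
  have htot := s.high_total hm hL hLc hL1 hL2 hd (R := R) le_rfl
  set G := A.filter (fun x => R ≤ h x) with hG
  have h1 : ∀ x ∈ A, max (h (f x)) 0 ≤ R + (if f x ∈ G then h (f x) else 0) := by
    intro x hx
    by_cases h2 : f x ∈ G
    · rw [if_pos h2]
      have h3 := (mem_filter.1 h2).2
      apply max_le <;> linarith
    · rw [if_neg h2]
      have h3 : h (f x) < R := by
        by_contra h4
        push Not at h4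
        exact h2 (mem_filter.2 ⟨s.hf x hx, h4⟩)
      apply max_le <;> linarith
  have h2 := sum_le_sum h1
  rw [sum_add_distrib, sum_const, nsmul_eq_mul] at h2
  have h3 : ∑ x ∈ A, (if f x ∈ G then h (f x) else 0) ≤ d * ∑ y ∈ G, h y := by
    rw [← sum_filter, mul_sum]
    have hmaps : ∀ x ∈ A.filter (fun x => f x ∈ G), f x ∈ G := fun x hx => (mem_filter.1 hx).2
    rw [← sum_fiberwise_of_maps_to hmaps]
    refine sum_le_sum fun y hy => ?_
    have hy' := mem_filter.1 hy
    have h4 : ∑ x ∈ (A.filter (fun x => f x ∈ G)).filter (fun x => f x = y), h (f x) =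
        ((A.filter (fun x => f x ∈ G)).filter (fun x => f x = y)).card * h y := by
      rw [sum_congr rfl fun x hx => by rw [(mem_filter.1 hx).2], sum_const, nsmul_eq_mul]
    rw [h4]
    apply mul_le_mul_of_nonneg_right _ (by linarith)
    have h5 : ((A.filter (fun x => f x ∈ G)).filter (fun x => f x = y)).card ≤ d := by
      refine le_trans (card_le_card ?_) (s.fib y hy'.1)
      exact filter_subset_filter _ (filter_subset _ _)
    exact_mod_cast h5
  have h4 : (d : ℝ) * ∑ y ∈ G, h y ≤ d * (7 * d * m) :=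
    mul_le_mul_of_nonneg_left htot (Nat.cast_nonneg _)
  linarith

/-- **the bound by means of averages** -/
theorem Sys.bound2 (s : Sys A f d J W bad inf E T h) (hJ : J + 1 = 960 * bad.card)
    (hd : 768000 * bad.card ^ 2 ≤ d)
    (hsplit : ∀ w ∈ bad, w ≠ inf → ∃ P P' : Finset α, P ∪ P' = A ∧ Disjoint P P' ∧
      A.card ≤ 4 * P.card ∧ A.card ≤ 4 * P'.card ∧ ∀ x ∈ P, ∀ y ∈ P', E w x y = 0)
    (hfar : ∀ x ∈ A, 3 * (A.filter (fun y => 3 / 2 < E inf x y)).card ≤ 2 * A.card + 1)
    {K : ℕ} (hcap : ∀ B ⊆ A, K < B.card → ∃ x ∈ B, ∃ y ∈ B, x ≠ y ∧ 24 < E inf x y) :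
    A.card ≤ 26880 * bad.card * d + 2 * K + 100 := by
  classical
  by_contra hcon
  push Not at hcon
  have hb1 : 1 ≤ bad.card := card_pos.2 ⟨inf, s.hinf⟩
  obtain ⟨S, hS⟩ : ∃ S : ℕ, S = bad.card := ⟨_, rfl⟩
  rw [← hS] at hJ hd hb1 hcon
  have hS2 : 1 ≤ S ^ 2 := Nat.one_le_pow _ _ hb1
  have hSS : S ≤ S ^ 2 := by nlinarith
  have hd1 : 1 ≤ d := by omega
  have hd200 : 200 * bad.card ≤ d := by rw [← hS]; omega
  obtain ⟨N, hN⟩ : ∃ N : ℕ, N = A.card := ⟨_, rfl⟩
  rw [← hN] at hcon
  have hSd : d ≤ S * d := Nat.le_mul_of_pos_left _ hb1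
  have hassoc : 26880 * S * d = 26880 * (S * d) := by ring
  rw [hassoc] at hcon
  have hN100 : 100 ≤ N := by omega
  have hN4d : 4 * d ≤ A.card := by omega
  -- `ν`
  obtain ⟨ν, hν⟩ : ∃ ν : ℕ, ν = 480 * S * d := ⟨_, rfl⟩
  have hνn : 2 * ν = (J + 1) * d := by rw [hν, hJ]; ring
  have hνSd : ν = 480 * (S * d) := by rw [hν]; ring
  have hν1 : 1 ≤ ν := by rw [hνSd]; omega
  have hAc : 4 * (2 * ν) ≤ A.card := by rw [hνSd]; omega
  -- reals
  have hSR : (1 : ℝ) ≤ S := by exact_mod_cast hb1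
  have hNR : (100 : ℝ) ≤ N := by exact_mod_cast hN100
  have hNpos : (0 : ℝ) < N := by linarith
  have hdR : 768000 * (S : ℝ) ^ 2 ≤ d := by exact_mod_cast hd
  have hdpos : (0 : ℝ) < d := by exact_mod_cast hd1
  have hνR : (ν : ℝ) = 480 * S * d := by rw [hν]; push_cast; ring
  have hJR : (J : ℝ) ≤ 960 * S := by
    have : ((J + 1 : ℕ) : ℝ) = ((960 * S : ℕ) : ℝ) := by rw [hJ]
    push_cast at this
    linarith
  have hconR : 26880 * ((S : ℝ) * d) ≤ N := by
    have : ((26880 * (S * d) : ℕ) : ℝ) ≤ (N : ℝ) := by exact_mod_cast (by omega : _ ≤ N)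
    push_cast at this
    exact this
  have hAN : (A.card : ℝ) = N := by rw [hN]
  have hbS : (bad.card : ℝ) = S := by rw [hS]
  set H : ℝ := ∑ x ∈ A, max (h x) 0 with hH
  have hH0 : 0 ≤ H := sum_nonneg fun x _ => le_max_right _ _
  -- the main claim
  have hclaim : H ≤ 4 * N := by
    by_contra hbig
    push Not at hbig
    set m : ℝ := 4 * H / N with hm
    have hNm : N * m = 4 * H := by rw [hm]; field_simp
    have hm16 : 16 ≤ m := by
      rw [hm, le_div_iff₀ hNpos]; linarith
    obtain ⟨L, hL, hLc, hL1, hL2⟩ := s.exists_low hd1 hN4d (by linarith : 0 < m)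
      (by rw [hAN, hNm])
    have him := s.image_sum (by linarith : 4 ≤ m) hL hLc hL1 hL2 hd200
    rw [hAN, hbS] at him
    set Gf : ℝ := ∑ x ∈ A, max (h (f x)) 0 with hGf
    have hGf0 : 0 ≤ Gf := sum_nonneg fun x _ => le_max_right _ _
    obtain ⟨lam, D⟩ := s.dets (Or.inr rfl : J = 1 ∨ J = J)
    -- the quantity `X`
    set X : ℝ := d * H + J * Gf with hX
    have hX3 : X ≤ 3 * (d * H) := by
      have h1 : (J : ℝ) * Gf ≤ 960 * S * Gf := mul_le_mul_of_nonneg_right hJR hGf0
      have h2 : 960 * (S : ℝ) * Gf ≤ 960 * S * (N * (200 * S * m) + d * (7 * d * m)) :=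
        mul_le_mul_of_nonneg_left him (by positivity)
      have h3 : 960 * (S : ℝ) * (N * (200 * S * m)) = 768000 * S ^ 2 * H := by
        have : 960 * (S : ℝ) * (N * (200 * S * m)) = 192000 * S ^ 2 * (N * m) := by ring
        rw [this, hNm]; ring
      have h4 : 768000 * (S : ℝ) ^ 2 * H ≤ d * H := mul_le_mul_of_nonneg_right hdR hH0
      have h5 : 960 * (S : ℝ) * (d * (7 * d * m)) ≤ d * H := by
        have h6 : 26880 * ((S : ℝ) * d) * (m * d / 4) ≤ N * (m * d / 4) :=
          mul_le_mul_of_nonneg_right hconR (by positivity)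
        have h7 : N * (m * d / 4) = d * H := by
          have : N * (m * d / 4) = (N * m) * d / 4 := by ring
          rw [this, hNm]; ring
        rw [h7] at h6
        linarith
      have h6 : 960 * (S : ℝ) * (N * (200 * S * m) + d * (7 * d * m)) =
          960 * (S : ℝ) * (N * (200 * S * m)) + 960 * (S : ℝ) * (d * (7 * d * m)) := by ring
      rw [hX]
      linarith
    have hX0 : 0 ≤ X := by positivity
    -- the factorial
    set err : ℝ := Real.log ((2 * ν).factorial) with herr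
    have herr0 : 0 ≤ err := log_factorial_nonneg _
    have hx0 : (0 : ℝ) < ((2 * ν : ℕ) : ℝ) := by exact_mod_cast (by omega : 0 < 2 * ν)
    have hlog := log_le_two_sqrt hx0
    set r : ℝ := Real.sqrt ((2 * ν : ℕ) : ℝ) with hr
    have hrr : r * r = 2 * ν := by
      rw [hr, Real.mul_self_sqrt hx0.le]; push_cast; ring
    have hr0 : 0 ≤ r := Real.sqrt_nonneg _
    have hrS : 20000 * (S : ℝ) ≤ r := by
      rw [hr]
      apply Real.le_sqrt_of_sq_le
      push_cast
      rw [hνR]
      have hS2R : (0 : ℝ) ≤ (S : ℝ) ^ 2 := by positivity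
      nlinarith
    have herr2 : err ≤ 4 * ν * r := by
      have h1 := log_factorial_le (2 * ν)
      rw [← herr] at h1
      push_cast at h1 hlog
      have : (2 * ν : ℝ) * Real.log (2 * ν) ≤ (2 * ν) * (2 * r) :=
        mul_le_mul_of_nonneg_left hlog (by positivity)
      linarith
    have hSerr : S * err ≤ (ν : ℝ) ^ 2 / 2500 := by
      have h1 : (S : ℝ) * err ≤ S * (4 * ν * r) := mul_le_mul_of_nonneg_left herr2 (by linarith)
      have h2 : 20000 * (S : ℝ) * (4 * ν * r) ≤ r * (4 * ν * r) :=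
        mul_le_mul_of_nonneg_right hrS (by positivity)
      have h3 : r * (4 * ν * r) = 8 * (ν : ℝ) ^ 2 := by
        have : r * (4 * ν * r) = 4 * ν * (r * r) := by ring
        rw [this, hrr]; ring
      rw [h3] at h2
      linarith
    -- the energies
    have htot : ∑ w ∈ W, en (E w) A = 2 * (N - 1) * ∑ x ∈ A, h x := by
      rw [sum_en]
      have h2 : en (fun x y => ∑ w ∈ W, E w x y) A = en (fun x y => h x + h y) A :=
        en_congr fun x hx y hy hxy => s.sumE x hx y hy hxy
      rw [h2, en_add, hAN]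
    have hpos := s.pos_part (by omega : 2 ≤ A.card)
    rw [hAN, ← hH] at hpos
    have hinf := s.en_inf_le hfar
    rw [hAN, ← hH] at hinf
    have hgood := s.en_good_le D hd1 hνn hν1 hAc
    rw [hAN, ← hH, ← hGf, ← hX, ← herr] at hgood
    have hbad : ∀ w ∈ bad.erase inf, (ν : ℝ) ^ 2 * en (E w) A ≤
        (N : ℝ) ^ 2 * (2 * ν * (4 / N) * X + 2 * err) := by
      intro w hw
      rw [mem_erase] at hw
      obtain ⟨P, P', h1, h2, h3, h4, h5⟩ := hsplit w hw.2 hw.1
      have := s.en_nonarch_le D hd1 hνn hν1 hAc hw.2 hw.1 h1 h2 h3 h4 h5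
      rw [hAN, ← hH, ← hGf, ← hX, ← herr] at this
      exact this
    have hbads := sum_le_card_nsmul _ _ _ hbad
    rw [nsmul_eq_mul, card_erase_of_mem s.hinf, Nat.cast_sub (card_pos.2 ⟨inf, s.hinf⟩),
      ← mul_sum, hbS] at hbads
    push_cast at hbads
    have hν2 : (0 : ℝ) < (ν : ℝ) ^ 2 := by
      have : (0 : ℝ) < ν := by exact_mod_cast hν1
      positivity
    have hsum : ∑ w ∈ W, en (E w) A = ∑ w ∈ W \ bad, en (E w) A +
        (en (E inf) A + ∑ w ∈ bad.erase inf, en (E w) A) := by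
      rw [← sum_sdiff s.hbad, add_sum_erase bad (fun w => en (E w) A) s.hinf]
    -- simplify the bounds
    have g1 : (N : ℝ) ^ 2 * (2 * ν * (1 / N) * X + err) = 2 * ν * N * X + N ^ 2 * err := by
      field_simp
    have g2 : (N : ℝ) ^ 2 * (2 * ν * (4 / N) * X + 2 * err) =
        8 * ν * N * X + 2 * N ^ 2 * err := by
      field_simp
      ring
    rw [g1] at hgood
    rw [g2] at hbads
    have g3 : (ν : ℝ) ^ 2 * (∑ w ∈ W \ bad, en (E w) A + ∑ w ∈ bad.erase inf, en (E w) A) ≤
        S * (8 * ν * N * X + 2 * N ^ 2 * err) := by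
      have h1 : 0 ≤ 6 * ν * N * X + N ^ 2 * err := by positivity
      linarith
    have g4 : (S : ℝ) * (8 * ν * N * X + 2 * N ^ 2 * err) ≤
        (ν : ℝ) ^ 2 * (N * H / 20 + N ^ 2 / 1000) := by
      have h1 : (S : ℝ) * (8 * ν * N * X) ≤ (ν : ℝ) ^ 2 * (N * H / 20) := by
        have h2 : (S : ℝ) * (8 * ν * N * X) ≤ S * (8 * ν * N * (3 * (d * H))) := by
          apply mul_le_mul_of_nonneg_left _ (by linarith)
          exact mul_le_mul_of_nonneg_left hX3 (by positivity)
        have h3 : (S : ℝ) * (8 * ν * N * (3 * (d * H))) = (480 * S * d) * (ν * (N * H / 20)) := by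
          ring
        rw [h3, ← hνR] at h2
        linarith
      have h4 : (S : ℝ) * (2 * N ^ 2 * err) ≤ (ν : ℝ) ^ 2 * (N ^ 2 / 1000) := by
        have h5 : (N : ℝ) ^ 2 * (S * err) ≤ N ^ 2 * ((ν : ℝ) ^ 2 / 2500) :=
          mul_le_mul_of_nonneg_left hSerr (by positivity)
        have h6 : 0 ≤ (N : ℝ) ^ 2 * (ν : ℝ) ^ 2 := by positivity
        linarith
      linarith
    have g5 := le_of_mul_le_mul_left (g3.trans g4) hν2
    -- the end
    have g6 : 2 * ((N : ℝ) - 2) * H ≤ 2 / 3 * (2 * N + 1) * H + 3 / 2 * N ^ 2 +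
        (N * H / 20 + N ^ 2 / 1000) := by
      rw [htot] at hsum
      linarith
    have g7 : (0 : ℝ) < N * N := by positivity
    have g8 : (100 : ℝ) * H ≤ N * H := mul_le_mul_of_nonneg_right hNR hH0
    have g9 : (4 : ℝ) * N * N < H * N := mul_lt_mul_of_pos_right hbig hNpos
    nlinarith
  -- many points of height at most `8`
  have hfew : 2 * (A.filter (fun x => 8 < h x)).card ≤ A.card := by
    have h1 := card_nsmul_le_sum (A.filter (fun x => 8 < h x)) (fun x => max (h x) 0) 8
      (fun x hx => (mem_filter.1 hx).2.le.trans (le_max_left _ _))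
    have h2 : ∑ x ∈ A.filter (fun x => 8 < h x), max (h x) 0 ≤ H :=
      sum_le_sum_of_subset_of_nonneg (filter_subset _ _) fun x _ _ => le_max_right _ _
    rw [nsmul_eq_mul] at h1
    have h3 : 2 * ((A.filter (fun x => 8 < h x)).card : ℝ) ≤ A.card := by
      rw [hAN]; linarith
    exact_mod_cast h3
  have hpart := card_filter_add_card_filter_not (s := A) (fun x => 8 < h x)
  obtain ⟨x, hx, y, hy, hxy, h1⟩ := hcap (A.filter (fun x => ¬ 8 < h x)) (filter_subset _ _)
    (by omega)
  rw [mem_filter] at hx hy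
  have h2 := s.pair_le hx.1 hy.1 hxy (s.hbad s.hinf)
  linarith [not_lt.1 hx.2, not_lt.1 hy.2]

end Pool.Agent.T6.H83.RM
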