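import Pool.Agent.TH856.PG.Maps

/-!
# Determinants attached to a pair of binary forms
-/

set_option autoImplicit false
set_option linter.unusedSectionVars false
set_option linter.unusedVariables false

namespace Pool.Agent.T6.H83.RM

open Finset MvPolynomial Matrix
open Pool.Agent.H892.PGR (nm Phi phi_smul)

section coefficients

variable {L : Type*} [CommRing L]

/-- exponent of a monomial of degree `n - 1` -/
noncomputable def mon {n : ℕ} (k : Fin n) : Fin 2 →₀ ℕ :=
  Finsupp.single 0 (k : ℕ) + Finsupp.single 1 (k.rev : ℕ)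

lemma mon_zero {n : ℕ} (k : Fin n) : mon k 0 = k := by simp [mon]

lemma mon_one {n : ℕ} (k : Fin n) : mon k 1 = k.rev := by simp [mon]

lemma mon_inj {n : ℕ} : Function.Injective (mon (n := n)) := by
  intro k l h
  have := DFunLike.congr_fun h 0
  rw [mon_zero, mon_zero] at this
  exact Fin.ext this

/-- coefficients of a binary form of degree `n - 1` -/
noncomputable def cfv (n : ℕ) (P : MvPolynomial (Fin 2) L) (k : Fin n) : L := P.coeff (mon k)

lemma eval_cfv {n m : ℕ} (hn : m + 1 = n) {P : MvPolynomial (Fin 2) L} (hP : P.IsHomogeneous m)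
    (v : Fin 2 → L) :
    eval v P = ∑ k : Fin n, cfv n P k * (v 0 ^ (k : ℕ) * v 1 ^ (k.rev : ℕ)) := by
  classical
  rw [eval_eq']
  have h1 : P.support ⊆ univ.image (mon (n := n)) := by
    intro s hs
    have h2 := Pool.Agent.TH856.PG.hom_deg hP hs
    rw [mem_image]
    refine ⟨⟨s 0, by omega⟩, mem_univ _, ?_⟩
    ext i
    fin_cases i
    · simp [mon]
    · simp only [mon, Fin.mk_one, Finsupp.add_apply, Fin.isValue, Finsupp.single_apply]
      simp only [Fin.val_rev]
      simp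
      omega
  rw [sum_subset h1 (fun s _ hs => by
    rw [notMem_support_iff.1 hs, zero_mul]), sum_image (fun k _ l _ h => mon_inj h)]
  refine sum_congr rfl fun k _ => ?_
  rw [Fin.prod_univ_two, mon_zero, mon_one]
  rfl

end coefficients

/-- the number of pairs -/
def tr (n : ℕ) : ℕ := ∑ i : Fin n, (Ioi i).card

lemma tr_mul_two (n : ℕ) : 2 * tr n = n * (n - 1) := by
  unfold tr
  have h1 : ∑ i : Fin n, (Ioi i).card = ∑ i ∈ range n, (n - 1 - i) := by
    rw [← Fin.sum_univ_eq_sum_range (fun i => n - 1 - i)]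
    exact sum_congr rfl fun i _ => by rw [Fin.card_Ioi]
  rw [h1, sum_range_reflect (fun i => i), mul_comm, sum_range_id_mul_two]

/-- the exponent of the determinant -/
def ex (J d : ℕ) : ℕ := tr (J + 1) * d + tr d * (J + 1)

section basic

variable {L : Type*} [CommRing L]

/-- the bracket of two vectors -/
def br (u v : Fin 2 → L) : L := u 0 * v 1 - u 1 * v 0

lemma br_mulVec (M : Matrix (Fin 2) (Fin 2) L) (u v : Fin 2 → L) :
    br (M.mulVec u) (M.mulVec v) = M.det * br u v := by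
  unfold br
  rw [Matrix.det_fin_two]
  simp only [Matrix.mulVec, dotProduct, Fin.sum_univ_two]
  ring

/-- the product of all brackets -/
noncomputable def VP {n : ℕ} (a : Fin n → Fin 2 → L) : L :=
  ∏ i : Fin n, ∏ j ∈ Ioi i, br (a j) (a i)

lemma det_pv {n : ℕ} (a : Fin n → Fin 2 → L) :
    (projVandermonde (fun i => a i 0) (fun i => a i 1)).det = VP a := by
  rw [det_projVandermonde]
  unfold VP
  refine prod_congr rfl fun i _ => prod_congr rfl fun j _ => ?_
  unfold br
  ring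

lemma VP_mulVec {n : ℕ} (M : Matrix (Fin 2) (Fin 2) L) (a : Fin n → Fin 2 → L) :
    VP (fun i => M.mulVec (a i)) = M.det ^ tr n * VP a := by
  unfold VP tr
  rw [← prod_pow_eq_pow_sum, ← prod_mul_distrib]
  refine prod_congr rfl fun i _ => ?_
  rw [← prod_const, ← prod_mul_distrib]
  exact prod_congr rfl fun j _ => br_mulVec M _ _

/-- the symmetric power of a matrix -/
noncomputable def Sm (M : Matrix (Fin 2) (Fin 2) L) (n : ℕ) : Matrix (Fin n) (Fin n) L :=
  Matrix.of fun k j => cfv n ((C (M 0 0) * X 0 + C (M 0 1) * X 1) ^ (j : ℕ) *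
    (C (M 1 0) * X 0 + C (M 1 1) * X 1) ^ (j.rev : ℕ)) k

lemma lin_hom2 (a b : L) : (C a * X 0 + C b * X 1 : MvPolynomial (Fin 2) L).IsHomogeneous 1 := by
  apply MvPolynomial.IsHomogeneous.add
  · simpa using (MvPolynomial.isHomogeneous_C (Fin 2) a).mul
      (MvPolynomial.isHomogeneous_X L (0 : Fin 2))
  · simpa using (MvPolynomial.isHomogeneous_C (Fin 2) b).mul
      (MvPolynomial.isHomogeneous_X L (1 : Fin 2))

lemma fin_rev_add {n : ℕ} (j : Fin n) : (j : ℕ) + (j.rev : ℕ) + 1 = n := by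
  rw [Fin.val_rev]
  omega

lemma Sm_apply (M : Matrix (Fin 2) (Fin 2) L) {n : ℕ} (a : Fin 2 → L) (j : Fin n) :
    (M.mulVec a 0) ^ (j : ℕ) * (M.mulVec a 1) ^ (j.rev : ℕ) =
      ∑ k : Fin n, (a 0 ^ (k : ℕ) * a 1 ^ (k.rev : ℕ)) * Sm M n k j := by
  have h1 : ((C (M 0 0) * X 0 + C (M 0 1) * X 1) ^ (j : ℕ) *
      (C (M 1 0) * X 0 + C (M 1 1) * X 1 : MvPolynomial (Fin 2) L) ^
        (j.rev : ℕ)).IsHomogeneous (1 * j + 1 * j.rev) :=
    ((lin_hom2 _ _).pow _).mul ((lin_hom2 _ _).pow _)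
  have h2 := eval_cfv (n := n) (by have := fin_rev_add j; omega) h1 a
  simp only [map_mul, map_pow, map_add, eval_C, eval_X] at h2
  have h3 : ∀ i, M.mulVec a i = M i 0 * a 0 + M i 1 * a 1 := fun i => by
    simp [Matrix.mulVec, dotProduct, Fin.sum_univ_two]
  rw [h3, h3, h2]
  refine sum_congr rfl fun k _ => ?_
  unfold Sm
  rw [Matrix.of_apply]
  ring

lemma pv_mul_Sm (M : Matrix (Fin 2) (Fin 2) L) {n : ℕ} (a : Fin n → Fin 2 → L) :
    projVandermonde (fun i => a i 0) (fun i => a i 1) * Sm M n =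
      projVandermonde (fun i => M.mulVec (a i) 0) (fun i => M.mulVec (a i) 1) := by
  ext i j
  rw [Matrix.mul_apply, projVandermonde_apply, Sm_apply]
  rfl

/-- the matrix of the products of monomials in `u` and in `v` -/
def TM (J d : ℕ) (u v : Fin (J + 1) × Fin d → Fin 2 → L) :
    Matrix (Fin (J + 1) × Fin d) (Fin (J + 1) × Fin d) L :=
  Matrix.of fun a c => (u a 0) ^ (c.1 : ℕ) * (u a 1) ^ (c.1.rev : ℕ) *
    ((v a 0) ^ (c.2 : ℕ) * (v a 1) ^ (c.2.rev : ℕ))

open Kronecker in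
lemma TM_mulVec (M : Matrix (Fin 2) (Fin 2) L) (J d : ℕ)
    (u v : Fin (J + 1) × Fin d → Fin 2 → L) :
    TM J d (fun a => M.mulVec (u a)) (fun a => M.mulVec (v a)) =
      TM J d u v * (Sm M (J + 1) ⊗ₖ Sm M d) := by
  ext a c
  obtain ⟨c1, c2⟩ := c
  rw [Matrix.mul_apply, Fintype.sum_prod_type]
  unfold TM
  simp only [Matrix.of_apply]
  rw [Sm_apply, Sm_apply, sum_mul_sum]
  refine sum_congr rfl fun k _ => sum_congr rfl fun l _ => ?_
  rw [Matrix.kroneckerMap_apply]
  ring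

lemma TM_smul (J d : ℕ) (c : L) (u v : Fin (J + 1) × Fin d → Fin 2 → L) :
    (TM J d (fun a => c • u a) v).det = c ^ (J * ((J + 1) * d)) * (TM J d u v).det := by
  have h1 : TM J d (fun a => c • u a) v = c ^ J • TM J d u v := by
    ext a b
    unfold TM
    simp only [Matrix.of_apply, Pi.smul_apply, smul_eq_mul, Matrix.smul_apply, mul_pow]
    have : c ^ J = c ^ (b.1 : ℕ) * c ^ (b.1.rev : ℕ) := by
      rw [← pow_add]
      congr 1
      have := fin_rev_add b.1
      omega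
    rw [this]
    ring
  rw [h1, Matrix.det_smul, Fintype.card_prod, Fintype.card_fin, Fintype.card_fin, ← pow_mul]

/-- the coefficients of the products -/
noncomputable def Cm (F G : MvPolynomial (Fin 2) L) (J d : ℕ) :
    Matrix (Fin (J + 1) × Fin d) (Fin (J + 1) × Fin d) L :=
  Matrix.of fun a c => cfv ((J + 1) * d) (F ^ (c.1 : ℕ) * G ^ (c.1.rev : ℕ) *
    (X 0 ^ (c.2 : ℕ) * X 1 ^ (c.2.rev : ℕ))) (finProdFinEquiv a)

/-- the resultant of the pair of forms -/
noncomputable def Lam (F G : MvPolynomial (Fin 2) L) (J d : ℕ) : L := (Cm F G J d).det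

lemma col_hom {F G : MvPolynomial (Fin 2) L} {d : ℕ} (hF : F.IsHomogeneous d)
    (hG : G.IsHomogeneous d) {J : ℕ} (c : Fin (J + 1) × Fin d) :
    (F ^ (c.1 : ℕ) * G ^ (c.1.rev : ℕ) *
      (X 0 ^ (c.2 : ℕ) * X 1 ^ (c.2.rev : ℕ))).IsHomogeneous ((J + 1) * d - 1) := by
  have h1 := ((hF.pow (c.1 : ℕ)).mul (hG.pow (c.1.rev : ℕ))).mul
    ((MvPolynomial.isHomogeneous_X_pow (R := L) (0 : Fin 2) (c.2 : ℕ)).mul
      (MvPolynomial.isHomogeneous_X_pow (R := L) (1 : Fin 2) (c.2.rev : ℕ)))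
  have h2 := fin_rev_add c.1
  have h3 := fin_rev_add c.2
  have h4 : d * (c.1 : ℕ) + d * (c.1.rev : ℕ) + ((c.2 : ℕ) + (c.2.rev : ℕ)) = (J + 1) * d - 1 := by
    have h5 : d * (c.1 : ℕ) + d * (c.1.rev : ℕ) = J * d := by
      rw [← mul_add, show (c.1 : ℕ) + (c.1.rev : ℕ) = J by omega, mul_comm]
    rw [h5, add_mul, one_mul]
    omega
  rwa [h4] at h1

lemma card_pos' {J d : ℕ} (c : Fin (J + 1) × Fin d) : (J + 1) * d - 1 + 1 = (J + 1) * d := by
  have hd : 0 < d := by have := c.2.2; omega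
  have : 0 < (J + 1) * d := Nat.mul_pos (Nat.succ_pos _) hd
  omega

lemma TM_phi {F G : MvPolynomial (Fin 2) L} {d : ℕ} (hF : F.IsHomogeneous d)
    (hG : G.IsHomogeneous d) (J : ℕ) (x : Fin ((J + 1) * d) → Fin 2 → L) :
    TM J d (fun a => Phi F G (x (finProdFinEquiv a))) (fun a => x (finProdFinEquiv a)) =
      (projVandermonde (fun i => x i 0) (fun i => x i 1)).submatrix finProdFinEquiv
        finProdFinEquiv * Cm F G J d := by
  ext a c
  rw [Matrix.mul_apply]
  simp only [Matrix.submatrix_apply, projVandermonde_apply]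
  unfold Cm TM
  simp only [Matrix.of_apply]
  rw [Equiv.sum_comp finProdFinEquiv (fun k => x (finProdFinEquiv a) 0 ^ (k : ℕ) *
    x (finProdFinEquiv a) 1 ^ (k.rev : ℕ) * cfv ((J + 1) * d)
      (F ^ (c.1 : ℕ) * G ^ (c.1.rev : ℕ) * (X 0 ^ (c.2 : ℕ) * X 1 ^ (c.2.rev : ℕ))) k)]
  have h2 := eval_cfv (card_pos' c) (col_hom hF hG c) (x (finProdFinEquiv a))
  simp only [map_mul, map_pow, eval_X] at h2
  have h3 : Phi F G (x (finProdFinEquiv a)) 0 = eval (x (finProdFinEquiv a)) F := rfl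
  have h4 : Phi F G (x (finProdFinEquiv a)) 1 = eval (x (finProdFinEquiv a)) G := rfl
  rw [h3, h4, h2]
  exact sum_congr rfl fun k _ => by ring

lemma det_TM_phi {F G : MvPolynomial (Fin 2) L} {d : ℕ} (hF : F.IsHomogeneous d)
    (hG : G.IsHomogeneous d) (J : ℕ) (x : Fin ((J + 1) * d) → Fin 2 → L) :
    (TM J d (fun a => Phi F G (x (finProdFinEquiv a))) (fun a => x (finProdFinEquiv a))).det =
      VP x * Lam F G J d := by
  rw [TM_phi hF hG, Matrix.det_mul, Matrix.det_submatrix_equiv_self, det_pv]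
  rfl

end basic

section field

variable {L : Type*} [Field L]

/-- test points -/
def tp (L : Type*) [Field L] {n : ℕ} (i : Fin n) : Fin 2 → L := ![((i : ℕ) : L), 1]

lemma VP_tp [CharZero L] (n : ℕ) : VP (tp L (n := n)) ≠ 0 := by
  unfold VP
  rw [prod_ne_zero_iff]
  intro i _
  rw [prod_ne_zero_iff]
  intro j hj
  rw [mem_Ioi] at hj
  unfold br tp
  simp only [Matrix.cons_val_zero, Matrix.cons_val_one, mul_one, one_mul]
  rw [sub_ne_zero]
  intro h
  have : (j : ℕ) = (i : ℕ) := by exact_mod_cast h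
  exact (ne_of_gt hj) (Fin.ext this)

lemma det_Sm [CharZero L] (M : Matrix (Fin 2) (Fin 2) L) (n : ℕ) :
    (Sm M n).det = M.det ^ tr n := by
  have h1 := congrArg Matrix.det (pv_mul_Sm M (tp L (n := n)))
  rw [Matrix.det_mul, det_pv, det_pv (fun i => M.mulVec (tp L i)), VP_mulVec] at h1
  have h2 := VP_tp (L := L) n
  have h3 : VP (tp L (n := n)) * (Sm M n).det = VP (tp L (n := n)) * M.det ^ tr n := by
    rw [h1]; ring
  exact mul_left_cancel₀ h2 h3

lemma det_TM_mulVec [CharZero L] (M : Matrix (Fin 2) (Fin 2) L) (J d : ℕ)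
    (u v : Fin (J + 1) × Fin d → Fin 2 → L) :
    (TM J d (fun a => M.mulVec (u a)) (fun a => M.mulVec (v a))).det =
      M.det ^ ex J d * (TM J d u v).det := by
  rw [TM_mulVec, Matrix.det_mul, Matrix.det_kronecker, det_Sm, det_Sm, Fintype.card_fin,
    Fintype.card_fin, ← pow_mul, ← pow_mul, ← pow_add]
  unfold ex
  ring

end field

end Pool.Agent.T6.H83.RM
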