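import Pool.Agent.T6.H83.RM.Con10
import Pool.Agent.T6.H83.RM.Abs9

/-!
# The linear bound for maps of large degree, and the bound in all degrees
-/

set_option autoImplicit false
set_option linter.unusedSectionVars false
set_option linter.unusedVariables false

namespace Pool.Agent.T6.H83.RM

open Finset MvPolynomial
open Pool.Agent.H892.PGR (nm nm_pos nm_smul Phi)
open Pool.Agent.H892.PGK (PotGood PP fX fX_mk br_zero_iff)
open Pool.Agent.TH856.PG (Pr qav qav_eq NoZero phi_ne_zero)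

theorem big_degree2 : ∃ C : ℕ, ∀ (d : ℕ) (F G : MvPolynomial (Fin 2) ℚ) (_ : F.IsHomogeneous d)
    (_ : G.IsHomogeneous d) (h0 : NoZero F G) (Bd : Finset Pr)
    (_ : ∀ p ∉ Bd, PotGood (qav p) F G d) (_ : 768000 * (Bd.card + 1) ^ 2 ≤ d)
    (A : Finset (PP ℚ)) (_ : ∀ P ∈ A, fX F G (phi_ne_zero h0) P ∈ A),
    A.card ≤ C * ((Bd.card + 1) * d) := by
  classical
  obtain ⟨q, hq⟩ := exists_nat_gt (2 * Real.exp 24)
  have hexp : 0 < Real.exp 24 := Real.exp_pos _
  have hq0R : (0 : ℝ) < q := by linarith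
  have hq0 : 0 < q := by exact_mod_cast hq0R
  set K : ℕ := (2 * q + 1) ^ 2 with hK
  refine ⟨26880 + 2 * K + 100, ?_⟩
  intro d F G hF hG h0 Bd hp hd A hA
  obtain ⟨S, hS⟩ : ∃ S : ℕ, S = Bd.card + 1 := ⟨_, rfl⟩
  rw [← hS] at hd ⊢
  have hS1 : 1 ≤ S := by omega
  have hS2 : 1 ≤ S ^ 2 := Nat.one_le_pow _ _ hS1
  have hd1 : 1 ≤ d := by omega
  have hSd : 1 ≤ S * d := Nat.mul_pos hS1 hd1
  have hfinC : 26880 * S * d + 2 * K + 100 ≤ (26880 + 2 * K + 100) * (S * d) := by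
    have h1 : 2 * K + 100 ≤ (2 * K + 100) * (S * d) := Nat.le_mul_of_pos_right _ hSd
    have h2 : (26880 + 2 * K + 100) * (S * d) = 26880 * S * d + (2 * K + 100) * (S * d) := by ring
    omega
  by_cases hA2 : A.card < 2
  · refine le_trans ?_ hfinC
    omega
  push Not at hA2
  refine le_trans ?_ hfinC
  set r : PP ℚ → Fin 2 → ℚ := fun x => x.rep with hr
  have hr0 : ∀ x ∈ A, r x ≠ 0 := fun x _ => x.rep_nonzero
  have hbr : ∀ x ∈ A, ∀ y ∈ A, x ≠ y → br (r x) (r y) ≠ 0 := fun x _ y _ hxy => br_rep_ne hxy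
  obtain ⟨M, hM, hfar⟩ := exists_frame_arch A r hr0 hbr hA2
  set u : PP ℚ → Fin 2 → ℝ := fun x => un M (r x) with hu
  have hu1 : ∀ x ∈ A, en2 (u x) = 1 := fun x hx => en2_un hM (hr0 x hx)
  -- the local data
  have hfr : ∀ p : Pr, ∃ M' : Matrix (Fin 2) (Fin 2) ℚ, M'.det ≠ 0 ∧ ∀ x ∈ A,
      2 * (A.filter (fun y => y = x ∨ 0 < lE (qav p) (lQ p M') (r x) (r y))).card ≤ A.card :=
    fun p => exists_frame_nonarch p A r hr0 hbr hA2
  choose Mp hMp1 hMp2 using hfr
  have hl : ∀ p : Pr, ∃ l' : (Fin 2 → ℚ) → ℝ, (p ∈ Bd → l' = lQ p (Mp p)) ∧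
      (p ∉ Bd → GoodData (qav p) F G d l') := by
    intro p
    by_cases hpb : p ∈ Bd
    · exact ⟨lQ p (Mp p), fun _ => rfl, fun h => absurd hpb h⟩
    · obtain ⟨l', hl'⟩ := exists_goodData hd1 hF hG (hp p hpb)
      exact ⟨l', fun h => absurd h hpb, fun _ => hl'⟩
  choose lp hlp1 hlp2 using hl
  set l : Option Pr → (Fin 2 → ℚ) → ℝ := fun w => w.elim (lR M) lp with hl
  obtain ⟨J, hJ⟩ : ∃ J : ℕ, J + 1 = 960 * S := ⟨960 * S - 1, by omega⟩
  obtain ⟨W, T, h, hsys⟩ := exists_sys hd1 hF hG h0 Bd l (badData_arch hd1 hF hG hM)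
    (fun p hpb => by
      have : l (some p) = lQ p (Mp p) := hlp1 p hpb
      rw [this]
      exact badData_nonarch hd1 hF hG p (hMp1 p))
    (fun p hpb => hlp2 p hpb) A hA J
  have hbc : (insertNone Bd).card = S := by rw [card_insertNone, hS]
  have hEinf : ∀ x ∈ A, ∀ y ∈ A, x ≠ y →
      lE (aw none) (l none) x.rep y.rep = -Real.log |br (u x) (u y)| := by
    intro x hx y hy hxy
    exact lE_arch hM (hr0 x hx) (hr0 y hy) (hbr x hx y hy hxy)
  have hupos : ∀ x ∈ A, ∀ y ∈ A, x ≠ y → 0 < |br (u x) (u y)| := by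
    intro x hx y hy hxy
    exact br_un_ne hM (hr0 x hx) (hr0 y hy) (hbr x hx y hy hxy)
  have hfinal := hsys.bound2 (by rw [hbc]; exact hJ) (by rw [hbc]; exact hd) ?_ ?_ (K := K) ?_
  · rw [hbc] at hfinal
    exact hfinal
  · -- splitting at the bad primes
    intro w hw hwn
    rcases w with _ | p
    · exact absurd rfl hwn
    · have hpb : p ∈ Bd := some_mem_insertNone.1 hw
      have e1 : l (some p) = lQ p (Mp p) := hlp1 p hpb
      have hwid : ∀ q : ℚ, qav p ((RingHom.id ℚ) q) = qav p q := fun q => rfl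
      have hs := exists_split (fun x y : PP ℚ => lE (qav p) (lQ p (Mp p)) x.rep y.rep) A
        (fun x y => lE_symm _ _ _ _)
        (fun x hx y hy hxy => lE_nonneg _ (qav_na p) hwid (hMp1 p) (hr0 x hx)
          (hr0 y hy) (hbr x hx y hy hxy))
        (fun x hx y hy z hz hxy hyz hxz => lE_ultra _ (qav_na p) hwid (hMp1 p) (hr0 x hx)
          (hr0 y hy) (hr0 z hz) (hbr x hx y hy hxy)
          (hbr y hy z hz hyz) (hbr x hx z hz hxz))
        (fun x hx => hMp2 p x hx)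
      rw [e1]
      exact hs
  · -- the archimedean place
    intro x hx
    refine le_trans (Nat.mul_le_mul_left _ (card_le_card ?_)) (hfar x hx)
    intro y hy
    rw [mem_filter] at hy ⊢
    refine ⟨hy.1, ?_⟩
    by_cases hxy : x = y
    · rw [hxy]
      have : br (un M (r y)) (un M (r y)) = 0 := by unfold br; ring
      rw [this]
      norm_num
    · have h1 := hy.2
      rw [hEinf x hx y hy.1 hxy] at h1
      have h2 := hupos x hx y hy.1 hxy
      by_contra h3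
      push Not at h3
      have h4 := Real.log_le_log (by norm_num) h3.le
      rw [Real.log_div one_ne_zero (by norm_num), Real.log_one] at h4
      have h5 : Real.log 4 = 2 * Real.log 2 := by
        rw [show (4 : ℝ) = 2 ^ 2 by norm_num, Real.log_pow]
        norm_num
      have h6 := Real.log_two_lt_d9
      have h7 : Real.log |br (u x) (u y)| = Real.log |br (un M (r x)) (un M (r y))| := rfl
      linarith
  · -- close points
    intro B hB hBc
    have hBpos : 0 < B.card := by omega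
    obtain ⟨y₀, hy₀, h1⟩ := grid q hq0 B (card_pos.1 hBpos) u (fun x hx => hu1 x (hB hx))
    have h2 : 1 < (B.filter (fun x => |br (u y₀) (u x)| ≤ 2 / q)).card := by
      by_contra h3
      push Not at h3
      have : B.card ≤ K * 1 := h1.trans (Nat.mul_le_mul_left _ h3)
      omega
    obtain ⟨y, hy, hyy⟩ := exists_mem_ne h2 y₀
    rw [mem_filter] at hy
    refine ⟨y₀, hy₀, y, hy.1, Ne.symm hyy, ?_⟩
    rw [hEinf y₀ (hB hy₀) y (hB hy.1) (Ne.symm hyy)]
    have h3 := hupos y₀ (hB hy₀) y (hB hy.1) (Ne.symm hyy)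
    have h4 : |br (u y₀) (u y)| < Real.exp (-24) := by
      refine lt_of_le_of_lt hy.2 ?_
      rw [Real.exp_neg, div_lt_iff₀ hq0R, inv_mul_eq_div, lt_div_iff₀ hexp]
      exact hq
    have h5 := Real.log_lt_log h3 h4
    rw [Real.log_exp] at h5
    linarith

theorem all_degrees2 : ∃ C : ℕ, ∀ (d : ℕ) (_ : 2 ≤ d) (F G : MvPolynomial (Fin 2) ℚ)
    (_ : F.IsHomogeneous d)
    (_ : G.IsHomogeneous d) (h0 : NoZero F G) (Bd : Finset Pr)
    (_ : ∀ p ∉ Bd, PotGood (qav p) F G d)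
    (A : Finset (PP ℚ)) (_ : ∀ P ∈ A, fX F G (phi_ne_zero h0) P ∈ A),
    A.card ≤ C * ((Bd.card + 1) ^ 3 * d) := by
  obtain ⟨C, hC⟩ := big_degree2
  refine ⟨C * 768000, ?_⟩
  intro d hd F G hF hG h0 Bd hp A hA
  obtain ⟨S, hS⟩ : ∃ S : ℕ, S = Bd.card + 1 := ⟨_, rfl⟩
  have hS2 : 1 ≤ S ^ 2 := Nat.one_le_pow _ _ (by omega)
  obtain ⟨k, hk1, hk2⟩ := exists_pow d (768000 * S ^ 2) hd (by omega)
  have hinv : ∀ P ∈ A, ∀ n : ℕ, (fX F G (phi_ne_zero h0))^[n] P ∈ A := by
    intro P hP n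
    induction n with
    | zero => exact hP
    | succ n ih =>
      rw [Function.iterate_succ_apply']
      exact hA _ ih
  have h1 := hC (d ^ k) (It F G k 0) (It F G k 1) (It_hom hF hG k 0) (It_hom hF hG k 1)
    (It_noZero h0 k) Bd (fun p hpb => potGood_It (hp p hpb) k) (by rw [← hS]; exact hk1) A
    (fun P hP => by
      rw [fX_It hF hG h0 k]
      exact hinv P hP k)
  rw [← hS] at h1 ⊢
  calc A.card ≤ C * (S * d ^ k) := h1
    _ ≤ C * (S * (768000 * S ^ 2 * d)) :=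
        Nat.mul_le_mul_left _ (Nat.mul_le_mul_left _ hk2)
    _ = C * 768000 * (S ^ 3 * d) := by ring

end Pool.Agent.T6.H83.RM
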