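import Pool.Agent.T6.H83.RM.Con1

/-!
# The local inequalities for the determinants
-/

set_option autoImplicit false
set_option linter.unusedSectionVars false
set_option linter.unusedVariables false

namespace Pool.Agent.T6.H83.RM

open Finset MvPolynomial Matrix
open Pool.Agent.H892.PGR (nm Phi phi_smul nm_pos nm_smul sum_le)

section bounds

variable {L : Type*} [Field L] (w : AbsoluteValue L ℝ) {ρ : Type*} [Fintype ρ] [DecidableEq ρ]

lemma abv_sign_smul (σ : Equiv.Perm ρ) (x : L) :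
    w ((Equiv.Perm.sign σ : ℤˣ) • x) = w x := by
  rcases Int.units_eq_one_or (Equiv.Perm.sign σ) with h | h <;> rw [h] <;> simp

lemma det_le_fact (A : Matrix ρ ρ L) (c : ρ → ℝ) (hc : ∀ a b, w (A a b) ≤ c a) :
    w A.det ≤ (Fintype.card ρ).factorial * ∏ a, c a := by
  rw [← Matrix.det_transpose, Matrix.det_apply]
  refine (w.sum_le _ _).trans ?_
  calc ∑ σ : Equiv.Perm ρ, w ((Equiv.Perm.sign σ : ℤˣ) • ∏ i, Aᵀ (σ i) i)
      ≤ ∑ σ : Equiv.Perm ρ, ∏ a, c a := by
        refine sum_le_sum fun σ _ => ?_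
        rw [abv_sign_smul, map_prod]
        exact prod_le_prod (fun j _ => w.nonneg _) fun j _ => hc _ _
    _ = _ := by
        rw [sum_const, card_univ, Fintype.card_perm, nsmul_eq_mul]

lemma det_le_ultra (hna : ∀ x y : L, w (x + y) ≤ max (w x) (w y)) (A : Matrix ρ ρ L) (c : ρ → ℝ)
    (hc : ∀ a b, w (A a b) ≤ c a) : w A.det ≤ ∏ a, c a := by
  rw [← Matrix.det_transpose, Matrix.det_apply]
  apply sum_le w hna
  · exact prod_nonneg fun a _ => (w.nonneg _).trans (hc a a)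
  · intro σ _
    rw [abv_sign_smul, map_prod]
    exact prod_le_prod (fun j _ => w.nonneg _) fun j _ => hc _ _

lemma pow_mul_pow_le {a b c : ℝ} (ha : 0 ≤ a) (hb : 0 ≤ b) (hac : a ≤ c) (hbc : b ≤ c) {j k n : ℕ}
    (h : j + k = n) : a ^ j * b ^ k ≤ c ^ n := by
  rw [← h, pow_add]
  exact mul_le_mul (pow_le_pow_left₀ ha hac _) (pow_le_pow_left₀ hb hbc _) (by positivity)
    (by have := ha.trans hac; positivity)

lemma TM_le {J d : ℕ} (nrm : (Fin 2 → L) → ℝ) (hn : ∀ u i, w (u i) ≤ nrm u)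
    (u v : Fin (J + 1) × Fin d → Fin 2 → L) (a b : Fin (J + 1) × Fin d) :
    w (TM J d u v a b) ≤ nrm (u a) ^ J * nrm (v a) ^ (d - 1) := by
  unfold TM
  rw [Matrix.of_apply, map_mul, map_mul, map_mul, map_pow, map_pow, map_pow, map_pow]
  have h1 := fin_rev_add b.1
  have h2 := fin_rev_add b.2
  have h0 : ∀ u, 0 ≤ nrm u := fun u => (w.nonneg _).trans (hn u 0)
  apply mul_le_mul
  · exact pow_mul_pow_le (w.nonneg _) (w.nonneg _) (hn _ _) (hn _ _) (by omega)
  · exact pow_mul_pow_le (w.nonneg _) (w.nonneg _) (hn _ _) (hn _ _) (by omega)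
  · have := w.nonneg (v a 0)
    have := w.nonneg (v a 1)
    positivity
  · exact pow_nonneg (h0 _) _

end bounds

section change

variable {K L : Type*} [Field K] [Field L] (φ : K →+* L)

/-- the image of a vector -/
def im (v : Fin 2 → K) : Fin 2 → L := fun i => φ (v i)

lemma im_smul (c : K) (v : Fin 2 → K) : im φ (c • v) = φ c • im φ v := by
  ext i; simp [im]

lemma im_ne_zero {v : Fin 2 → K} (hv : v ≠ 0) : im φ v ≠ 0 := by
  intro h
  apply hv
  ext i
  have := congrFun h i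
  exact (map_eq_zero φ).1 this

lemma br_im (u v : Fin 2 → K) : br (im φ u) (im φ v) = φ (br u v) := by
  simp [br, im]

lemma VP_im {n : ℕ} (x : Fin n → Fin 2 → K) : VP (fun i => im φ (x i)) = φ (VP x) := by
  unfold VP
  rw [map_prod]
  refine prod_congr rfl fun i _ => ?_
  rw [map_prod]
  exact prod_congr rfl fun j _ => br_im φ _ _

lemma TM_im {J d : ℕ} (u v : Fin (J + 1) × Fin d → Fin 2 → K) :
    (TM J d (fun a => im φ (u a)) (fun a => im φ (v a))).det = φ (TM J d u v).det := by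
  rw [RingHom.map_det]
  congr 1
  ext a b
  simp [TM, im, RingHom.mapMatrix_apply]

lemma Phi_im (F G : MvPolynomial (Fin 2) K) (v : Fin 2 → K) :
    Phi (F.map φ) (G.map φ) (im φ v) = im φ (Phi F G v) := by
  have key : ∀ H : MvPolynomial (Fin 2) K, eval (im φ v) (H.map φ) = φ (eval v H) := by
    intro H
    rw [eval_map]
    exact (eval₂_comp φ v H).symm
  ext i
  unfold Phi im
  fin_cases i
  · exact key F
  · exact key G

lemma mulVec_ne_zero {M : Matrix (Fin 2) (Fin 2) L} (hM : M.det ≠ 0) {v : Fin 2 → L}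
    (hv : v ≠ 0) : M.mulVec v ≠ 0 := fun h => hv (Matrix.eq_zero_of_mulVec_eq_zero hM h)

/-- the multiplicative form of the local inequality -/
lemma local_mul [CharZero L] (w : AbsoluteValue L ℝ) (M : Matrix (Fin 2) (Fin 2) L)
    (nrm : (Fin 2 → L) → ℝ) (hn : ∀ u i, w (u i) ≤ nrm u) {J d : ℕ} (κ : ℝ)
    (hκ : ∀ (A : Matrix (Fin (J + 1) × Fin d) (Fin (J + 1) × Fin d) L)
      (c : Fin (J + 1) × Fin d → ℝ), (∀ a b, w (A a b) ≤ c a) → w A.det ≤ κ * ∏ a, c a)
    {F G : MvPolynomial (Fin 2) K} (hF : F.IsHomogeneous d) (hG : G.IsHomogeneous d)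
    (x : Fin ((J + 1) * d) → Fin 2 → K) :
    w M.det ^ ex J d * w (φ (VP x * Lam F G J d)) ≤
      κ * ∏ i, (nrm (M.mulVec (im φ (Phi F G (x i)))) ^ J *
        nrm (M.mulVec (im φ (x i))) ^ (d - 1)) := by
  have h1 := det_TM_mulVec M J d
    (fun a => im φ (Phi F G (x (finProdFinEquiv a)))) (fun a => im φ (x (finProdFinEquiv a)))
  rw [TM_im, det_TM_phi hF hG] at h1
  have h2 := hκ _ (fun a => nrm (M.mulVec (im φ (Phi F G (x (finProdFinEquiv a))))) ^ J *
    nrm (M.mulVec (im φ (x (finProdFinEquiv a)))) ^ (d - 1))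
    (TM_le w nrm hn (fun a => M.mulVec (im φ (Phi F G (x (finProdFinEquiv a)))))
      (fun a => M.mulVec (im φ (x (finProdFinEquiv a)))))
  rw [h1, map_mul, map_pow] at h2
  rw [Equiv.prod_comp finProdFinEquiv (fun i => nrm (M.mulVec (im φ (Phi F G (x i)))) ^ J *
    nrm (M.mulVec (im φ (x i))) ^ (d - 1))] at h2
  exact h2

/-- the logarithm of the normalised norm -/
noncomputable def lN (w : AbsoluteValue L ℝ) (M : Matrix (Fin 2) (Fin 2) L)
    (nrm : (Fin 2 → L) → ℝ) (v : Fin 2 → K) : ℝ :=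
  Real.log (nrm (M.mulVec (im φ v))) - Real.log (w M.det) / 2

lemma ex_two (J d : ℕ) : (2 * ex J d : ℝ) = ((J : ℝ) + 1) * d * (J + d - 1) := by
  have h1 := tr_mul_two (J + 1)
  have h2 := tr_mul_two d
  have h3 : (2 * tr (J + 1) : ℝ) = (J + 1) * J := by
    have : ((2 * tr (J + 1) : ℕ) : ℝ) = (((J + 1) * (J + 1 - 1) : ℕ) : ℝ) := by rw [h1]
    push_cast at this
    simpa using this
  have h4 : (2 * tr d : ℝ) = d * (d - 1) := by
    rcases Nat.eq_zero_or_pos d with rfl | hd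
    · simp [tr]
    · have : ((2 * tr d : ℕ) : ℝ) = ((d * (d - 1) : ℕ) : ℝ) := by rw [h2]
      push_cast [Nat.cast_sub hd] at this
      simpa using this
  unfold ex
  push_cast
  linear_combination d * h3 + (J + 1) * h4

lemma local_log [CharZero L] (w : AbsoluteValue L ℝ) (M : Matrix (Fin 2) (Fin 2) L)
    (hM : M.det ≠ 0)
    (nrm : (Fin 2 → L) → ℝ) (hn : ∀ u i, w (u i) ≤ nrm u) {J d : ℕ} (hd : 1 ≤ d) {κ : ℝ}
    (hκ0 : 0 < κ)
    (hκ : ∀ (A : Matrix (Fin (J + 1) × Fin d) (Fin (J + 1) × Fin d) L)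
      (c : Fin (J + 1) × Fin d → ℝ), (∀ a b, w (A a b) ≤ c a) → w A.det ≤ κ * ∏ a, c a)
    {F G : MvPolynomial (Fin 2) K} (hF : F.IsHomogeneous d) (hG : G.IsHomogeneous d)
    (hL : Lam F G J d ≠ 0)
    (x : Fin ((J + 1) * d) → Fin 2 → K) (hx : VP x ≠ 0) (hx0 : ∀ i, x i ≠ 0)
    (hx1 : ∀ i, Phi F G (x i) ≠ 0) :
    Real.log (w (φ (VP x))) + Real.log (w (φ (Lam F G J d))) ≤
      Real.log κ + J * ∑ i, lN φ w M nrm (Phi F G (x i)) + (d - 1) * ∑ i, lN φ w M nrm (x i) := by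
  have h1 := local_mul φ w M nrm hn κ hκ hF hG x
  have hpos : ∀ v : Fin 2 → K, v ≠ 0 → 0 < nrm (M.mulVec (im φ v)) := by
    intro v hv
    have h2 := mulVec_ne_zero hM (im_ne_zero φ hv)
    obtain ⟨i, hi⟩ : ∃ i, M.mulVec (im φ v) i ≠ 0 := by
      by_contra h3
      push Not at h3
      exact h2 (funext h3)
    exact lt_of_lt_of_le (w.pos hi) (hn _ i)
  have hM0 : 0 < w M.det := w.pos hM
  have hV0 : 0 < w (φ (VP x)) := w.pos ((map_ne_zero φ).2 hx)
  have hL0 : 0 < w (φ (Lam F G J d)) := w.pos ((map_ne_zero φ).2 hL)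
  rw [map_mul, map_mul] at h1
  have h2 := Real.log_le_log (by positivity) h1
  have hprod : 0 < ∏ i, (nrm (M.mulVec (im φ (Phi F G (x i)))) ^ J *
        nrm (M.mulVec (im φ (x i))) ^ (d - 1)) := by
    refine prod_pos fun i _ => ?_
    have := hpos _ (hx0 i)
    have := hpos _ (hx1 i)
    positivity
  rw [Real.log_mul (by positivity) (by positivity), Real.log_mul hV0.ne' hL0.ne',
    Real.log_pow, Real.log_mul hκ0.ne' hprod.ne', Real.log_prod (fun i _ => by
      have := hpos _ (hx0 i)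
      have := hpos _ (hx1 i)
      positivity)] at h2
  have h3 : ∀ i ∈ (univ : Finset (Fin ((J + 1) * d))),
      Real.log (nrm (M.mulVec (im φ (Phi F G (x i)))) ^ J *
        nrm (M.mulVec (im φ (x i))) ^ (d - 1)) =
      (J * lN φ w M nrm (Phi F G (x i)) + (d - 1) * lN φ w M nrm (x i)) +
        (J + d - 1) / 2 * Real.log (w M.det) := by
    intro i _
    have e1 := hpos _ (hx0 i)
    have e2 := hpos _ (hx1 i)
    rw [Real.log_mul (by positivity) (by positivity), Real.log_pow, Real.log_pow]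
    unfold lN
    rw [Nat.cast_sub hd]
    push_cast
    ring
  rw [sum_congr rfl h3, sum_add_distrib, sum_const, card_univ, Fintype.card_fin, nsmul_eq_mul,
    sum_add_distrib, ← mul_sum, ← mul_sum] at h2
  have h4 := ex_two J d
  push_cast at h2
  have h5 : (ex J d : ℝ) * Real.log (w M.det) =
      ((J : ℝ) + 1) * d * ((J + d - 1) / 2 * Real.log (w M.det)) := by
    linear_combination Real.log (w M.det) / 2 * h4
  rw [h5] at h2
  linarith

lemma lN_smul {nrm : (Fin 2 → L) → ℝ} {w : AbsoluteValue L ℝ} {M : Matrix (Fin 2) (Fin 2) L}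
    (hsm : ∀ (c : L) (u : Fin 2 → L), nrm (c • u) = w c * nrm u) (c : K) (hc : c ≠ 0)
    (v : Fin 2 → K) (hv : 0 < nrm (M.mulVec (im φ v))) :
    lN φ w M nrm (c • v) = Real.log (w (φ c)) + lN φ w M nrm v := by
  unfold lN
  rw [im_smul, Matrix.mulVec_smul, hsm, Real.log_mul (w.pos ((map_ne_zero φ).2 hc)).ne' hv.ne']
  ring

end change

end Pool.Agent.T6.H83.RM
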