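import Pool.Agent.T6.H83.RM.Con2

/-!
# Nonarchimedean places
-/

set_option autoImplicit false
set_option linter.unusedSectionVars false
set_option linter.unusedVariables false

namespace Pool.Agent.T6.H83.RM

open Finset MvPolynomial Matrix
open Pool.Agent.H892.PGR (nm Phi phi_smul nm_pos nm_smul sum_le dL dL_ultra)
open Pool.Agent.H892.PGK (PotGood)

section

variable {K L : Type*} [Field K] [Field L] (φ : K →+* L)

/-- the local product of two vectors -/
noncomputable def lE (a : AbsoluteValue K ℝ) (l : (Fin 2 → K) → ℝ) (u v : Fin 2 → K) : ℝ :=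
  l u + l v - Real.log (a (br u v))

lemma lE_symm (a : AbsoluteValue K ℝ) (l : (Fin 2 → K) → ℝ) (u v : Fin 2 → K) :
    lE a l u v = lE a l v u := by
  unfold lE
  have : br u v = - br v u := by unfold br; ring
  rw [this, AbsoluteValue.map_neg]
  ring

variable {w : AbsoluteValue L ℝ} {a : AbsoluteValue K ℝ} {M : Matrix (Fin 2) (Fin 2) L}

lemma nm_mulVec_pos (hM : M.det ≠ 0) {v : Fin 2 → K} (hv : v ≠ 0) :
    0 < nm w (M.mulVec (im φ v)) := nm_pos w (mulVec_ne_zero hM (im_ne_zero φ hv))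

lemma le_nm (u : Fin 2 → L) (i : Fin 2) : w (u i) ≤ nm w u := by
  fin_cases i
  · exact le_max_left _ _
  · exact le_max_right _ _

lemma lE_eq_dL (hw : ∀ q, w (φ q) = a q) (hM : M.det ≠ 0) {u v : Fin 2 → K} (hu : u ≠ 0)
    (hv : v ≠ 0) (h : br u v ≠ 0) :
    Real.log (dL w (M.mulVec (im φ u)) (M.mulVec (im φ v))) =
      -lE a (lN φ w M (nm w)) u v := by
  unfold dL lE lN
  have h1 : Pool.Agent.H892.PGR.br (M.mulVec (im φ u)) (M.mulVec (im φ v)) =
      M.det * φ (br u v) := by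
    rw [← br_im]
    exact br_mulVec M _ _
  have e1 := nm_mulVec_pos φ (w := w) hM hu
  have e2 := nm_mulVec_pos φ (w := w) hM hv
  have e3 : 0 < w M.det := w.pos hM
  have e4 : 0 < a (br u v) := a.pos h
  rw [h1, map_mul, hw, Real.log_div (by positivity) (by positivity),
    Real.log_mul e3.ne' e4.ne', Real.log_mul e1.ne' e2.ne']
  ring

lemma lE_nonneg (hna : ∀ x y : L, w (x + y) ≤ max (w x) (w y)) (hw : ∀ q, w (φ q) = a q)
    (hM : M.det ≠ 0) {u v : Fin 2 → K} (hu : u ≠ 0) (hv : v ≠ 0) (h : br u v ≠ 0) :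
    0 ≤ lE a (lN φ w M (nm w)) u v := by
  have h1 := lE_eq_dL φ hw hM hu hv h
  have h2 := Pool.Agent.TH856.PG.dL_le_one w hna (mulVec_ne_zero hM (im_ne_zero φ hu))
    (mulVec_ne_zero hM (im_ne_zero φ hv))
  have h3 : Real.log (dL w (M.mulVec (im φ u)) (M.mulVec (im φ v))) ≤ 0 := by
    apply Real.log_nonpos _ h2
    unfold dL
    have := nm_mulVec_pos φ (w := w) hM hu
    have := nm_mulVec_pos φ (w := w) hM hv
    have := w.nonneg (Pool.Agent.H892.PGR.br (M.mulVec (im φ u)) (M.mulVec (im φ v)))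
    positivity
  linarith

lemma dL_pos' (hM : M.det ≠ 0) {u v : Fin 2 → K} (hu : u ≠ 0)
    (hv : v ≠ 0) (h : br u v ≠ 0) : 0 < dL w (M.mulVec (im φ u)) (M.mulVec (im φ v)) := by
  unfold dL
  have h1 : Pool.Agent.H892.PGR.br (M.mulVec (im φ u)) (M.mulVec (im φ v)) =
      M.det * φ (br u v) := by
    rw [← br_im]
    exact br_mulVec M _ _
  have := nm_mulVec_pos φ (w := w) hM hu
  have := nm_mulVec_pos φ (w := w) hM hv
  have : 0 < w (Pool.Agent.H892.PGR.br (M.mulVec (im φ u)) (M.mulVec (im φ v))) := by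
    rw [h1]
    exact w.pos (mul_ne_zero hM ((map_ne_zero φ).2 h))
  positivity

lemma lE_ultra (hna : ∀ x y : L, w (x + y) ≤ max (w x) (w y)) (hw : ∀ q, w (φ q) = a q)
    (hM : M.det ≠ 0) {u v z : Fin 2 → K} (hu : u ≠ 0) (hv : v ≠ 0) (hz : z ≠ 0)
    (h1 : br u v ≠ 0) (h2 : br v z ≠ 0) (h3 : br u z ≠ 0) :
    min (lE a (lN φ w M (nm w)) u v) (lE a (lN φ w M (nm w)) v z) ≤
      lE a (lN φ w M (nm w)) u z := by
  have e1 := lE_eq_dL φ hw hM hu hv h1
  have e2 := lE_eq_dL φ hw hM hv hz h2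
  have e3 := lE_eq_dL φ hw hM hu hz h3
  have h4 := dL_ultra w hna (mulVec_ne_zero hM (im_ne_zero φ hu))
    (mulVec_ne_zero hM (im_ne_zero φ hv)) (mulVec_ne_zero hM (im_ne_zero φ hz))
  have p3 := dL_pos' φ (w := w) hM hu hz h3
  rcases le_max_iff.1 h4 with h5 | h5
  · have := Real.log_le_log p3 h5
    refine (min_le_left _ _).trans ?_
    linarith
  · have := Real.log_le_log p3 h5
    refine (min_le_right _ _).trans ?_
    linarith

/-- the local inequality at a nonarchimedean place -/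
lemma local_nonarch [CharZero L] (hna : ∀ x y : L, w (x + y) ≤ max (w x) (w y))
    (hw : ∀ q, w (φ q) = a q) (hM : M.det ≠ 0) {J d : ℕ} (hd : 1 ≤ d)
    {F G : MvPolynomial (Fin 2) K} (hF : F.IsHomogeneous d) (hG : G.IsHomogeneous d)
    (hL : Lam F G J d ≠ 0)
    (x : Fin ((J + 1) * d) → Fin 2 → K) (hx : VP x ≠ 0) (hx0 : ∀ i, x i ≠ 0)
    (hx1 : ∀ i, Phi F G (x i) ≠ 0) :
    Real.log (a (VP x)) + Real.log (a (Lam F G J d)) ≤
      J * ∑ i, lN φ w M (nm w) (Phi F G (x i)) + (d - 1) * ∑ i, lN φ w M (nm w) (x i) := by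
  have h1 := local_log φ w M hM (nm w) le_nm hd one_pos (κ := 1) (J := J) (fun A c hc => by
    rw [one_mul]; exact det_le_ultra w hna A c hc) hF hG hL x hx hx0 hx1
  rw [hw, hw, Real.log_one, zero_add] at h1
  exact h1

end

section good

variable {L : Type*} [Field L] {w : AbsoluteValue L ℝ}

lemma exists_scale {u : Fin 2 → L} (hu : u ≠ 0) : ∃ c : L, c ≠ 0 ∧ nm w (c • u) = 1 := by
  have h := nm_pos w hu
  rcases le_total (w (u 0)) (w (u 1)) with h1 | h1
  · have h2 : nm w u = w (u 1) := max_eq_right h1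
    have h3 : u 1 ≠ 0 := by
      intro h0; rw [h2, h0, map_zero] at h; exact lt_irrefl _ h
    refine ⟨(u 1)⁻¹, inv_ne_zero h3, ?_⟩
    rw [nm_smul, h2, map_inv₀]
    exact inv_mul_cancel₀ (w.ne_zero h3)
  · have h2 : nm w u = w (u 0) := max_eq_left h1
    have h3 : u 0 ≠ 0 := by
      intro h0; rw [h2, h0, map_zero] at h; exact lt_irrefl _ h
    refine ⟨(u 0)⁻¹, inv_ne_zero h3, ?_⟩
    rw [nm_smul, h2, map_inv₀]
    exact inv_mul_cancel₀ (w.ne_zero h3)

lemma nm_Phi {F G : MvPolynomial (Fin 2) L} {d : ℕ} (hF : F.IsHomogeneous d)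
    (hG : G.IsHomogeneous d) (hR : ∀ u : Fin 2 → L, nm w u = 1 → nm w (Phi F G u) = 1)
    {u : Fin 2 → L} (hu : u ≠ 0) : nm w (Phi F G u) = nm w u ^ d := by
  obtain ⟨c, hc, h1⟩ := exists_scale (w := w) hu
  have h2 := hR _ h1
  rw [phi_smul hF hG, nm_smul, map_pow] at h2
  rw [nm_smul] at h1
  have hc0 : 0 < w c := w.pos hc
  have h3 : w c ^ d * nm w (Phi F G u) = w c ^ d * nm w u ^ d := by
    rw [h2, ← mul_pow, h1, one_pow]
  exact mul_left_cancel₀ (pow_pos hc0 d).ne' h3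

lemma Lam_le_one (hna : ∀ x y : L, w (x + y) ≤ max (w x) (w y)) {F G : MvPolynomial (Fin 2) L}
    (hF : ∀ s, w (F.coeff s) ≤ 1) (hG : ∀ s, w (G.coeff s) ≤ 1) (J d : ℕ) :
    w (Lam F G J d) ≤ 1 := by
  obtain ⟨F', hF'⟩ := Pool.Agent.TH856.PG.exists_lift w hna hF
  obtain ⟨G', hG'⟩ := Pool.Agent.TH856.PG.exists_lift w hna hG
  unfold Lam
  have h1 := det_le_ultra w hna (Cm F G J d) (fun _ => 1) (by
    intro a b
    unfold Cm cfv
    rw [Matrix.of_apply]
    have h2 : F ^ (b.1 : ℕ) * G ^ (b.1.rev : ℕ) * (X 0 ^ (b.2 : ℕ) * X 1 ^ (b.2.rev : ℕ)) =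
        (F' ^ (b.1 : ℕ) * G' ^ (b.1.rev : ℕ) *
          (X 0 ^ (b.2 : ℕ) * X 1 ^ (b.2.rev : ℕ))).map
            (Pool.Agent.TH856.PG.O w hna).subtype := by
      simp only [map_mul, map_pow, hF', hG', map_X]
    rw [h2, coeff_map]
    exact (Pool.Agent.TH856.PG.mem_O w hna).1 (Subtype.property _))
  simpa using h1

end good

/-- what is needed at a place of potentially good reduction -/
structure GoodData {K : Type*} [Field K] (a : AbsoluteValue K ℝ) (F G : MvPolynomial (Fin 2) K)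
    (d : ℕ) (l : (Fin 2 → K) → ℝ) : Prop where
  smul : ∀ (c : K) (v : Fin 2 → K), c ≠ 0 → v ≠ 0 → l (c • v) = Real.log (a c) + l v
  nonneg : ∀ u v : Fin 2 → K, u ≠ 0 → v ≠ 0 → br u v ≠ 0 → 0 ≤ lE a l u v
  ultra : ∀ u v z : Fin 2 → K, u ≠ 0 → v ≠ 0 → z ≠ 0 → br u v ≠ 0 → br v z ≠ 0 → br u z ≠ 0 →
    min (lE a l u v) (lE a l v z) ≤ lE a l u z
  const : ∃ t : ℝ, (∀ v : Fin 2 → K, v ≠ 0 → d * l v - l (Phi F G v) = t) ∧
    ∀ J : ℕ, Lam F G J d ≠ 0 → J * (((J : ℝ) + 1) * d) * t + Real.log (a (Lam F G J d)) ≤ 0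

lemma exists_goodData {K : Type} [Field K] [CharZero K] {a : AbsoluteValue K ℝ}
    {F G : MvPolynomial (Fin 2) K} {d : ℕ} (hd : 1 ≤ d) (hF : F.IsHomogeneous d)
    (hG : G.IsHomogeneous d) (hp : PotGood a F G d) :
    ∃ l : (Fin 2 → K) → ℝ, GoodData a F G d l := by
  obtain ⟨L, _, _, w, A, c, F₁, G₁, hna, hw, hA, hc, hF₁, hG₁, hFi, hGi, hR, hconj⟩ := hp
  set φ : K →+* L := algebraMap K L with hφ
  have hch : CharZero L := charZero_of_injective_algebraMap (algebraMap K L).injective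
  have hA0 : 0 < w A.det := w.pos hA
  have hc0 : 0 < w c := w.pos hc
  refine ⟨lN φ w A (nm w), ?_, ?_, ?_, ?_⟩
  · intro b v hb hv
    rw [lN_smul φ (nm_smul w) b hb v (nm_mulVec_pos φ hA hv), hw]
  · intro u v hu hv h
    exact lE_nonneg φ hna hw hA hu hv h
  · intro u v z hu hv hz h1 h2 h3
    exact lE_ultra φ hna hw hA hu hv hz h1 h2 h3
  · refine ⟨-Real.log (w c) - (d - 1) / 2 * Real.log (w A.det), ?_, ?_⟩
    · intro v hv
      unfold lN
      have h1 : A.mulVec (im φ (Phi F G v)) = c • Phi F₁ G₁ (A.mulVec (im φ v)) := by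
        rw [← Phi_im]
        exact hconj _
      have h2 := mulVec_ne_zero hA (im_ne_zero φ hv)
      have h3 := nm_pos w h2
      rw [h1, nm_smul, nm_Phi hF₁ hG₁ hR h2, Real.log_mul hc0.ne' (pow_pos h3 d).ne',
        Real.log_pow]
      ring
    · intro J hL
      have e1 := det_TM_mulVec A J d
        (fun a => im φ (Phi F G (tp K (finProdFinEquiv a))))
        (fun a => im φ (tp K (finProdFinEquiv a)))
      rw [TM_im, det_TM_phi hF hG] at e1
      have e2 : (fun a : Fin (J + 1) × Fin d =>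
          A.mulVec (im φ (Phi F G (tp K (finProdFinEquiv a))))) =
          (fun a => c • Phi F₁ G₁ (A.mulVec (im φ (tp K (finProdFinEquiv a))))) := by
        funext a
        rw [← Phi_im]
        exact hconj _
      rw [e2, TM_smul J d c (fun a => Phi F₁ G₁ (A.mulVec (im φ (tp K (finProdFinEquiv a))))),
        det_TM_phi hF₁ hG₁ J (fun i => A.mulVec (im φ (tp K i))), VP_mulVec, VP_im, map_mul] at e1
      have e3 : φ (VP (tp K (n := (J + 1) * d))) ≠ 0 := (map_ne_zero φ).2 (VP_tp _)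
      have e4 : c ^ (J * ((J + 1) * d)) * (A.det ^ tr ((J + 1) * d) * Lam F₁ G₁ J d) =
          A.det ^ ex J d * φ (Lam F G J d) := by
        apply mul_left_cancel₀ e3
        rw [← sub_eq_zero] at e1 ⊢
        rw [← e1]
        ring
      have e5 : Lam F₁ G₁ J d ≠ 0 := by
        intro h0
        rw [h0, mul_zero, mul_zero] at e4
        have : A.det ^ ex J d * φ (Lam F G J d) ≠ 0 :=
          mul_ne_zero (pow_ne_zero _ hA) ((map_ne_zero φ).2 hL)
        exact this e4.symm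
      have e6 := congrArg (fun z => Real.log (w z)) e4
      simp only [map_mul, map_pow, hw] at e6
      have e7 : 0 < w (Lam F₁ G₁ J d) := w.pos e5
      have e8 : 0 < a (Lam F G J d) := a.pos hL
      rw [Real.log_mul (by positivity) (by positivity), Real.log_mul (by positivity) e7.ne',
        Real.log_mul (by positivity) e8.ne', Real.log_pow, Real.log_pow, Real.log_pow] at e6
      have e9 := Real.log_nonpos e7.le (Lam_le_one hna hFi hGi J d)
      have f1 := ex_two J d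
      have f2 : (2 * tr ((J + 1) * d) : ℝ) = ((J : ℝ) + 1) * d * ((J + 1) * d - 1) := by
        have h1 := tr_mul_two ((J + 1) * d)
        have h2 : 0 < (J + 1) * d := Nat.mul_pos (Nat.succ_pos _) hd
        have : ((2 * tr ((J + 1) * d) : ℕ) : ℝ) =
            (((J + 1) * d * ((J + 1) * d - 1) : ℕ) : ℝ) := by rw [h1]
        push_cast [Nat.cast_sub (show 1 ≤ (J + 1) * d from h2)] at this
        exact this
      push_cast at e6
      have f3 : Real.log (a (Lam F G J d)) = J * ((J + 1) * d) * Real.log (w c) +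
          ((tr ((J + 1) * d) : ℝ) - ex J d) * Real.log (w A.det) +
            Real.log (w (Lam F₁ G₁ J d)) := by
        linear_combination -e6
      have f4 : (tr ((J + 1) * d) : ℝ) - ex J d = J * ((J + 1) * d) * ((d - 1) / 2) := by
        linear_combination f2 / 2 - f1 / 2
      rw [f3, f4]
      have f5 : (J : ℝ) * ((J + 1) * d) * (-Real.log (w c) - (d - 1) / 2 * Real.log (w A.det)) +
          (J * ((J + 1) * d) * Real.log (w c) +
            J * ((J + 1) * d) * ((d - 1) / 2) * Real.log (w A.det) +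
            Real.log (w (Lam F₁ G₁ J d))) = Real.log (w (Lam F₁ G₁ J d)) := by ring
      rw [f5]
      exact e9

end Pool.Agent.T6.H83.RM
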