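import Pool.Agent.T6.H83.RM.Con2

/-!
# The determinant does not vanish when the forms have no common zero
-/

set_option autoImplicit false
set_option linter.unusedSectionVars false
set_option linter.unusedVariables false

namespace Pool.Agent.T6.H83.RM

open Finset
open Pool.Agent.H892.PGR (nm Phi phi_smul nm_pos nm_smul sum_le)
open Pool.Agent.TH856.PG (NoZero)

section poly

open Polynomial

variable {K : Type*} [Field K]

lemma lin_indep {p q : K[X]} (hpq : IsCoprime p q) {d : ℕ} (hq : q.natDegree = d) (hd : 1 ≤ d)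
    (J : ℕ) : ∀ (P : ℕ → K[X]), (∀ j, (P j).degree < d) →
      ∑ j ∈ range (J + 1), P j * p ^ j * q ^ (J - j) = 0 → ∀ j ≤ J, P j = 0 := by
  have hq0 : q ≠ 0 := by
    rintro rfl
    rw [natDegree_zero] at hq
    omega
  induction J with
  | zero =>
    intro P hP h j hj
    have : j = 0 := by omega
    subst this
    simpa using h
  | succ J ih =>
    intro P hP h
    rw [sum_range_succ, Nat.sub_self, pow_zero, mul_one] at h
    have h1 : ∑ j ∈ range (J + 1), P j * p ^ j * q ^ (J + 1 - j) =
        q * ∑ j ∈ range (J + 1), P j * p ^ j * q ^ (J - j) := by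
      rw [mul_sum]
      refine sum_congr rfl fun j hj => ?_
      rw [mem_range] at hj
      rw [show J + 1 - j = (J - j) + 1 by omega, pow_succ]
      ring
    rw [h1] at h
    have h2 : q ∣ P (J + 1) * p ^ (J + 1) :=
      ⟨-∑ j ∈ range (J + 1), P j * p ^ j * q ^ (J - j), by linear_combination h⟩
    have h3 : q ∣ P (J + 1) := (hpq.symm.pow_right : IsCoprime q (p ^ (J + 1))).dvd_of_dvd_mul_right h2
    have h4 : P (J + 1) = 0 := by
      by_contra h5
      have h6 := natDegree_le_of_dvd h3 h5
      have h7 := hP (J + 1)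
      rw [degree_eq_natDegree h5] at h7
      have h8 : (P (J + 1)).natDegree < d := by exact_mod_cast h7
      omega
    rw [h4, zero_mul, add_zero] at h
    have h5 := (mul_eq_zero.1 h).resolve_left hq0
    have h6 := ih P hP h5
    intro j hj
    rcases Nat.lt_or_ge j (J + 1) with h7 | h7
    · exact h6 j (by omega)
    · have : j = J + 1 := by omega
      rw [this]; exact h4

lemma lin_indep' {p q : K[X]} (hpq : IsCoprime p q) {d : ℕ}
    (hq : p.natDegree = d ∨ q.natDegree = d) (hd : 1 ≤ d)
    (J : ℕ) (P : ℕ → K[X]) (hP : ∀ j, (P j).degree < d)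
    (h : ∑ j ∈ range (J + 1), P j * p ^ j * q ^ (J - j) = 0) : ∀ j ≤ J, P j = 0 := by
  rcases hq with hq | hq
  · have h1 := lin_indep hpq.symm hq hd J (fun j => P (J - j)) (fun j => hP _) (by
      rw [← h, ← sum_range_reflect]
      refine sum_congr rfl fun j hj => ?_
      rw [mem_range] at hj
      have e1 : J + 1 - 1 - j = J - j := by omega
      rw [e1]
      have e2 : J - (J - j) = j := by omega
      rw [e2]
      ring)
    intro j hj
    have := h1 (J - j) (by omega)
    rwa [show J - (J - j) = j by omega] at this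
  · exact lin_indep hpq hq hd J P hP h

/-- dehomogenisation -/
noncomputable def deh (d : ℕ) (F : MvPolynomial (Fin 2) K) : K[X] :=
  ∑ k : Fin (d + 1), C (cfv (d + 1) F k) * X ^ (k : ℕ)

lemma deh_eval {d : ℕ} {F : MvPolynomial (Fin 2) K} (hF : F.IsHomogeneous d) (t : K) :
    (deh d F).eval t = MvPolynomial.eval ![t, 1] F := by
  rw [eval_cfv rfl hF]
  unfold deh
  rw [eval_finsetSum]
  refine sum_congr rfl fun k _ => ?_
  simp

lemma cfv_map {L : Type*} [Field L] (φ : K →+* L) (n : ℕ) (F : MvPolynomial (Fin 2) K)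
    (k : Fin n) : cfv n (F.map φ) k = φ (cfv n F k) := by
  unfold cfv
  rw [MvPolynomial.coeff_map]

lemma deh_aeval {L : Type*} [Field L] [Algebra K L] {d : ℕ} {F : MvPolynomial (Fin 2) K}
    (hF : F.IsHomogeneous d) (t : L) :
    aeval t (deh d F) = MvPolynomial.aeval ![t, 1] F := by
  have h1 : MvPolynomial.aeval ![t, 1] F =
      MvPolynomial.eval ![t, 1] (F.map (algebraMap K L)) := by
    rw [MvPolynomial.eval_map, MvPolynomial.aeval_def]
  rw [h1, eval_cfv rfl (hF.map (algebraMap K L))]
  unfold deh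
  rw [map_sum]
  refine sum_congr rfl fun k _ => ?_
  rw [cfv_map]
  simp

lemma deh_coeff {d : ℕ} {F : MvPolynomial (Fin 2) K} (hF : F.IsHomogeneous d) :
    (deh d F).coeff d = MvPolynomial.eval ![1, 0] F := by
  rw [eval_cfv rfl hF]
  unfold deh
  rw [finsetSum_coeff]
  refine sum_congr rfl fun k _ => ?_
  rw [coeff_C_mul, coeff_X_pow]
  simp only [Matrix.cons_val_zero, Matrix.cons_val_one, one_pow, one_mul]
  by_cases h : d = k
  · rw [if_pos h]
    have : (k.rev : ℕ) = 0 := by rw [Fin.val_rev]; omega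
    rw [this, pow_zero]
  · rw [if_neg h, zero_pow]
    have := k.2
    rw [Fin.val_rev]
    omega

lemma deh_natDegree_le (d : ℕ) (F : MvPolynomial (Fin 2) K) : (deh d F).natDegree ≤ d := by
  unfold deh
  apply natDegree_sum_le_of_forall_le
  intro k _
  refine (natDegree_C_mul_X_pow_le _ _).trans ?_
  have := k.2
  omega

end poly

section main

variable {K : Type} [Field K] [CharZero K]

lemma eval_ne_of_noZero {F G : MvPolynomial (Fin 2) K} (h0 : NoZero F G) :
    MvPolynomial.eval ![(1 : K), 0] F ≠ 0 ∨ MvPolynomial.eval ![(1 : K), 0] G ≠ 0 := by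
  by_contra hcon
  push Not at hcon
  have hv : (![(1 : K), 0] : Fin 2 → K) ≠ 0 := fun h => one_ne_zero (congrFun h 0)
  apply Pool.Agent.TH856.PG.phi_ne_zero h0 ![(1 : K), 0] hv
  ext i
  unfold Phi
  fin_cases i
  · exact hcon.1
  · exact hcon.2

lemma deh_coprime {F G : MvPolynomial (Fin 2) K} {d : ℕ} (hF : F.IsHomogeneous d)
    (hG : G.IsHomogeneous d) (h0 : NoZero F G) : IsCoprime (deh d F) (deh d G) := by
  rw [Polynomial.isCoprime_iff_aeval_ne_zero_of_isAlgClosed K (AlgebraicClosure K)]
  intro a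
  by_contra hcon
  push Not at hcon
  rw [deh_aeval hF, deh_aeval hG] at hcon
  refine h0 ![a, 1] (fun h => ?_) hcon
  exact one_ne_zero (congrFun h 1)

theorem Lam_ne_zero {F G : MvPolynomial (Fin 2) K} {d : ℕ} (hd : 1 ≤ d) (hF : F.IsHomogeneous d)
    (hG : G.IsHomogeneous d) (h0 : NoZero F G) (J : ℕ) : Lam F G J d ≠ 0 := by
  intro hdet
  obtain ⟨v, hv, hv0⟩ := Matrix.exists_mulVec_eq_zero_iff.2 hdet
  apply hv
  -- the identity of functions
  have h1 : ∀ z : Fin 2 → K, ∑ c : Fin (J + 1) × Fin d, v c *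
      (MvPolynomial.eval z F ^ (c.1 : ℕ) * MvPolynomial.eval z G ^ (c.1.rev : ℕ) *
        (z 0 ^ (c.2 : ℕ) * z 1 ^ (c.2.rev : ℕ))) = 0 := by
    intro z
    have h2 : ∀ c : Fin (J + 1) × Fin d,
        MvPolynomial.eval z F ^ (c.1 : ℕ) * MvPolynomial.eval z G ^ (c.1.rev : ℕ) *
        (z 0 ^ (c.2 : ℕ) * z 1 ^ (c.2.rev : ℕ)) =
        ∑ a : Fin (J + 1) × Fin d, Cm F G J d a c *
          (z 0 ^ (finProdFinEquiv a : ℕ) * z 1 ^ ((finProdFinEquiv a).rev : ℕ)) := by
      intro c
      have h3 := eval_cfv (card_pos' c) (col_hom hF hG c) z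
      simp only [map_mul, map_pow, MvPolynomial.eval_X] at h3
      rw [h3]
      unfold Cm
      simp only [Matrix.of_apply]
      rw [Equiv.sum_comp finProdFinEquiv (fun k => cfv ((J + 1) * d)
        (F ^ (c.1 : ℕ) * G ^ (c.1.rev : ℕ) * (MvPolynomial.X 0 ^ (c.2 : ℕ) *
          MvPolynomial.X 1 ^ (c.2.rev : ℕ))) k * (z 0 ^ (k : ℕ) * z 1 ^ (k.rev : ℕ)))]
    simp_rw [h2, mul_sum]
    rw [sum_comm]
    refine sum_eq_zero fun a _ => ?_
    have h3 : ∑ c : Fin (J + 1) × Fin d, Cm F G J d a c * v c = 0 := congrFun hv0 a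
    calc _ = (∑ c : Fin (J + 1) × Fin d, Cm F G J d a c * v c) *
        (z 0 ^ (finProdFinEquiv a : ℕ) * z 1 ^ ((finProdFinEquiv a).rev : ℕ)) := by
          rw [sum_mul]
          exact sum_congr rfl fun c _ => by ring
      _ = 0 := by rw [h3, zero_mul]
  -- the polynomial identity
  set v' : ℕ → Fin d → K := fun j r => if h : j < J + 1 then v (⟨j, h⟩, r) else 0 with hv'
  set P : ℕ → Polynomial K := fun j => ∑ r : Fin d, Polynomial.C (v' j r) * Polynomial.X ^ (r : ℕ)
    with hP
  have hdeg : ∀ j, (P j).degree < d := by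
    intro j
    exact Polynomial.degree_sum_fin_lt (fun r => v' j r)
  have hid : ∑ j ∈ range (J + 1), P j * deh d F ^ j * deh d G ^ (J - j) = 0 := by
    apply Polynomial.funext
    intro t
    rw [Polynomial.eval_zero, Polynomial.eval_finsetSum, ← h1 ![t, 1],
      Fintype.sum_prod_type, ← Fin.sum_univ_eq_sum_range
      (fun j => (P j * deh d F ^ j * deh d G ^ (J - j)).eval t)]
    refine sum_congr rfl fun j _ => ?_
    rw [Polynomial.eval_mul, Polynomial.eval_mul, Polynomial.eval_pow, Polynomial.eval_pow,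
      deh_eval hF, deh_eval hG, hP]
    simp only
    rw [Polynomial.eval_finsetSum, sum_mul, sum_mul]
    refine sum_congr rfl fun r _ => ?_
    have e1 : v' j r = v (j, r) := by
      rw [hv']
      simp only
      rw [dif_pos j.2]
    have e2 : (j.rev : ℕ) = J - j := by rw [Fin.val_rev]; omega
    simp only [Polynomial.eval_mul, Polynomial.eval_C, Polynomial.eval_pow, Polynomial.eval_X,
      Matrix.cons_val_zero, Matrix.cons_val_one, one_pow, mul_one, e1, e2]
    ring
  have hnd : (deh d F).natDegree = d ∨ (deh d G).natDegree = d := by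
    rcases eval_ne_of_noZero h0 with h | h
    · left
      rw [← deh_coeff hF] at h
      exact le_antisymm (deh_natDegree_le d F) (Polynomial.le_natDegree_of_ne_zero h)
    · right
      rw [← deh_coeff hG] at h
      exact le_antisymm (deh_natDegree_le d G) (Polynomial.le_natDegree_of_ne_zero h)
  have hz := lin_indep' (deh_coprime hF hG h0) hnd hd J P hdeg hid
  funext c
  obtain ⟨j, r⟩ := c
  have h2 := hz j (by have := j.2; omega)
  have h3 := congrArg (fun q => Polynomial.coeff q r) h2
  rw [hP] at h3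
  simp only [Polynomial.finsetSum_coeff, Polynomial.coeff_C_mul, Polynomial.coeff_X_pow,
    Polynomial.coeff_zero] at h3
  rw [Finset.sum_eq_single r] at h3
  · rw [if_pos rfl, mul_one] at h3
    rw [hv'] at h3
    simp only at h3
    rw [dif_pos j.2] at h3
    exact h3
  · intro b _ hb
    rw [if_neg (fun h => hb (Fin.ext h.symm)), mul_zero]
  · intro h
    exact absurd (mem_univ _) h

end main

end Pool.Agent.T6.H83.RM
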