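import Pool.Agent.T6.H83.RM.Con3

/-!
# The archimedean place
-/

set_option autoImplicit false
set_option linter.unusedSectionVars false
set_option linter.unusedVariables false

namespace Pool.Agent.T6.H83.RM

open Finset MvPolynomial Matrix
open Pool.Agent.H892.PGR (nm Phi phi_smul nm_pos nm_smul sum_le dL dL_ultra)

/-- Euclidean norm -/
noncomputable def en2 (u : Fin 2 → ℝ) : ℝ := Real.sqrt (u 0 ^ 2 + u 1 ^ 2)

lemma en2_nonneg (u : Fin 2 → ℝ) : 0 ≤ en2 u := Real.sqrt_nonneg _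

lemma en2_sq (u : Fin 2 → ℝ) : en2 u ^ 2 = u 0 ^ 2 + u 1 ^ 2 := Real.sq_sqrt (by positivity)

lemma en2_pos {u : Fin 2 → ℝ} (hu : u ≠ 0) : 0 < en2 u := by
  unfold en2
  apply Real.sqrt_pos.2
  by_contra h
  push Not at h
  have h0 : u 0 = 0 := by nlinarith [sq_nonneg (u 0), sq_nonneg (u 1)]
  have h1 : u 1 = 0 := by nlinarith [sq_nonneg (u 0), sq_nonneg (u 1)]
  apply hu
  ext i
  fin_cases i
  · exact h0
  · exact h1

lemma en2_smul (c : ℝ) (u : Fin 2 → ℝ) : en2 (c • u) = |c| * en2 u := by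
  unfold en2
  rw [← Real.sqrt_sq_eq_abs, ← Real.sqrt_mul (sq_nonneg c)]
  congr 1
  simp only [Pi.smul_apply, smul_eq_mul]
  ring

lemma abs_le_en2 (u : Fin 2 → ℝ) (i : Fin 2) : |u i| ≤ en2 u := by
  unfold en2
  rw [← Real.sqrt_sq_eq_abs]
  apply Real.sqrt_le_sqrt
  fin_cases i
  · simp only [Fin.zero_eta, Fin.isValue]
    nlinarith [sq_nonneg (u 1)]
  · simp only [Fin.mk_one, Fin.isValue]
    nlinarith [sq_nonneg (u 0)]

lemma br_le (u v : Fin 2 → ℝ) : |br u v| ≤ en2 u * en2 v := by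
  unfold en2
  rw [← Real.sqrt_mul (by positivity), ← Real.sqrt_sq_eq_abs]
  apply Real.sqrt_le_sqrt
  unfold br
  nlinarith [sq_nonneg (u 0 * v 0 + u 1 * v 1)]

lemma en2_add (u v : Fin 2 → ℝ) : en2 (u + v) ≤ en2 u + en2 v := by
  have h1 : u 0 * v 0 + u 1 * v 1 ≤ en2 u * en2 v := by
    unfold en2
    rw [← Real.sqrt_mul (by positivity)]
    apply Real.le_sqrt_of_sq_le
    nlinarith [sq_nonneg (u 0 * v 1 - u 1 * v 0)]
  have h2 := en2_sq u
  have h3 := en2_sq v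
  have h4 : en2 (u + v) = Real.sqrt ((u 0 + v 0) ^ 2 + (u 1 + v 1) ^ 2) := rfl
  rw [h4]
  apply Real.sqrt_le_iff.2
  refine ⟨add_nonneg (en2_nonneg _) (en2_nonneg _), ?_⟩
  nlinarith

lemma br_tri (u v z : Fin 2 → ℝ) :
    |br u z| * en2 v ≤ |br u v| * en2 z + |br v z| * en2 u := by
  have h1 : br u z • v = br u v • z + br v z • u := by
    ext i
    unfold br
    fin_cases i
    · simp; ring
    · simp; ring
  rw [← en2_smul, h1, ← en2_smul, ← en2_smul]
  exact en2_add _ _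

/-- the absolute value of `ℝ` -/
noncomputable abbrev wR : AbsoluteValue ℝ ℝ := AbsoluteValue.abs

/-- the inclusion of `ℚ` in `ℝ` -/
noncomputable abbrev φR : ℚ →+* ℝ := Rat.castHom ℝ

lemma hwR (q : ℚ) : wR (φR q) = Rat.AbsoluteValue.real q := by
  rw [Rat.AbsoluteValue.real_eq_abs]
  simp

variable {M : Matrix (Fin 2) (Fin 2) ℝ}

/-- the normalised vector in the coordinates `M` -/
noncomputable def un (M : Matrix (Fin 2) (Fin 2) ℝ) (v : Fin 2 → ℚ) : Fin 2 → ℝ :=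
  (en2 (M.mulVec (im φR v)))⁻¹ • M.mulVec (im φR v)

/-- the logarithmic norm at the archimedean place -/
noncomputable abbrev lR (M : Matrix (Fin 2) (Fin 2) ℝ) : (Fin 2 → ℚ) → ℝ := lN φR wR M en2

lemma en2_mulVec_pos (hM : M.det ≠ 0) {v : Fin 2 → ℚ} (hv : v ≠ 0) :
    0 < en2 (M.mulVec (im φR v)) := en2_pos (mulVec_ne_zero hM (im_ne_zero φR hv))

lemma en2_un (hM : M.det ≠ 0) {v : Fin 2 → ℚ} (hv : v ≠ 0) : en2 (un M v) = 1 := by
  have h := en2_mulVec_pos hM hv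
  unfold un
  rw [en2_smul, abs_of_pos (inv_pos.2 h)]
  exact inv_mul_cancel₀ h.ne'

lemma br_un (hM : M.det ≠ 0) (u v : Fin 2 → ℚ) :
    br (un M u) (un M v) =
      M.det * φR (br u v) / (en2 (M.mulVec (im φR u)) * en2 (M.mulVec (im φR v))) := by
  unfold un
  have h1 : ∀ (a b : ℝ) (x y : Fin 2 → ℝ), br (a • x) (b • y) = a * b * br x y := by
    intro a b x y
    unfold br
    simp only [Pi.smul_apply, smul_eq_mul]
    ring
  rw [h1, br_mulVec, br_im, div_eq_mul_inv, mul_inv]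
  ring

lemma br_un_ne (hM : M.det ≠ 0) {u v : Fin 2 → ℚ} (hu : u ≠ 0) (hv : v ≠ 0) (h : br u v ≠ 0) :
    0 < |br (un M u) (un M v)| := by
  rw [br_un hM, abs_pos]
  have h1 := en2_mulVec_pos hM hu
  have h2 := en2_mulVec_pos hM hv
  have h3 : φR (br u v) ≠ 0 := (map_ne_zero φR).2 h
  positivity

lemma lE_arch (hM : M.det ≠ 0) {u v : Fin 2 → ℚ} (hu : u ≠ 0) (hv : v ≠ 0) (h : br u v ≠ 0) :
    lE Rat.AbsoluteValue.real (lR M) u v = -Real.log |br (un M u) (un M v)| := by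
  have h1 := en2_mulVec_pos hM hu
  have h2 := en2_mulVec_pos hM hv
  have h3 : 0 < |M.det| := abs_pos.2 hM
  have h4 : 0 < wR (φR (br u v)) := wR.pos ((map_ne_zero φR).2 h)
  rw [br_un hM, abs_div, abs_mul, abs_of_pos (mul_pos h1 h2)]
  have h5 : |φR (br u v)| = wR (φR (br u v)) := rfl
  rw [h5, Real.log_div (mul_pos h3 h4).ne' (mul_pos h1 h2).ne', Real.log_mul h3.ne' h4.ne',
    Real.log_mul h1.ne' h2.ne']
  unfold lE lR lN
  rw [← hwR]
  have h6 : wR M.det = |M.det| := rfl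
  rw [h6]
  ring

lemma lE_arch_nonneg (hM : M.det ≠ 0) {u v : Fin 2 → ℚ} (hu : u ≠ 0) (hv : v ≠ 0)
    (h : br u v ≠ 0) : 0 ≤ lE Rat.AbsoluteValue.real (lR M) u v := by
  rw [lE_arch hM hu hv h]
  have h1 := br_le (un M u) (un M v)
  rw [en2_un hM hu, en2_un hM hv, one_mul] at h1
  have := Real.log_nonpos (abs_nonneg _) h1
  linarith

lemma lE_arch_ultra (hM : M.det ≠ 0) {u v z : Fin 2 → ℚ} (hu : u ≠ 0) (hv : v ≠ 0) (hz : z ≠ 0)
    (h1 : br u v ≠ 0) (h2 : br v z ≠ 0) (h3 : br u z ≠ 0) :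
    min (lE Rat.AbsoluteValue.real (lR M) u v) (lE Rat.AbsoluteValue.real (lR M) v z) ≤
      lE Rat.AbsoluteValue.real (lR M) u z + 1 := by
  rw [lE_arch hM hu hv h1, lE_arch hM hv hz h2, lE_arch hM hu hz h3]
  have t := br_tri (un M u) (un M v) (un M z)
  rw [en2_un hM hu, en2_un hM hv, en2_un hM hz, mul_one, mul_one, mul_one] at t
  have p1 := br_un_ne hM hu hv h1
  have p2 := br_un_ne hM hv hz h2
  have p3 := br_un_ne hM hu hz h3
  have hlog2 : Real.log 2 ≤ 1 := by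
    have := Real.log_two_lt_d9
    linarith
  rcases le_total |br (un M u) (un M v)| |br (un M v) (un M z)| with h | h
  · have h4 : |br (un M u) (un M z)| ≤ 2 * |br (un M v) (un M z)| := by linarith
    have h5 := Real.log_le_log p3 h4
    rw [Real.log_mul (by norm_num) p2.ne'] at h5
    refine (min_le_right _ _).trans ?_
    linarith
  · have h4 : |br (un M u) (un M z)| ≤ 2 * |br (un M u) (un M v)| := by linarith
    have h5 := Real.log_le_log p3 h4
    rw [Real.log_mul (by norm_num) p1.ne'] at h5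
    refine (min_le_left _ _).trans ?_
    linarith

/-- the local inequality at the archimedean place -/
lemma local_arch (hM : M.det ≠ 0) {J d : ℕ} (hd : 1 ≤ d)
    {F G : MvPolynomial (Fin 2) ℚ} (hF : F.IsHomogeneous d) (hG : G.IsHomogeneous d)
    (hL : Lam F G J d ≠ 0)
    (x : Fin ((J + 1) * d) → Fin 2 → ℚ) (hx : VP x ≠ 0) (hx0 : ∀ i, x i ≠ 0)
    (hx1 : ∀ i, Phi F G (x i) ≠ 0) :
    Real.log (Rat.AbsoluteValue.real (VP x)) + Real.log (Rat.AbsoluteValue.real (Lam F G J d)) ≤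
      Real.log (((J + 1) * d).factorial) + J * ∑ i, lR M (Phi F G (x i)) +
        (d - 1) * ∑ i, lR M (x i) := by
  have h1 := local_log φR wR M hM en2 abs_le_en2 hd
    (κ := (((J + 1) * d).factorial : ℝ)) (J := J) (by positivity) (fun A c hc => by
    have := det_le_fact wR A c hc
    rwa [Fintype.card_prod, Fintype.card_fin, Fintype.card_fin] at this) hF hG hL x hx hx0 hx1
  rw [hwR, hwR] at h1
  exact h1

end Pool.Agent.T6.H83.RM
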