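import Pool.Agent.T6.H83.RM.Con5
import Pool.Agent.T6.H83.RM.Abs1

/-!
# Coordinates for which no point has too many neighbours: the archimedean place
-/

set_option autoImplicit false
set_option linter.unusedSectionVars false
set_option linter.unusedVariables false

namespace Pool.Agent.T6.H83.RM

open Finset Matrix

/-- a near minimum -/
lemma near_min {ι : Type*} [Nonempty ι] (f : ι → ℝ) {b : ℝ} (hb : ∀ i, b ≤ f i) {ε : ℝ}
    (hε : 0 < ε) : ∃ i, ∀ j, f i ≤ f j + ε := by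
  have h1 : BddBelow (Set.range f) := ⟨b, by rintro _ ⟨i, rfl⟩; exact hb i⟩
  obtain ⟨i, hi⟩ := exists_lt_of_ciInf_lt (f := f) (show iInf f < iInf f + ε by linarith)
  refine ⟨i, fun j => ?_⟩
  have := ciInf_le h1 j
  linarith

variable {α : Type*} [DecidableEq α]

/-- two of many unit vectors are near each other -/
lemma grid (q : ℕ) (hq : 0 < q) (A : Finset α) (hA : A.Nonempty) (u : α → Fin 2 → ℝ)
    (hu : ∀ x ∈ A, en2 (u x) = 1) :
    ∃ x₀ ∈ A, A.card ≤ (2 * q + 1) ^ 2 *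
      (A.filter (fun x => |br (u x₀) (u x)| ≤ 2 / q)).card := by
  classical
  have hq0 : (0 : ℝ) < q := by exact_mod_cast hq
  set c : α → ℤ × ℤ := fun x => (⌊q * u x 0⌋, ⌊q * u x 1⌋) with hc
  set T : Finset (ℤ × ℤ) := Icc (-(q : ℤ)) q ×ˢ Icc (-(q : ℤ)) q with hT
  have hTc : T.card = (2 * q + 1) ^ 2 := by
    rw [hT, card_product, Int.card_Icc, sq]
    congr 1 <;> omega
  have hfl : ∀ t : ℝ, |t| ≤ 1 → ⌊q * t⌋ ∈ Icc (-(q : ℤ)) q := by
    intro t ht
    rw [abs_le] at ht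
    rw [mem_Icc]
    constructor
    · apply Int.le_floor.2
      push_cast
      nlinarith
    · have h1 : (⌊(q : ℝ) * t⌋ : ℝ) ≤ q * t := Int.floor_le _
      have h2 : (⌊(q : ℝ) * t⌋ : ℝ) ≤ (q : ℤ) := by push_cast; nlinarith
      exact_mod_cast h2
  have hmaps : ∀ x ∈ A, c x ∈ T := by
    intro x hx
    have h0 := abs_le_en2 (u x) 0
    have h1 := abs_le_en2 (u x) 1
    rw [hu x hx] at h0 h1
    rw [hT, mem_product]
    exact ⟨hfl _ h0, hfl _ h1⟩
  obtain ⟨t, ht, h1⟩ := exists_max_image T (fun t => (A.filter (fun x => c x = t)).card)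
    (by rw [← card_pos, hTc]; positivity)
  have h2 : A.card ≤ (2 * q + 1) ^ 2 * (A.filter (fun x => c x = t)).card := by
    rw [card_eq_sum_card_fiberwise hmaps, ← hTc, ← smul_eq_mul]
    exact sum_le_card_nsmul _ _ _ h1
  have h3 : 0 < (A.filter (fun x => c x = t)).card := by
    by_contra h0
    have : (A.filter (fun x => c x = t)).card = 0 := by omega
    rw [this, mul_zero] at h2
    have := card_pos.2 hA
    omega
  obtain ⟨x₀, hx₀⟩ := card_pos.1 h3
  rw [mem_filter] at hx₀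
  refine ⟨x₀, hx₀.1, h2.trans (Nat.mul_le_mul_left _ (card_le_card ?_))⟩
  intro x hx
  rw [mem_filter] at hx ⊢
  refine ⟨hx.1, ?_⟩
  have e1 : c x = c x₀ := by rw [hx.2, hx₀.2]
  have e2 : ⌊(q : ℝ) * u x 0⌋ = ⌊(q : ℝ) * u x₀ 0⌋ := congrArg Prod.fst e1
  have e3 : ⌊(q : ℝ) * u x 1⌋ = ⌊(q : ℝ) * u x₀ 1⌋ := congrArg Prod.snd e1
  have d : ∀ s t : ℝ, ⌊(q : ℝ) * s⌋ = ⌊(q : ℝ) * t⌋ → (s - t) ^ 2 ≤ (1 / q) ^ 2 := by
    intro s t h
    have f1 := Int.abs_sub_lt_one_of_floor_eq_floor h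
    have f2 : |s - t| ≤ 1 / q := by
      rw [le_div_iff₀ hq0]
      have : |(q : ℝ) * s - q * t| = |s - t| * q := by
        rw [← mul_sub, abs_mul, abs_of_pos hq0, mul_comm]
      rw [← this]
      exact f1.le
    rw [← sq_abs]
    exact pow_le_pow_left₀ (abs_nonneg _) f2 2
  have f0 := d _ _ e2
  have f1 := d _ _ e3
  have e4 : br (u x₀) (u x) = br (u x₀) (u x - u x₀) := by
    unfold br
    simp only [Pi.sub_apply]
    ring
  rw [e4]
  refine (br_le _ _).trans ?_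
  rw [hu x₀ hx₀.1, one_mul]
  unfold en2
  apply Real.sqrt_le_iff.2
  refine ⟨by positivity, ?_⟩
  simp only [Pi.sub_apply]
  have : (2 / (q : ℝ)) ^ 2 = 4 * (1 / q) ^ 2 := by ring
  rw [this]
  have : 0 ≤ (1 / (q : ℝ)) ^ 2 := by positivity
  linarith

/-- invertible real matrices -/
abbrev GLR : Type := {M : Matrix (Fin 2) (Fin 2) ℝ // M.det ≠ 0}

instance : Nonempty GLR := ⟨⟨1, by simp⟩⟩

/-- the matrix which contracts towards the unit vector `u` -/
noncomputable def gR (u : Fin 2 → ℝ) : Matrix (Fin 2) (Fin 2) ℝ :=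
  !![u 0 / 2, u 1 / 2; -(2 * u 1), 2 * u 0]

lemma gR_det {u : Fin 2 → ℝ} (hu : en2 u = 1) : (gR u).det = 1 := by
  unfold gR
  rw [Matrix.det_fin_two_of]
  have := en2_sq u
  rw [hu] at this
  linarith

lemma gR_norm_sq {u : Fin 2 → ℝ} (hu : en2 u = 1) (v : Fin 2 → ℝ) :
    en2 ((gR u).mulVec v) ^ 2 = (en2 v ^ 2 - (br u v) ^ 2) / 4 + 4 * (br u v) ^ 2 := by
  have h := en2_sq u
  rw [hu] at h
  rw [en2_sq, en2_sq v]
  unfold gR br
  simp only [Matrix.mulVec, dotProduct, Fin.sum_univ_two, Matrix.of_apply, Matrix.cons_val_zero,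
    Matrix.cons_val_one, Matrix.cons_val', Matrix.empty_val', Matrix.cons_val_fin_one]
  have h2 : u 1 ^ 2 = 1 - u 0 ^ 2 := by linarith
  have h3 : (u 0 * v 0 + u 1 * v 1) ^ 2 + (u 0 * v 1 - u 1 * v 0) ^ 2 =
      (u 0 ^ 2 + u 1 ^ 2) * (v 0 ^ 2 + v 1 ^ 2) := by ring
  have h4 : u 0 ^ 2 + u 1 ^ 2 = 1 := by linarith
  rw [h4, one_mul] at h3
  linear_combination h3 / 4

lemma gR_le {u : Fin 2 → ℝ} (hu : en2 u = 1) (v : Fin 2 → ℝ) :
    en2 ((gR u).mulVec v) ≤ 2 * en2 v := by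
  have h1 := gR_norm_sq hu v
  have h2 := br_le u v
  rw [hu, one_mul] at h2
  have h3 : (br u v) ^ 2 ≤ en2 v ^ 2 := by
    rw [← sq_abs]
    exact pow_le_pow_left₀ (abs_nonneg _) h2 2
  apply le_of_sq_le_sq _ (by have := en2_nonneg v; linarith)
  rw [mul_pow]
  nlinarith

lemma gR_near {u : Fin 2 → ℝ} (hu : en2 u = 1) (v : Fin 2 → ℝ) (h : |br u v| ≤ 1 / 4 * en2 v) :
    en2 ((gR u).mulVec v) ^ 2 ≤ 1 / 2 * en2 v ^ 2 := by
  have h1 := gR_norm_sq hu v
  have h3 : (br u v) ^ 2 ≤ (1 / 4 * en2 v) ^ 2 := by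
    rw [← sq_abs]
    exact pow_le_pow_left₀ (abs_nonneg _) h 2
  rw [h1]
  nlinarith [sq_nonneg (en2 v)]

/-- Coordinates at the archimedean place for which at most two thirds of the points are near a
given one. -/
theorem exists_frame_arch (A : Finset α) (r : α → Fin 2 → ℚ) (hr : ∀ x ∈ A, r x ≠ 0)
    (hbr : ∀ x ∈ A, ∀ y ∈ A, x ≠ y → br (r x) (r y) ≠ 0) (hA : 2 ≤ A.card) :
    ∃ M : Matrix (Fin 2) (Fin 2) ℝ, M.det ≠ 0 ∧ ∀ x₀ ∈ A,
      3 * (A.filter (fun x => |br (un M (r x₀)) (un M (r x))| ≤ 1 / 4)).card ≤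
        2 * A.card + 1 := by
  classical
  -- the function to be minimised
  set Ψ : GLR → ℝ := fun M => ∑ x ∈ A, lR M.1 (r x) with hΨ
  have hlow : ∃ b : ℝ, ∀ M : GLR, b ≤ Ψ M := by
    refine ⟨en (fun x y => Real.log (Rat.AbsoluteValue.real (br (r x) (r y)))) A /
      (2 * ((A.card : ℝ) - 1)), fun M => ?_⟩
    have hc : (0 : ℝ) < 2 * ((A.card : ℝ) - 1) := by
      have : (2 : ℝ) ≤ A.card := by exact_mod_cast hA
      linarith
    rw [div_le_iff₀ hc]
    have h1 := en_add (fun x => lR M.1 (r x)) A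
    have h2 : en (fun x y => Real.log (Rat.AbsoluteValue.real (br (r x) (r y)))) A ≤
        en (fun x y => lR M.1 (r x) + lR M.1 (r y)) A := by
      unfold en
      refine sum_le_sum fun x hx => sum_le_sum fun y hy => ?_
      rw [mem_erase] at hy
      have h3 := lE_arch_nonneg M.2 (hr x hx) (hr y hy.2) (hbr x hx y hy.2 (Ne.symm hy.1))
      unfold lE at h3
      linarith
    rw [h1] at h2
    rw [hΨ]
    simp only
    linarith
  obtain ⟨b, hb⟩ := hlow
  have hlog2 : 0 < Real.log 2 := Real.log_pos (by norm_num)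
  obtain ⟨M, hM⟩ := near_min Ψ hb (show 0 < Real.log 2 / 2 by linarith)
  refine ⟨M.1, M.2, fun x₀ hx₀ => ?_⟩
  set u := un M.1 (r x₀) with hu
  have hu1 : en2 u = 1 := en2_un M.2 (hr x₀ hx₀)
  have hgM : (gR u * M.1).det ≠ 0 := by
    rw [Matrix.det_mul, gR_det hu1, one_mul]; exact M.2
  have h1 := hM ⟨gR u * M.1, hgM⟩
  set N := A.filter (fun x => |br u (un M.1 (r x))| ≤ 1 / 4) with hN
  -- the change of the norms
  have hdiff : ∀ x ∈ A, lR (gR u * M.1) (r x) - lR M.1 (r x) =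
      Real.log (en2 ((gR u).mulVec (M.1.mulVec (im φR (r x))))) -
        Real.log (en2 (M.1.mulVec (im φR (r x)))) := by
    intro x hx
    unfold lR lN
    rw [Matrix.det_mul, gR_det hu1, one_mul, ← Matrix.mulVec_mulVec]
    ring
  have hpos : ∀ x ∈ A, 0 < en2 (M.1.mulVec (im φR (r x))) := fun x hx =>
    en2_mulVec_pos M.2 (hr x hx)
  have hpos' : ∀ x ∈ A, 0 < en2 ((gR u).mulVec (M.1.mulVec (im φR (r x)))) := fun x hx => by
    apply en2_pos
    apply mulVec_ne_zero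
    · rw [gR_det hu1]; exact one_ne_zero
    · exact mulVec_ne_zero M.2 (im_ne_zero φR (hr x hx))
  have hall : ∀ x ∈ A, lR (gR u * M.1) (r x) - lR M.1 (r x) ≤ Real.log 2 := by
    intro x hx
    rw [hdiff x hx]
    have h2 := Real.log_le_log (hpos' x hx) (gR_le hu1 _)
    rw [Real.log_mul (by norm_num) (hpos x hx).ne'] at h2
    linarith
  have hnear : ∀ x ∈ N, lR (gR u * M.1) (r x) - lR M.1 (r x) ≤ -(Real.log 2 / 2) := by
    intro x hx
    rw [hN, mem_filter] at hx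
    rw [hdiff x hx.1]
    have h2 : |br u (M.1.mulVec (im φR (r x)))| ≤ 1 / 4 * en2 (M.1.mulVec (im φR (r x))) := by
      have h3 := hx.2
      have h4 : br u (un M.1 (r x)) =
          (en2 (M.1.mulVec (im φR (r x))))⁻¹ * br u (M.1.mulVec (im φR (r x))) := by
        unfold un br
        simp only [Pi.smul_apply, smul_eq_mul]
        ring
      rw [h4, abs_mul, abs_of_pos (inv_pos.2 (hpos x hx.1)), inv_mul_le_iff₀ (hpos x hx.1)] at h3
      linarith
    have h5 := gR_near hu1 _ h2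
    have h6 := Real.log_le_log (pow_pos (hpos' x hx.1) 2) h5
    rw [Real.log_mul (by norm_num) (pow_pos (hpos x hx.1) 2).ne', Real.log_pow, Real.log_pow,
      Real.log_div (by norm_num) (by norm_num), Real.log_one] at h6
    push_cast at h6
    linarith
  have hNA : N ⊆ A := filter_subset _ _
  have hsum : Ψ ⟨gR u * M.1, hgM⟩ - Ψ M ≤
      (N.card : ℝ) * (-(Real.log 2 / 2)) + ((A.card : ℝ) - N.card) * Real.log 2 := by
    rw [hΨ]
    simp only
    rw [← sum_sub_distrib, ← sum_sdiff hNA]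
    have h2 := sum_le_card_nsmul N _ _ hnear
    have h3 := sum_le_card_nsmul (A \ N) (fun x => lR (gR u * M.1) (r x) - lR M.1 (r x))
      (Real.log 2) (fun x hx => hall x (mem_sdiff.1 hx).1)
    rw [nsmul_eq_mul] at h2 h3
    rw [card_sdiff_of_subset hNA, Nat.cast_sub (card_le_card hNA)] at h3
    linarith
  have h7 : (3 * (N.card : ℝ)) * Real.log 2 ≤ (2 * (A.card : ℝ) + 1) * Real.log 2 := by
    linarith
  have h8 := le_of_mul_le_mul_right h7 hlog2
  exact_mod_cast h8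

end Pool.Agent.T6.H83.RM
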