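import Pool.Agent.T6.H83.RM.Con6
import Pool.Agent.TH856.PG.RatSys

/-!
# Coordinates for which no residue class contains more than half of the points
-/

set_option autoImplicit false
set_option linter.unusedSectionVars false
set_option linter.unusedVariables false

namespace Pool.Agent.T6.H83.RM

open Finset Matrix
open Pool.Agent.H892.PGR (nm nm_pos nm_smul)
open Pool.Agent.TH856.PG (Pr qav qav_eq discQ)

variable {α : Type*} [DecidableEq α]

/-- splitting a set with an ultrametric without large balls -/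
theorem exists_split (E : α → α → ℝ) (N : Finset α) (hs : ∀ x y, E x y = E y x)
    (h0 : ∀ x ∈ N, ∀ y ∈ N, x ≠ y → 0 ≤ E x y)
    (hu : ∀ x ∈ N, ∀ y ∈ N, ∀ z ∈ N, x ≠ y → y ≠ z → x ≠ z → min (E x y) (E y z) ≤ E x z)
    (hcl : ∀ x ∈ N, 2 * (N.filter (fun y => y = x ∨ 0 < E x y)).card ≤ N.card) :
    ∃ P P' : Finset α, P ∪ P' = N ∧ Disjoint P P' ∧ N.card ≤ 4 * P.card ∧
      N.card ≤ 4 * P'.card ∧ ∀ x ∈ P, ∀ y ∈ P', E x y = 0 := by
  classical
  rcases N.eq_empty_or_nonempty with rfl | hne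
  · exact ⟨∅, ∅, by simp, by simp, by simp, by simp, by simp⟩
  set Cl : Finset (Finset α) := N.powerset.filter (fun P => 4 * P.card ≤ 3 * N.card ∧
    ∀ x ∈ P, N.filter (fun y => y = x ∨ 0 < E x y) ⊆ P) with hCl
  have hCne : Cl.Nonempty := ⟨∅, by
    rw [hCl, mem_filter, mem_powerset]
    refine ⟨empty_subset _, by simp, fun x hx => absurd hx (notMem_empty x)⟩⟩
  obtain ⟨P, hP, hmax⟩ := exists_max_image Cl card hCne
  rw [hCl, mem_filter, mem_powerset] at hP
  obtain ⟨hPN, hP4, hPc⟩ := hP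
  have hNpos := card_pos.2 hne
  have hbig : N.card ≤ 4 * P.card := by
    by_contra hcon
    push Not at hcon
    obtain ⟨x, hx, hxP⟩ : ∃ x ∈ N, x ∉ P := by
      by_contra h1
      push Not at h1
      have := card_le_card (show N ⊆ P from h1)
      omega
    set c := N.filter (fun y => y = x ∨ 0 < E x y) with hc
    have hxc : x ∈ c := by rw [hc, mem_filter]; exact ⟨hx, Or.inl rfl⟩
    have h1 : P ∪ c ∈ Cl := by
      rw [hCl, mem_filter, mem_powerset]
      refine ⟨union_subset hPN (filter_subset _ _), ?_, ?_⟩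
      · have h2 := card_union_le P c
        have h3 := hcl x hx
        rw [← hc] at h3
        omega
      · intro y hy z hz
        rw [mem_filter] at hz
        rcases mem_union.1 hy with hy | hy
        · exact mem_union_left _ (hPc y hy (mem_filter.2 hz))
        · apply mem_union_right
          rw [hc, mem_filter] at hy ⊢
          refine ⟨hz.1, ?_⟩
          rcases hz.2 with hz2 | hz2
          · rw [hz2]; exact hy.2
          rcases hy.2 with hy2 | hy2
          · rw [← hy2]; exact Or.inr hz2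
          by_cases hzx : z = x
          · exact Or.inl hzx
          right
          by_cases hyz : z = y
          · rw [hyz]; exact hy2
          by_cases hxy : y = x
          · rw [← hxy]; exact hz2
          have h4 := hu x hx y hy.1 z hz.1 (Ne.symm hxy) (Ne.symm hyz) (Ne.symm hzx)
          exact lt_of_lt_of_le (lt_min hy2 hz2) h4
    have h2 := hmax _ h1
    have h3 : P.card < (P ∪ c).card := by
      apply card_lt_card
      rw [ssubset_iff_of_subset subset_union_left]
      exact ⟨x, mem_union_right _ hxc, hxP⟩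
    omega
  refine ⟨P, N \ P, union_sdiff_of_subset hPN, disjoint_sdiff, hbig, ?_, ?_⟩
  · rw [card_sdiff_of_subset hPN]
    omega
  · intro x hx y hy
    rw [mem_sdiff] at hy
    have h1 : ¬ (y = x ∨ 0 < E x y) := fun h => hy.2 (hPc x hx (mem_filter.2 ⟨hy.1, h⟩))
    push Not at h1
    exact le_antisymm h1.2 (h0 x (hPN hx) y hy.1 (Ne.symm h1.1))

/-- invertible rational matrices -/
abbrev GLQ : Type := {M : Matrix (Fin 2) (Fin 2) ℚ // M.det ≠ 0}

instance : Nonempty GLQ := ⟨⟨1, by simp⟩⟩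

lemma qav_na (p : Pr) (x y : ℚ) : qav p (x + y) ≤ max (qav p x) (qav p y) := by
  have : Fact p.1.Prime := ⟨p.2⟩
  rw [qav_eq, qav_eq, qav_eq]
  exact_mod_cast @padicNorm.nonarchimedean p.1 _ x y

lemma qav_lt (p : Pr) {x y : ℚ} (h : qav p x < qav p y) : qav p x ≤ qav p y / p.1 := by
  have hf : Fact p.1.Prime := ⟨p.2⟩
  have hp : (0 : ℝ) < p.1 := by exact_mod_cast p.2.pos
  by_cases hx : x = 0
  · rw [hx, map_zero]
    have := (qav p).nonneg y
    positivity
  have hy : y ≠ 0 := by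
    rintro rfl
    rw [map_zero] at h
    exact absurd h (not_lt.2 ((qav p).nonneg x))
  rw [qav_eq, qav_eq] at h ⊢
  have h' : padicNorm p.1 x < padicNorm p.1 y := by exact_mod_cast h
  rw [padicNorm.eq_zpow_of_nonzero hx, padicNorm.eq_zpow_of_nonzero hy] at h'
  have hp1 : (1 : ℚ) < (p.1 : ℚ) := by exact_mod_cast p.2.one_lt
  have h2 := (zpow_lt_zpow_iff_right₀ hp1).1 h'
  rw [padicNorm.eq_zpow_of_nonzero hx, padicNorm.eq_zpow_of_nonzero hy]
  have hp1' : (1 : ℝ) < (p.1 : ℝ) := by exact_mod_cast p.2.one_lt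
  push_cast
  rw [le_div_iff₀ hp]
  calc (p.1 : ℝ) ^ (-padicValRat p.1 x) * p.1 = (p.1 : ℝ) ^ (-padicValRat p.1 x + 1) := by
        rw [zpow_add₀ hp.ne', zpow_one]
    _ ≤ (p.1 : ℝ) ^ (-padicValRat p.1 y) := zpow_le_zpow_right₀ hp1'.le (by omega)

lemma qav_p (p : Pr) : qav p (p.1 : ℚ) = (p.1 : ℝ)⁻¹ := by
  have hf : Fact p.1.Prime := ⟨p.2⟩
  rw [qav_eq, padicNorm.padicNorm_p_of_prime]
  push_cast
  rfl

/-- the logarithmic norm at the prime `p` in rational coordinates -/
noncomputable abbrev lQ (p : Pr) (M : Matrix (Fin 2) (Fin 2) ℚ) : (Fin 2 → ℚ) → ℝ :=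
  lN (RingHom.id ℚ) (qav p) M (nm (qav p))

/-- for a vector `u` of norm one: a matrix of determinant `p` times a unit which contracts towards
`u` -/
lemma exists_gQ (p : Pr) {u : Fin 2 → ℚ} (hu : nm (qav p) u = 1) :
    ∃ g : Matrix (Fin 2) (Fin 2) ℚ, qav p g.det = (p.1 : ℝ)⁻¹ ∧
      (∀ v, nm (qav p) (g.mulVec v) ≤ nm (qav p) v) ∧
      ∀ v, qav p (br u v) < nm (qav p) v →
        nm (qav p) (g.mulVec v) ≤ nm (qav p) v / p.1 := by
  have hp : (0 : ℝ) < p.1 := by exact_mod_cast p.2.pos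
  have hp1 : (1 : ℝ) < p.1 := by exact_mod_cast p.2.one_lt
  have hpi : (p.1 : ℝ)⁻¹ ≤ 1 := inv_le_one_of_one_le₀ hp1.le
  have hu0 : qav p (u 0) ≤ 1 := hu ▸ le_max_left _ _
  have hu1 : qav p (u 1) ≤ 1 := hu ▸ le_max_right _ _
  have hbr : ∀ v : Fin 2 → ℚ, qav p (br u v) ≤ nm (qav p) v := by
    intro v
    unfold br
    have h1 : qav p (u 0 * v 1 - u 1 * v 0) ≤ max (qav p (u 0 * v 1)) (qav p (u 1 * v 0)) := by
      have := qav_na p (u 0 * v 1) (-(u 1 * v 0))
      rwa [AbsoluteValue.map_neg, ← sub_eq_add_neg] at this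
    refine h1.trans (max_le ?_ ?_)
    · rw [map_mul]
      calc qav p (u 0) * qav p (v 1) ≤ 1 * nm (qav p) v :=
            mul_le_mul hu0 (le_nm v 1) ((qav p).nonneg _) zero_le_one
        _ = _ := one_mul _
    · rw [map_mul]
      calc qav p (u 1) * qav p (v 0) ≤ 1 * nm (qav p) v :=
            mul_le_mul hu1 (le_nm v 0) ((qav p).nonneg _) zero_le_one
        _ = _ := one_mul _
  -- the two coordinates
  have key : ∀ (i : Fin 2) (g : Matrix (Fin 2) (Fin 2) ℚ),
      (∀ v, g.mulVec v 0 = p.1 * v i) → (∀ v, g.mulVec v 1 = br u v) →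
      (∀ v, nm (qav p) (g.mulVec v) ≤ nm (qav p) v) ∧
      ∀ v, qav p (br u v) < nm (qav p) v →
        nm (qav p) (g.mulVec v) ≤ nm (qav p) v / p.1 := by
    intro i g hg0 hg1
    have h1 : ∀ v : Fin 2 → ℚ, qav p (g.mulVec v 0) ≤ nm (qav p) v / p.1 := by
      intro v
      rw [hg0, map_mul, qav_p, div_eq_inv_mul]
      exact mul_le_mul_of_nonneg_left (le_nm v i) (inv_nonneg.2 hp.le)
    refine ⟨fun v => ?_, fun v hv => ?_⟩
    · unfold nm
      refine max_le ?_ ?_
      · refine (h1 v).trans (div_le_self ?_ hp1.le)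
        exact le_trans ((qav p).nonneg _) (le_nm v 0)
      · rw [hg1]; exact hbr v
    · have h2 : qav p (br u v) ≤ nm (qav p) v / p.1 := by
        unfold nm at hv ⊢
        rcases max_choice (qav p (v 0)) (qav p (v 1)) with h | h
        · rw [h] at hv ⊢; exact qav_lt p hv
        · rw [h] at hv ⊢; exact qav_lt p hv
      have h3 : nm (qav p) (g.mulVec v) = max (qav p (g.mulVec v 0)) (qav p (g.mulVec v 1)) := rfl
      rw [h3]
      refine max_le (h1 v) ?_
      rw [hg1]; exact h2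
  rcases le_total (qav p (u 0)) (qav p (u 1)) with h | h
  · have h1 : qav p (u 1) = 1 := by rw [← hu]; exact (max_eq_right h).symm
    refine ⟨!![0, (p.1 : ℚ); -u 1, u 0], ?_, key 1 _ ?_ ?_⟩
    · rw [Matrix.det_fin_two_of]
      have : (0 : ℚ) * u 0 - p.1 * -u 1 = p.1 * u 1 := by ring
      rw [this, map_mul, qav_p, h1, mul_one]
    · intro v
      simp [Matrix.mulVec, dotProduct, Fin.sum_univ_two]
    · intro v
      simp [Matrix.mulVec, dotProduct, Fin.sum_univ_two, br]
      ring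
  · have h1 : qav p (u 0) = 1 := by rw [← hu]; exact (max_eq_left h).symm
    refine ⟨!![(p.1 : ℚ), 0; -u 1, u 0], ?_, key 0 _ ?_ ?_⟩
    · rw [Matrix.det_fin_two_of]
      have : (p.1 : ℚ) * u 0 - 0 * -u 1 = p.1 * u 0 := by ring
      rw [this, map_mul, qav_p, h1, mul_one]
    · intro v
      simp [Matrix.mulVec, dotProduct, Fin.sum_univ_two]
    · intro v
      simp [Matrix.mulVec, dotProduct, Fin.sum_univ_two, br]
      ring

/-- Coordinates at the prime `p` for which every residue class contains at most half of the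
points. -/
theorem exists_frame_nonarch (p : Pr) (A : Finset α) (r : α → Fin 2 → ℚ)
    (hr : ∀ x ∈ A, r x ≠ 0) (hbr : ∀ x ∈ A, ∀ y ∈ A, x ≠ y → br (r x) (r y) ≠ 0)
    (hA : 2 ≤ A.card) :
    ∃ M : Matrix (Fin 2) (Fin 2) ℚ, M.det ≠ 0 ∧ ∀ x₀ ∈ A,
      2 * (A.filter (fun x => x = x₀ ∨ 0 < lE (qav p) (lQ p M) (r x₀) (r x))).card ≤
        A.card := by
  classical
  have hwid : ∀ q : ℚ, qav p ((RingHom.id ℚ) q) = qav p q := fun q => rfl
  -- the function to be minimised
  set Ψ : GLQ → ℝ := fun M => ∑ x ∈ A, lQ p M.1 (r x) with hΨ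
  have hlow : ∃ b : ℝ, ∀ M : GLQ, b ≤ Ψ M := by
    refine ⟨en (fun x y => Real.log (qav p (br (r x) (r y)))) A /
      (2 * ((A.card : ℝ) - 1)), fun M => ?_⟩
    have hc : (0 : ℝ) < 2 * ((A.card : ℝ) - 1) := by
      have : (2 : ℝ) ≤ A.card := by exact_mod_cast hA
      linarith
    rw [div_le_iff₀ hc]
    have h1 := en_add (fun x => lQ p M.1 (r x)) A
    have h2 : en (fun x y => Real.log (qav p (br (r x) (r y)))) A ≤
        en (fun x y => lQ p M.1 (r x) + lQ p M.1 (r y)) A := by
      unfold en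
      refine sum_le_sum fun x hx => sum_le_sum fun y hy => ?_
      rw [mem_erase] at hy
      have h3 := lE_nonneg (RingHom.id ℚ) (qav_na p) hwid M.2 (hr x hx) (hr y hy.2)
        (hbr x hx y hy.2 (Ne.symm hy.1))
      unfold lE at h3
      linarith
    rw [h1] at h2
    rw [hΨ]
    simp only
    linarith
  obtain ⟨b, hb⟩ := hlow
  have hp : (0 : ℝ) < p.1 := by exact_mod_cast p.2.pos
  have hp1 : (1 : ℝ) < p.1 := by exact_mod_cast p.2.one_lt
  have hlogp : 0 < Real.log p.1 := Real.log_pos hp1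
  obtain ⟨M, hM⟩ := near_min Ψ hb (show 0 < Real.log p.1 / 4 by linarith)
  refine ⟨M.1, M.2, fun x₀ hx₀ => ?_⟩
  have hy₀ : M.1.mulVec (im (RingHom.id ℚ) (r x₀)) ≠ 0 :=
    mulVec_ne_zero M.2 (im_ne_zero _ (hr x₀ hx₀))
  obtain ⟨c, hc, hcu⟩ := exists_scale (w := qav p) hy₀
  set u := c • M.1.mulVec (im (RingHom.id ℚ) (r x₀)) with hu
  obtain ⟨g, hg1, hg2, hg3⟩ := exists_gQ p hcu
  have hg0 : g.det ≠ 0 := by
    intro h
    rw [h, map_zero] at hg1
    exact (inv_pos.2 hp).ne hg1
  have hgM : (g * M.1).det ≠ 0 := by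
    rw [Matrix.det_mul]; exact mul_ne_zero hg0 M.2
  have h1 := hM ⟨g * M.1, hgM⟩
  set N := A.filter (fun x => x = x₀ ∨ 0 < lE (qav p) (lQ p M.1) (r x₀) (r x)) with hN
  have hpos : ∀ x ∈ A, 0 < nm (qav p) (M.1.mulVec (im (RingHom.id ℚ) (r x))) := fun x hx =>
    nm_mulVec_pos _ M.2 (hr x hx)
  have hpos' : ∀ x ∈ A, 0 < nm (qav p) (g.mulVec (M.1.mulVec (im (RingHom.id ℚ) (r x)))) :=
    fun x hx => nm_pos _ (mulVec_ne_zero hg0 (mulVec_ne_zero M.2 (im_ne_zero _ (hr x hx))))
  have hdiff : ∀ x ∈ A, lQ p (g * M.1) (r x) - lQ p M.1 (r x) =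
      Real.log (nm (qav p) (g.mulVec (M.1.mulVec (im (RingHom.id ℚ) (r x))))) -
        Real.log (nm (qav p) (M.1.mulVec (im (RingHom.id ℚ) (r x)))) + Real.log p.1 / 2 := by
    intro x hx
    unfold lQ lN
    rw [Matrix.det_mul, map_mul, Real.log_mul ((qav p).pos hg0).ne' ((qav p).pos M.2).ne', hg1,
      Real.log_inv, ← Matrix.mulVec_mulVec]
    ring
  have hall : ∀ x ∈ A, lQ p (g * M.1) (r x) - lQ p M.1 (r x) ≤ Real.log p.1 / 2 := by
    intro x hx
    rw [hdiff x hx]
    have h2 := Real.log_le_log (hpos' x hx) (hg2 _)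
    linarith
  have hnear : ∀ x ∈ N, lQ p (g * M.1) (r x) - lQ p M.1 (r x) ≤ -(Real.log p.1 / 2) := by
    intro x hx
    rw [hN, mem_filter] at hx
    rw [hdiff x hx.1]
    have hlt : qav p (br u (M.1.mulVec (im (RingHom.id ℚ) (r x)))) <
        nm (qav p) (M.1.mulVec (im (RingHom.id ℚ) (r x))) := by
      have e1 : br u (M.1.mulVec (im (RingHom.id ℚ) (r x))) =
          c * (M.1.det * br (r x₀) (r x)) := by
        rw [hu]
        have : br (c • M.1.mulVec (im (RingHom.id ℚ) (r x₀)))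
            (M.1.mulVec (im (RingHom.id ℚ) (r x))) =
            c * br (M.1.mulVec (im (RingHom.id ℚ) (r x₀)))
              (M.1.mulVec (im (RingHom.id ℚ) (r x))) := by
          unfold br
          simp only [Pi.smul_apply, smul_eq_mul]
          ring
        rw [this, br_mulVec, br_im]
        rfl
      rcases hx.2 with h2 | h2
      · rw [e1, h2]
        have : br (r x₀) (r x₀) = 0 := by unfold br; ring
        rw [this, mul_zero, mul_zero, map_zero]
        exact hpos x₀ hx₀
      · by_cases h3 : x = x₀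
        · rw [e1, h3]
          have : br (r x₀) (r x₀) = 0 := by unfold br; ring
          rw [this, mul_zero, mul_zero, map_zero]
          exact hpos x₀ hx₀
        have hb0 := hbr x₀ hx₀ x hx.1 (Ne.symm h3)
        -- exponentiate the positivity of the local product
        have e2 : nm (qav p) (c • M.1.mulVec (im (RingHom.id ℚ) (r x₀))) = 1 := hcu
        rw [nm_smul] at e2
        have p0 := hpos x₀ hx₀
        have px := hpos x hx.1
        have pc : 0 < qav p c := (qav p).pos hc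
        have pd : 0 < qav p M.1.det := (qav p).pos M.2
        have pb : 0 < qav p (br (r x₀) (r x)) := (qav p).pos hb0
        rw [e1, map_mul, map_mul]
        have e3 : lE (qav p) (lQ p M.1) (r x₀) (r x) =
            Real.log (nm (qav p) (M.1.mulVec (im (RingHom.id ℚ) (r x)))) -
            Real.log (qav p c * (qav p M.1.det * qav p (br (r x₀) (r x)))) := by
          have e4 : Real.log (qav p c) +
              Real.log (nm (qav p) (M.1.mulVec (im (RingHom.id ℚ) (r x₀)))) = 0 := by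
            rw [← Real.log_mul pc.ne' p0.ne', e2, Real.log_one]
          unfold lE lQ lN
          rw [Real.log_mul pc.ne' (mul_pos pd pb).ne', Real.log_mul pd.ne' pb.ne']
          linarith
        rw [e3] at h2
        have h4 : Real.log (qav p c * (qav p M.1.det * qav p (br (r x₀) (r x)))) <
            Real.log (nm (qav p) (M.1.mulVec (im (RingHom.id ℚ) (r x)))) := by linarith
        exact (Real.log_lt_log_iff (by positivity) px).1 h4
    have h5 := hg3 _ hlt
    have h6 := Real.log_le_log (hpos' x hx.1) h5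
    rw [Real.log_div (hpos x hx.1).ne' hp.ne'] at h6
    linarith
  have hNA : N ⊆ A := filter_subset _ _
  have hsum : Ψ ⟨g * M.1, hgM⟩ - Ψ M ≤
      (N.card : ℝ) * (-(Real.log p.1 / 2)) +
        ((A.card : ℝ) - N.card) * (Real.log p.1 / 2) := by
    rw [hΨ]
    simp only
    rw [← sum_sub_distrib, ← sum_sdiff hNA]
    have h2 := sum_le_card_nsmul N _ _ hnear
    have h3 := sum_le_card_nsmul (A \ N) (fun x => lQ p (g * M.1) (r x) - lQ p M.1 (r x))
      (Real.log p.1 / 2) (fun x hx => hall x (mem_sdiff.1 hx).1)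
    rw [nsmul_eq_mul] at h2 h3
    rw [card_sdiff_of_subset hNA, Nat.cast_sub (card_le_card hNA)] at h3
    linarith
  have h7 : (4 * (N.card : ℝ)) * Real.log p.1 ≤ (2 * (A.card : ℝ) + 1) * Real.log p.1 := by
    linarith
  have h8 := le_of_mul_le_mul_right h7 hlogp
  have h9 : 4 * N.card ≤ 2 * A.card + 1 := by exact_mod_cast h8
  omega

end Pool.Agent.T6.H83.RM
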