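import Pool.Agent.T6.H83.RM.Con7
import Pool.Agent.T6.H83.RM.Con4
import Pool.Agent.T6.H83.RM.Abs5

/-!
# The system of places of a map
-/

set_option autoImplicit false
set_option linter.unusedSectionVars false
set_option linter.unusedVariables false

namespace Pool.Agent.T6.H83.RM

open Finset MvPolynomial
open Pool.Agent.H892.PGR (nm nm_pos nm_smul Phi)
open Pool.Agent.H892.PGK (PotGood PP fX fX_mk br_zero_iff)
open Pool.Agent.TH856.PG (Pr qav qav_eq NoZero phi_ne_zero rep_fX wv wv_ne_zero dt_wv_ne dt ev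
  ev_wv hfinQ hprodQ)

section enum

variable {α : Type*} [DecidableEq α]

/-- the sum over pairs in terms of an enumeration -/
lemma en_enum (e : α → α → ℝ) (hs : ∀ x y, e x y = e y x) (B : Finset α) {n : ℕ}
    (v : Fin n ≃ B) : en e B = 2 * ∑ i, ∑ j ∈ Ioi i, e (v i) (v j) := by
  classical
  have h1 : en e B = ∑ i : Fin n, ∑ j ∈ univ.erase i, e (v i) (v j) := by
    unfold en
    rw [← sum_coe_sort B (fun x => ∑ y ∈ B.erase x, e x y)]
    rw [← Equiv.sum_comp v]
    refine sum_congr rfl fun i _ => ?_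
    symm
    refine sum_bij (fun j _ => (v j : α)) ?_ ?_ ?_ ?_
    · intro j hj
      rw [mem_erase]
      refine ⟨fun h => ?_, (v j).2⟩
      exact (ne_of_mem_erase hj) (v.injective (Subtype.ext h))
    · intro j _ k _ h
      exact v.injective (Subtype.ext h)
    · intro y hy
      obtain ⟨hy1, hy2⟩ := mem_erase.1 hy
      refine ⟨v.symm ⟨y, hy2⟩, ?_, by simp⟩
      rw [mem_erase]
      refine ⟨fun h => hy1 ?_, mem_univ _⟩
      rw [← h]; simp
    · intro j _
      rfl
  have h2 : ∀ i : Fin n, (univ.erase i : Finset (Fin n)) = Ioi i ∪ Iio i := by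
    intro i
    ext j
    simp only [mem_erase, mem_univ, and_true, mem_union, mem_Ioi, mem_Iio]
    constructor
    · intro h; rcases lt_or_gt_of_ne h with h | h <;> tauto
    · rintro (h | h)
      · exact ne_of_gt h
      · exact ne_of_lt h
  have h3 : ∀ i : Fin n, Disjoint (Ioi i) (Iio i) := by
    intro i
    rw [disjoint_left]
    intro j hj hj'
    rw [mem_Ioi] at hj
    rw [mem_Iio] at hj'
    exact lt_asymm hj hj'
  have h4 : ∑ i : Fin n, ∑ j ∈ Iio i, e (v i) (v j) =
      ∑ i : Fin n, ∑ j ∈ Ioi i, e (v i) (v j) := by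
    rw [sum_comm' (t' := univ) (s' := fun j => Ioi j)]
    · refine sum_congr rfl fun i _ => sum_congr rfl fun j _ => ?_
      rw [hs]
    · intro x y
      simp
  rw [h1]
  simp_rw [h2, sum_union (h3 _)]
  rw [sum_add_distrib, h4]
  ring

end enum

lemma br_rep_ne {x y : PP ℚ} (h : x ≠ y) : br x.rep y.rep ≠ 0 := by
  intro h0
  apply h
  have := (br_zero_iff x.rep_nonzero y.rep_nonzero).1 h0
  rwa [x.mk_rep, y.mk_rep] at this

/-- from the local inequality to the inequality of the abstract system -/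
lemma det_field [DecidableEq (PP ℚ)] {a : AbsoluteValue ℚ ℝ} {l : (Fin 2 → ℚ) → ℝ}
    {F G : MvPolynomial (Fin 2) ℚ} {J d : ℕ} {err : ℝ}
    (hne : ∀ v : Fin 2 → ℚ, v ≠ 0 → Phi F G v ≠ 0)
    (hloc : ∀ x : Fin ((J + 1) * d) → Fin 2 → ℚ, VP x ≠ 0 → (∀ i, x i ≠ 0) →
      (∀ i, Phi F G (x i) ≠ 0) →
      Real.log (a (VP x)) + Real.log (a (Lam F G J d)) ≤
        err + J * ∑ i, l (Phi F G (x i)) + (d - 1) * ∑ i, l (x i))
    (B : Finset (PP ℚ)) (hB : B.card = (J + 1) * d) :
    J * ∑ x ∈ B, (d * l x.rep - l (Phi F G x.rep)) + Real.log (a (Lam F G J d)) ≤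
      en (fun x y => lE a l x.rep y.rep) B / 2 + err := by
  classical
  have hcard : Fintype.card B = (J + 1) * d := by rw [Fintype.card_coe, hB]
  set v : Fin ((J + 1) * d) ≃ B := (Fintype.equivFinOfCardEq hcard).symm with hv
  have hbr : ∀ i j : Fin ((J + 1) * d), i ≠ j → br (v i : PP ℚ).rep (v j : PP ℚ).rep ≠ 0 := by
    intro i j hij
    exact br_rep_ne fun h => hij (v.injective (Subtype.ext h))
  set x : Fin ((J + 1) * d) → Fin 2 → ℚ := fun i => (v i : PP ℚ).rep with hx
  have hVP : VP x ≠ 0 := by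
    unfold VP
    rw [prod_ne_zero_iff]
    intro i _
    rw [prod_ne_zero_iff]
    intro j hj
    exact hbr j i (ne_of_gt (mem_Ioi.1 hj))
  have h1 := hloc x hVP (fun i => (v i : PP ℚ).rep_nonzero)
    (fun i => hne _ (v i : PP ℚ).rep_nonzero)
  -- sums over the set
  have hsum : ∀ g : (Fin 2 → ℚ) → ℝ, ∑ i, g (x i) = ∑ y ∈ B, g y.rep := by
    intro g
    rw [← sum_coe_sort B (fun y => g y.rep), ← Equiv.sum_comp v]
  rw [hsum l, hsum (fun y => l (Phi F G y))] at h1
  -- the energy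
  have h2 : en (fun x y => lE a l x.rep y.rep) B =
      en (fun x y : PP ℚ => l x.rep + l y.rep) B -
        en (fun x y : PP ℚ => Real.log (a (br x.rep y.rep))) B := by
    unfold en lE
    rw [← sum_sub_distrib]
    refine sum_congr rfl fun y _ => ?_
    rw [← sum_sub_distrib]
  have hs : ∀ x y : PP ℚ, Real.log (a (br x.rep y.rep)) = Real.log (a (br y.rep x.rep)) := by
    intro x y
    have : br x.rep y.rep = - br y.rep x.rep := by unfold br; ring
    rw [this, AbsoluteValue.map_neg]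
  have h3 : en (fun x y : PP ℚ => Real.log (a (br x.rep y.rep))) B = 2 * Real.log (a (VP x)) := by
    rw [en_enum _ hs B v]
    unfold VP
    rw [map_prod, Real.log_prod]
    · congr 1
      refine sum_congr rfl fun i _ => ?_
      rw [map_prod, Real.log_prod]
      · exact sum_congr rfl fun j _ => hs _ _
      · intro j hj
        exact (a.pos (hbr j i (ne_of_gt (mem_Ioi.1 hj)))).ne'
    · intro i _
      rw [map_prod]
      refine prod_ne_zero_iff.2 fun j hj => ?_
      exact (a.pos (hbr j i (ne_of_gt (mem_Ioi.1 hj)))).ne'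
  have h4 := en_add (fun x : PP ℚ => l x.rep) B
  rw [h2, h3, h4, hB, sum_sub_distrib, ← mul_sum]
  push_cast
  linarith

/-- a finite set of primes for finitely many numbers -/
lemma exists_supp (Q : Finset ℚ) : ∃ P : Finset Pr, ∀ q ∈ Q, q ≠ 0 → ∀ p, qav p q ≠ 1 → p ∈ P := by
  classical
  have h : ∀ q : ℚ, ∃ S : Finset Pr, q ≠ 0 → ∀ p, qav p q ≠ 1 → p ∈ S := by
    intro q
    by_cases hq : q = 0
    · exact ⟨∅, fun h => absurd hq h⟩
    · obtain ⟨S, hS⟩ := hfinQ q hq
      exact ⟨S, fun _ => hS⟩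
  choose S hS using h
  exact ⟨Q.biUnion S, fun q hq hq0 p hp => mem_biUnion.2 ⟨q, hq, hS q hq0 p hp⟩⟩

/-- the absolute value of a place -/
noncomputable def aw : Option Pr → AbsoluteValue ℚ ℝ
  | none => Rat.AbsoluteValue.real
  | some p => qav p

/-- the product formula -/
lemma prod_formula_log {q : ℚ} (hq : q ≠ 0) {P : Finset Pr} (hP : ∀ p, qav p q ≠ 1 → p ∈ P) :
    ∑ w ∈ insertNone P, Real.log (aw w q) = 0 := by
  rw [sum_insertNone]
  have h1 := hprodQ q hq P hP
  have h2 : ∑ p ∈ P, Real.log (qav p q) = Real.log (∏ p ∈ P, qav p q) := by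
    rw [Real.log_prod]
    intro p _
    exact ((qav p).pos hq).ne'
  have h3 : ∑ p ∈ P, Real.log (aw (some p) q) = ∑ p ∈ P, Real.log (qav p q) := rfl
  have h4 : Real.log (aw none q) = Real.log (Rat.AbsoluteValue.real q) := rfl
  rw [h3, h2, h1, h4, pow_one, Real.log_inv]
  ring

/-- the number of points in a fibre -/
lemma card_fibre_le [DecidableEq (PP ℚ)] {F G : MvPolynomial (Fin 2) ℚ} {d : ℕ} (hd : 1 ≤ d)
    (hF : F.IsHomogeneous d) (hG : G.IsHomogeneous d) (h0 : NoZero F G) (A : Finset (PP ℚ))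
    (Q : PP ℚ) : (A.filter (fun P => fX F G (phi_ne_zero h0) P = Q)).card ≤ d := by
  classical
  have hhom : ∀ q : ℚ × ℚ, (C q.2 * F - C q.1 * G).IsHomogeneous d := by
    intro q
    apply MvPolynomial.IsHomogeneous.sub
    · simpa using (MvPolynomial.isHomogeneous_C (Fin 2) q.2).mul hF
    · simpa using (MvPolynomial.isHomogeneous_C (Fin 2) q.1).mul hG
  apply Pool.Agent.TH856.PG.card_zeros_le _ (fun P : PP ℚ => wv P)
    (fun i _ => Pool.Agent.TH856.PG.coprime_of_ne_zero (wv_ne_zero _))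
    (fun i _ j _ h => dt_wv_ne h)
    (hhom (wv Q)) (Pool.Agent.TH856.PG.fibre_ne_zero hd hF hG h0 (wv_ne_zero _))
  intro P hP
  have hP' : fX F G (phi_ne_zero h0) P = Q := (mem_filter.1 hP).2
  obtain ⟨b, hb, e1⟩ := Pool.Agent.TH856.PG.dt_fX (phi_ne_zero h0) P (wv Q)
  rw [hP'] at e1
  have e2 : dt (wv Q) (wv Q) = 0 := by unfold dt; ring
  rw [e2] at e1
  have e3 := (mul_eq_zero.1 e1.symm).resolve_left hb
  rw [← e3]
  simp only [Pool.Agent.TH856.PG.ev_sub, Pool.Agent.TH856.PG.ev_mul, Pool.Agent.TH856.PG.ev_C, dt]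
  ring

/-- what is needed at a bad place -/
structure BadData (a : AbsoluteValue ℚ ℝ) (F G : MvPolynomial (Fin 2) ℚ) (d : ℕ)
    (l : (Fin 2 → ℚ) → ℝ) (err : ℕ → ℝ) : Prop where
  smul : ∀ (c : ℚ) (v : Fin 2 → ℚ), c ≠ 0 → v ≠ 0 → l (c • v) = Real.log (a c) + l v
  nonneg : ∀ u v : Fin 2 → ℚ, u ≠ 0 → v ≠ 0 → br u v ≠ 0 → 0 ≤ lE a l u v
  ultra : ∀ u v z : Fin 2 → ℚ, u ≠ 0 → v ≠ 0 → z ≠ 0 → br u v ≠ 0 → br v z ≠ 0 → br u z ≠ 0 →
    min (lE a l u v) (lE a l v z) ≤ lE a l u z + 1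
  loc : ∀ J : ℕ, Lam F G J d ≠ 0 → ∀ x : Fin ((J + 1) * d) → Fin 2 → ℚ, VP x ≠ 0 →
    (∀ i, x i ≠ 0) → (∀ i, Phi F G (x i) ≠ 0) →
      Real.log (a (VP x)) + Real.log (a (Lam F G J d)) ≤
        err J + J * ∑ i, l (Phi F G (x i)) + (d - 1) * ∑ i, l (x i)

lemma badData_arch {F G : MvPolynomial (Fin 2) ℚ} {d : ℕ} (hd : 1 ≤ d) (hF : F.IsHomogeneous d)
    (hG : G.IsHomogeneous d) {M : Matrix (Fin 2) (Fin 2) ℝ} (hM : M.det ≠ 0) :
    BadData Rat.AbsoluteValue.real F G d (lR M)
      (fun J => Real.log (((J + 1) * d).factorial)) := by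
  refine ⟨?_, ?_, ?_, ?_⟩
  · intro c v hc hv
    rw [← hwR]
    exact lN_smul φR (w := wR) en2_smul c hc v (en2_mulVec_pos hM hv)
  · intro u v hu hv h
    exact lE_arch_nonneg hM hu hv h
  · intro u v z hu hv hz h1 h2 h3
    exact lE_arch_ultra hM hu hv hz h1 h2 h3
  · intro J hL x hx hx0 hx1
    exact local_arch hM hd hF hG hL x hx hx0 hx1

lemma badData_nonarch {F G : MvPolynomial (Fin 2) ℚ} {d : ℕ} (hd : 1 ≤ d)
    (hF : F.IsHomogeneous d) (hG : G.IsHomogeneous d) (p : Pr) {M : Matrix (Fin 2) (Fin 2) ℚ}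
    (hM : M.det ≠ 0) : BadData (qav p) F G d (lQ p M) (fun _ => 0) := by
  have hwid : ∀ q : ℚ, qav p ((RingHom.id ℚ) q) = qav p q := fun q => rfl
  refine ⟨?_, ?_, ?_, ?_⟩
  · intro c v hc hv
    exact lN_smul (RingHom.id ℚ) (nm_smul (qav p)) c hc v (nm_mulVec_pos _ hM hv)
  · intro u v hu hv h
    exact lE_nonneg _ (qav_na p) hwid hM hu hv h
  · intro u v z hu hv hz h1 h2 h3
    have := lE_ultra _ (qav_na p) hwid hM hu hv hz h1 h2 h3
    exact this.trans (by linarith)
  · intro J hL x hx hx0 hx1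
    rw [zero_add]
    exact local_nonarch _ (qav_na p) hwid hM hd hF hG hL x hx hx0 hx1

/-- **the system of a finite invariant set** -/
theorem exists_sys [DecidableEq (PP ℚ)] [DecidableEq (Option Pr)] {F G : MvPolynomial (Fin 2) ℚ}
    {d : ℕ} (hd : 1 ≤ d)
    (hF : F.IsHomogeneous d) (hG : G.IsHomogeneous d) (h0 : NoZero F G) (Bd : Finset Pr)
    (l : Option Pr → (Fin 2 → ℚ) → ℝ)
    (hinf : BadData Rat.AbsoluteValue.real F G d (l none)
      (fun J => Real.log (((J + 1) * d).factorial)))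
    (hbad : ∀ p ∈ Bd, BadData (qav p) F G d (l (some p)) (fun _ => 0))
    (hgood : ∀ p ∉ Bd, GoodData (qav p) F G d (l (some p)))
    (A : Finset (PP ℚ)) (hA : ∀ P ∈ A, fX F G (phi_ne_zero h0) P ∈ A) (J : ℕ) :
    ∃ (W : Finset (Option Pr)) (T : Option Pr → PP ℚ → ℝ) (h : PP ℚ → ℝ),
      Sys A (fX F G (phi_ne_zero h0)) d J W (insertNone Bd) none
        (fun w x y => lE (aw w) (l w) x.rep y.rep) T h := by
  classical
  have hne := phi_ne_zero h0
  choose b hb0 hb using fun P : PP ℚ => rep_fX hne P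
  obtain ⟨P₀, hP₀⟩ := exists_supp ((A ×ˢ A).image (fun z => br z.1.rep z.2.rep) ∪ A.image b ∪
    {Lam F G 1 d, Lam F G J d})
  set P₁ := P₀ ∪ Bd with hP₁
  have hsupp : ∀ q, q ∈ ((A ×ˢ A).image (fun z => br z.1.rep z.2.rep) ∪ A.image b ∪
      {Lam F G 1 d, Lam F G J d}) → q ≠ 0 →
      ∑ w ∈ insertNone P₁, Real.log (aw w q) = 0 := by
    intro q hq hq0
    exact prod_formula_log hq0 fun p hp => mem_union_left _ (hP₀ q hq hq0 p hp)
  set h : PP ℚ → ℝ := fun x => ∑ w ∈ insertNone P₁, l w x.rep with hh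
  -- properties common to all places
  have hcommon : ∀ w : Option Pr,
      (∀ (c : ℚ) (v : Fin 2 → ℚ), c ≠ 0 → v ≠ 0 → l w (c • v) = Real.log (aw w c) + l w v) ∧
      (∀ u v : Fin 2 → ℚ, u ≠ 0 → v ≠ 0 → br u v ≠ 0 → 0 ≤ lE (aw w) (l w) u v) ∧
      (∀ u v z : Fin 2 → ℚ, u ≠ 0 → v ≠ 0 → z ≠ 0 → br u v ≠ 0 → br v z ≠ 0 → br u z ≠ 0 →
        min (lE (aw w) (l w) u v) (lE (aw w) (l w) v z) ≤ lE (aw w) (l w) u z + 1) := by
    intro w
    rcases w with _ | p
    · exact ⟨hinf.smul, hinf.nonneg, hinf.ultra⟩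
    · by_cases hp : p ∈ Bd
      · exact ⟨(hbad p hp).smul, (hbad p hp).nonneg, (hbad p hp).ultra⟩
      · refine ⟨(hgood p hp).smul, (hgood p hp).nonneg, ?_⟩
        intro u v z hu hv hz h1 h2 h3
        have := (hgood p hp).ultra u v z hu hv hz h1 h2 h3
        exact this.trans (le_add_of_nonneg_right zero_le_one)
  refine ⟨insertNone P₁, fun w x => d * l w x.rep - l w (Phi F G x.rep), h, ?_⟩
  refine ⟨?_, ?_, hA, fun y _ => card_fibre_le hd hF hG h0 A y, ?_, ?_, ?_, ?_, ?_, ?_, ?_⟩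
  · exact insertNone.monotone subset_union_right
  · exact none_mem_insertNone
  · intro w _ x _ y _ hxy
    exact (hcommon w).2.1 _ _ x.rep_nonzero y.rep_nonzero (br_rep_ne hxy)
  · intro w x y
    exact lE_symm _ _ _ _
  · intro w _ x _ y _ z _ hxy hyz hxz
    exact (hcommon w).2.2 _ _ _ x.rep_nonzero y.rep_nonzero z.rep_nonzero (br_rep_ne hxy)
      (br_rep_ne hyz) (br_rep_ne hxz)
  · intro x hx y hy hxy
    unfold lE
    rw [sum_sub_distrib, sum_add_distrib, hsupp (br x.rep y.rep) (by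
      apply mem_union_left; apply mem_union_left
      exact mem_image.2 ⟨(x, y), mem_product.2 ⟨hx, hy⟩, rfl⟩) (br_rep_ne hxy), sub_zero]
  · intro x hx
    rw [sum_sub_distrib, ← mul_sum]
    congr 1
    have h1 : ∀ w ∈ insertNone P₁, l w (fX F G hne x).rep =
        Real.log (aw w (b x)) + l w (Phi F G x.rep) := by
      intro w _
      rw [hb x]
      exact (hcommon w).1 _ _ (hb0 x) (hne _ x.rep_nonzero)
    rw [hh]
    simp only
    rw [sum_congr rfl h1, sum_add_distrib, hsupp (b x) (by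
      apply mem_union_left; apply mem_union_right
      exact mem_image_of_mem b hx) (hb0 x), zero_add]
  · intro w hw hwb x _ y _
    rcases w with _ | p
    · exact absurd none_mem_insertNone hwb
    · have hp : p ∉ Bd := fun h => hwb (some_mem_insertNone.2 h)
      obtain ⟨t, ht, _⟩ := (hgood p hp).const
      show d * l (some p) x.rep - l (some p) (Phi F G x.rep) =
        d * l (some p) y.rep - l (some p) (Phi F G y.rep)
      rw [ht _ x.rep_nonzero, ht _ y.rep_nonzero]
  · intro j hj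
    have hL : Lam F G j d ≠ 0 := Lam_ne_zero hd hF hG h0 j
    refine ⟨fun w => Real.log (aw w (Lam F G j d)), hsupp _ (by
      apply mem_union_right
      rcases hj with rfl | rfl
      · exact mem_insert_self _ _
      · exact mem_insert_of_mem (mem_singleton_self _)) hL, ?_⟩
    intro B hBA hBc
    refine ⟨?_, ?_, ?_⟩
    · intro w hw hwn
      rcases w with _ | p
      · exact absurd rfl hwn
      · have hp : p ∈ Bd := some_mem_insertNone.1 hw
        have := det_field hne ((hbad p hp).loc j hL) B hBc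
        rw [add_zero] at this
        exact this
    · have := det_field hne (hinf.loc j hL) B hBc
      rw [hBc]
      exact this
    · intro w hw hwb
      rcases w with _ | p
      · exact absurd none_mem_insertNone hwb
      · have hp : p ∉ Bd := fun h => hwb (some_mem_insertNone.2 h)
        obtain ⟨t, ht, ht2⟩ := (hgood p hp).const
        have h1 : ∑ x ∈ B, (d * l (some p) x.rep - l (some p) (Phi F G x.rep)) =
            (((j : ℝ) + 1) * d) * t := by
          rw [sum_congr rfl fun x _ => ht _ x.rep_nonzero, sum_const, hBc, nsmul_eq_mul]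
          push_cast
          ring
        show (j : ℝ) * ∑ x ∈ B, (d * l (some p) x.rep - l (some p) (Phi F G x.rep)) +
          Real.log (qav p (Lam F G j d)) ≤ 0
        rw [h1]
        have := ht2 j hL
        have e : (j : ℝ) * (((j : ℝ) + 1) * d * t) = j * (((j : ℝ) + 1) * d) * t := by ring
        rw [e]
        exact this

end Pool.Agent.T6.H83.RM
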