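import Pool.Agent.T6.H83.RM.Con8

/-!
# The bound for maps of large degree
-/

set_option autoImplicit false
set_option linter.unusedSectionVars false
set_option linter.unusedVariables false

namespace Pool.Agent.T6.H83.RM

open Finset MvPolynomial
open Pool.Agent.H892.PGR (nm nm_pos nm_smul Phi)
open Pool.Agent.H892.PGK (PotGood PP fX fX_mk br_zero_iff)
open Pool.Agent.TH856.PG (Pr qav qav_eq NoZero phi_ne_zero)

theorem big_degree : ∃ C : ℕ, ∀ (d : ℕ) (F G : MvPolynomial (Fin 2) ℚ) (_ : F.IsHomogeneous d)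
    (_ : G.IsHomogeneous d) (h0 : NoZero F G) (Bd : Finset Pr)
    (_ : ∀ p ∉ Bd, PotGood (qav p) F G d) (_ : 4800000 * (Bd.card + 1) ^ 3 ≤ d)
    (A : Finset (PP ℚ)) (_ : ∀ P ∈ A, fX F G (phi_ne_zero h0) P ∈ A),
    A.card ≤ C * ((Bd.card + 1) ^ 2 * d) := by
  classical
  obtain ⟨q, hq⟩ := exists_nat_gt (2 * Real.exp 24)
  have hexp : 0 < Real.exp 24 := Real.exp_pos _
  have hq0R : (0 : ℝ) < q := by linarith
  have hq0 : 0 < q := by exact_mod_cast hq0R
  set K : ℕ := (2 * q + 1) ^ 2 with hK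
  refine ⟨1089 * (17 * 12000 + K + 1) + 8 * 12000 + 1089, ?_⟩
  intro d F G hF hG h0 Bd hp hd A hA
  obtain ⟨S, hS⟩ : ∃ S : ℕ, S = Bd.card + 1 := ⟨_, rfl⟩
  rw [← hS] at hd ⊢
  have hS1 : 1 ≤ S := by omega
  have hS2 : 1 ≤ S ^ 2 := Nat.one_le_pow _ _ hS1
  have hS3 : 1 ≤ S ^ 3 := Nat.one_le_pow _ _ hS1
  have hd1 : 1 ≤ d := by omega
  obtain ⟨D, hD⟩ : ∃ D : ℕ, D = S ^ 2 * d := ⟨_, rfl⟩
  have hD1 : 1 ≤ D := by rw [hD]; exact Nat.mul_pos hS2 hd1
  rw [← hD]
  have hCD : 1089 * (17 * 12000 + K + 1) + 8 * 12000 + 1089 ≤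
      (1089 * (17 * 12000 + K + 1) + 8 * 12000 + 1089) * D := Nat.le_mul_of_pos_right _ hD1
  have hsplitC : (1089 * (17 * 12000 + K + 1) + 8 * 12000 + 1089) * D =
      1089 * (17 * 12000 * D) + 1089 * ((K + 1) * D) + 8 * (12000 * D) + 1089 * D := by ring
  have hKD : K + 1 ≤ (K + 1) * D := Nat.le_mul_of_pos_right _ hD1
  by_cases hA4 : A.card < 4
  · omega
  push Not at hA4
  set r : PP ℚ → Fin 2 → ℚ := fun x => x.rep with hr
  have hr0 : ∀ x ∈ A, r x ≠ 0 := fun x _ => x.rep_nonzero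
  have hbr : ∀ x ∈ A, ∀ y ∈ A, x ≠ y → br (r x) (r y) ≠ 0 := fun x _ y _ hxy => br_rep_ne hxy
  obtain ⟨M, hM, hfar⟩ := exists_frame_arch A r hr0 hbr (by omega)
  set u : PP ℚ → Fin 2 → ℝ := fun x => un M (r x) with hu
  have hu1 : ∀ x ∈ A, en2 (u x) = 1 := fun x hx => en2_un hM (hr0 x hx)
  obtain ⟨x₀, hx₀, hNc⟩ := grid 16 (by norm_num) A (card_pos.1 (by omega)) u hu1
  set N := A.filter (fun x => |br (u x₀) (u x)| ≤ 2 / (16 : ℕ)) with hN
  set Fr := A.filter (fun x => ¬ |br (u x₀) (u x)| ≤ 1 / 4) with hFr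
  have hNA : N ⊆ A := filter_subset _ _
  have hFA : Fr ⊆ A := filter_subset _ _
  have hfar0 := hfar x₀ hx₀
  have hFc : A.card ≤ 4 * Fr.card := by
    have h1 := card_filter_add_card_filter_not (s := A) (fun x => |br (u x₀) (u x)| ≤ 1 / 4)
    have h2 : (A.filter (fun x => ¬ |br (u x₀) (u x)| ≤ 1 / 4)).card = Fr.card := rfl
    have h3 : (A.filter (fun x => |br (u x₀) (u x)| ≤ 1 / 4)).card =
        (A.filter (fun x => |br (un M (r x₀)) (un M (r x))| ≤ 1 / 4)).card := rfl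
    omega
  by_cases hN2 : N.card < 2
  · have : A.card ≤ (2 * 16 + 1) ^ 2 * 1 := hNc.trans (Nat.mul_le_mul_left _ (by omega))
    omega
  push Not at hN2
  -- the local data
  have hfr : ∀ p : Pr, ∃ M' : Matrix (Fin 2) (Fin 2) ℚ, M'.det ≠ 0 ∧ ∀ x ∈ N,
      2 * (N.filter (fun y => y = x ∨ 0 < lE (qav p) (lQ p M') (r x) (r y))).card ≤ N.card :=
    fun p => exists_frame_nonarch p N r (fun x hx => hr0 x (hNA hx))
      (fun x hx y hy hxy => hbr x (hNA hx) y (hNA hy) hxy) hN2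
  choose Mp hMp1 hMp2 using hfr
  have hl : ∀ p : Pr, ∃ l' : (Fin 2 → ℚ) → ℝ, (p ∈ Bd → l' = lQ p (Mp p)) ∧
      (p ∉ Bd → GoodData (qav p) F G d l') := by
    intro p
    by_cases hpb : p ∈ Bd
    · exact ⟨lQ p (Mp p), fun _ => rfl, fun h => absurd hpb h⟩
    · obtain ⟨l', hl'⟩ := exists_goodData hd1 hF hG (hp p hpb)
      exact ⟨l', fun h => absurd h hpb, fun _ => hl'⟩
  choose lp hlp1 hlp2 using hl
  set l : Option Pr → (Fin 2 → ℚ) → ℝ := fun w => w.elim (lR M) lp with hl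
  obtain ⟨J, hJ⟩ : ∃ J : ℕ, J + 1 = 12000 * S ^ 2 := ⟨12000 * S ^ 2 - 1, by omega⟩
  obtain ⟨W, T, h, hsys⟩ := exists_sys hd1 hF hG h0 Bd l (badData_arch hd1 hF hG hM)
    (fun p hpb => by
      have : l (some p) = lQ p (Mp p) := hlp1 p hpb
      rw [this]
      exact badData_nonarch hd1 hF hG p (hMp1 p))
    (fun p hpb => hlp2 p hpb) A hA J
  have hbc : (insertNone Bd).card = S := by rw [card_insertNone, hS]
  have hEinf : ∀ x ∈ A, ∀ y ∈ A, x ≠ y →
      lE (aw none) (l none) x.rep y.rep = -Real.log |br (u x) (u y)| := by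
    intro x hx y hy hxy
    exact lE_arch hM (hr0 x hx) (hr0 y hy) (hbr x hx y hy hxy)
  have hupos : ∀ x ∈ A, ∀ y ∈ A, x ≠ y → 0 < |br (u x) (u y)| := by
    intro x hx y hy hxy
    exact br_un_ne hM (hr0 x hx) (hr0 y hy) (hbr x hx y hy hxy)
  have hfinal := hsys.bound (by rw [hbc]; exact hJ) (by rw [hbc]; exact hd) hNA hFA ?_ ?_ ?_
    (K := K) ?_
  · have hJD : (J + 1) * d = 12000 * D := by rw [hJ, hD]; ring
    rw [hJD] at hfinal
    rcases hfinal with h1 | h1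
    · have h2 : A.card ≤ 1089 * N.card := hNc
      omega
    · omega
  · -- disjoint
    rw [disjoint_left]
    intro x hx hx'
    rw [hN, mem_filter] at hx
    rw [hFr, mem_filter] at hx'
    apply hx'.2
    refine hx.2.trans ?_
    norm_num
  · -- splitting at the bad primes
    intro w hw hwn
    rcases w with _ | p
    · exact absurd rfl hwn
    · have hpb : p ∈ Bd := some_mem_insertNone.1 hw
      have e1 : l (some p) = lQ p (Mp p) := hlp1 p hpb
      have hwid : ∀ q : ℚ, qav p ((RingHom.id ℚ) q) = qav p q := fun q => rfl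
      have hs := exists_split (fun x y : PP ℚ => lE (qav p) (lQ p (Mp p)) x.rep y.rep) N
        (fun x y => lE_symm _ _ _ _)
        (fun x hx y hy hxy => lE_nonneg _ (qav_na p) hwid (hMp1 p) (hr0 x (hNA hx))
          (hr0 y (hNA hy)) (hbr x (hNA hx) y (hNA hy) hxy))
        (fun x hx y hy z hz hxy hyz hxz => lE_ultra _ (qav_na p) hwid (hMp1 p) (hr0 x (hNA hx))
          (hr0 y (hNA hy)) (hr0 z (hNA hz)) (hbr x (hNA hx) y (hNA hy) hxy)
          (hbr y (hNA hy) z (hNA hz) hyz) (hbr x (hNA hx) z (hNA hz) hxz))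
        (fun x hx => hMp2 p x hx)
      rw [e1]
      exact hs
  · -- far points
    intro x hx y hy
    have hxA := hNA hx
    have hyA := hFA hy
    rw [hN, mem_filter] at hx
    rw [hFr, mem_filter] at hy
    have hxy : x ≠ y := by
      rintro rfl
      apply hy.2
      refine hx.2.trans ?_
      norm_num
    rw [hEinf x hxA y hyA hxy]
    have t := br_tri (u x₀) (u x) (u y)
    rw [hu1 x₀ hx₀, hu1 x hxA, hu1 y hyA, mul_one, mul_one, mul_one] at t
    have h1 : 1 / 4 < |br (u x₀) (u y)| := not_le.1 hy.2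
    have h2 : |br (u x₀) (u x)| ≤ 1 / 8 := by
      refine hx.2.trans ?_
      norm_num
    have h3 : 1 / 8 ≤ |br (u x) (u y)| := by linarith
    have h4 := Real.log_le_log (by norm_num) h3
    rw [Real.log_div one_ne_zero (by norm_num), Real.log_one] at h4
    have h5 : Real.log 8 = 3 * Real.log 2 := by
      rw [show (8 : ℝ) = 2 ^ 3 by norm_num, Real.log_pow]
      norm_num
    have h6 := Real.log_two_lt_d9
    linarith
  · -- close points
    intro B hB hBc
    have hBpos : 0 < B.card := by omega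
    obtain ⟨y₀, hy₀, h1⟩ := grid q hq0 B (card_pos.1 hBpos) u (fun x hx => hu1 x (hB hx))
    have h2 : 1 < (B.filter (fun x => |br (u y₀) (u x)| ≤ 2 / q)).card := by
      by_contra h3
      push Not at h3
      have : B.card ≤ K * 1 := h1.trans (Nat.mul_le_mul_left _ h3)
      omega
    obtain ⟨y, hy, hyy⟩ := exists_mem_ne h2 y₀
    rw [mem_filter] at hy
    refine ⟨y₀, hy₀, y, hy.1, Ne.symm hyy, ?_⟩
    rw [hEinf y₀ (hB hy₀) y (hB hy.1) (Ne.symm hyy)]
    have h3 := hupos y₀ (hB hy₀) y (hB hy.1) (Ne.symm hyy)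
    have h4 : |br (u y₀) (u y)| < Real.exp (-24) := by
      refine lt_of_le_of_lt hy.2 ?_
      rw [Real.exp_neg, div_lt_iff₀ hq0R, inv_mul_eq_div, lt_div_iff₀ hexp]
      exact hq
    have h5 := Real.log_lt_log h3 h4
    rw [Real.log_exp] at h5
    linarith

end Pool.Agent.T6.H83.RM
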